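import Pool.Agent.Work.MP_7b0bad_ag.MW.Stmts
import Pool.Agent.Work.MP_7b0bad_ag.MT.LStmts

set_option autoImplicit false

/-!
# Block SL: special linear groups, the purely wild part; statements

`R`, `WAx`, `RH`, `GamR` as in `MW/Stmts.lean`.
-/

namespace MP7b0bad.SL

open Module

/-- the special linear group of a vector space -/
noncomputable abbrev SLV (F V : Type) [Field F] [AddCommGroup V] [Module F V] : Subgroup (V ≃ₗ[F] V) :=
  (LinearEquiv.det : (V ≃ₗ[F] V) →* Fˣ).ker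

/-- the elements that act trivially on `V / W` (they map `W` to itself) -/
noncomputable def HW {F V : Type} [Field F] [AddCommGroup V] [Module F V] (W : Submodule F V) :
    Subgroup (SLV F V) where
  carrier := {g | ∀ v : V, (g : V ≃ₗ[F] V) v - v ∈ W}
  one_mem' := by
    intro v
    simp
  mul_mem' := by
    intro a b ha hb v
    have h1 := W.add_mem (ha ((b : V ≃ₗ[F] V) v)) (hb v)
    rw [sub_add_sub_cancel] at h1
    exact h1
  inv_mem' := by
    intro a ha v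
    have h1 := W.neg_mem (ha ((a : V ≃ₗ[F] V).symm v))
    rw [LinearEquiv.apply_symm_apply, neg_sub] at h1
    exact h1

/-- the elements that act trivially on `W` -/
noncomputable def HL {F V : Type} [Field F] [AddCommGroup V] [Module F V] (W : Submodule F V) :
    Subgroup (SLV F V) where
  carrier := {g | ∀ v ∈ W, (g : V ≃ₗ[F] V) v = v}
  one_mem' := fun _ _ => rfl
  mul_mem' := by
    intro a b ha hb v hv
    show (a : V ≃ₗ[F] V) ((b : V ≃ₗ[F] V) v) = v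
    rw [hb v hv, ha v hv]
  inv_mem' := by
    intro a ha v hv
    show (a : V ≃ₗ[F] V).symm v = v
    rw [LinearEquiv.symm_apply_eq, ha v hv]

/-- the statement for all elements of order `p` of `SL(V)` -/
def Good (p : ℕ) (R : ∀ (G : Type) [Group G], Subgroup G → Prop) (F V : Type) [Field F]
    [AddCommGroup V] [Module F V] : Prop :=
  ∀ x : SLV F V, orderOf x = p →
    R (SLV F V) (Subgroup.zpowers x) ∧ Subgroup.normalClosure {x} = (⊤ : Subgroup (SLV F V))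

/-- the seed: unitriangular subgroup of `SL_2(F)`, `F` a finite field of characteristic `p` -/
def SLSeed (p : ℕ) (R : ∀ (G : Type) [Group G], Subgroup G → Prop) : Prop :=
  ∀ (F : Type) [Field F] [Finite F] [CharP F p],
    R (Matrix.SpecialLinearGroup (Fin 2) F) (Subgroup.closure (Set.range (MT.u2 (F := F))))

/-- compatibility with quotients -/
def QuoR (R : ∀ (G : Type) [Group G], Subgroup G → Prop) : Prop :=
  ∀ (G : Type) [Group G] [Finite G] (P N : Subgroup G) [N.Normal], R G P →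
    R (G ⧸ N) (P.map (QuotientGroup.mk' N))

/-- [SLQuo] `Rel k` is compatible with quotients (`SVF.occ_quo`, `SV.VQuo`) -/
def SLQuo : Prop := ∀ (k : Type) [Field k] [IsAlgClosed k] (p : ℕ) [Fact p.Prime] [CharP k p],
  QuoR (fun (G : Type) [Group G] (P : Subgroup G) => Rel k G P)

/-- [SLBase] (hNor) dimension 2.  `x` is conjugate to `u(b)` (by an element of `GL_2`, which acts by
automorphisms).  `Γ = GamR ⟨x⟩` contains the conjugate of `SL_2(F_p)` by `diag(b, 1)` (seed for the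
prime field), and `⟨Γ, C(x)⟩` contains `u(F)` and the opposite group, so it is `SL_2(F)`: `Γ` is
normal, and contains `u(b)`, all `u(a^2 b)`, so `u(F)`, and `Γ = ⊤`. -/
def SLBase : Prop := ∀ (p : ℕ) [Fact p.Prime] (R : ∀ (G : Type) [Group G], Subgroup G → Prop),
  MW.WAx p R → SLSeed p R → ∀ (F V : Type) [Field F] [Finite F] [CharP F p] [AddCommGroup V]
  [Module F V], finrank F V = 2 → Good p R F V

/-- [SLHyp] hyperplanes.  `HW W` maps onto `SL(W)`, the kernel `Hom(V/W, W)` is an elementary abelian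
`p`-group; the normal closure `M` of `x` in `HW W` maps onto `SL(W)`, and contains the commutators
of the kernel with `M`, which are the whole kernel (every `w ∈ W` is of the form `g w' - w'`); then
the axiom `solv`. -/
def SLHyp : Prop := ∀ (p : ℕ) [Fact p.Prime] (R : ∀ (G : Type) [Group G], Subgroup G → Prop),
  MW.WAx p R → ∀ (F V : Type) [Field F] [Finite F] [CharP F p] [AddCommGroup V] [Module F V]
  [Module.Finite F V] (W : Submodule F V), finrank F W + 1 = finrank F V → 2 ≤ finrank F W →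
  Good p R F W → ∀ x : SLV F V, orderOf x = p → x ∈ HW W →
  (∃ w ∈ W, (x : V ≃ₗ[F] V) w ≠ w) →
  RH R (Subgroup.zpowers x) (HW W) ∧ HW W ≤ Subgroup.normalClosure {x}

/-- [SLLin] lines, as `SLHyp` with `HL ℓ → SL(V/ℓ)`, kernel `Hom(V/ℓ, ℓ)` -/
def SLLin : Prop := ∀ (p : ℕ) [Fact p.Prime] (R : ∀ (G : Type) [Group G], Subgroup G → Prop),
  MW.WAx p R → ∀ (F V : Type) [Field F] [Finite F] [CharP F p] [AddCommGroup V] [Module F V]
  [Module.Finite F V] (ℓ : Submodule F V), finrank F ℓ = 1 → 3 ≤ finrank F V →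
  Good p R F (V ⧸ ℓ) → ∀ x : SLV F V, orderOf x = p → x ∈ HL ℓ →
  (∃ v : V, (x : V ≃ₗ[F] V) v - v ∉ ℓ) →
  RH R (Subgroup.zpowers x) (HL ℓ) ∧ HL ℓ ≤ Subgroup.normalClosure {x}

/-- [SLGen] `SL(V)` is generated by transvections `1 + v ⊗ f`.  `⟨HW W, HW W'⟩ = SL(V)` for different
hyperplanes: `HW W` contains the transvections with `v ∈ W`, and moves every `v ∉ W` into `W'`.
`HL ℓ` contains a transvection that moves `W` (`dim V ≥ 3`). -/
def SLGen : Prop := ∀ (F V : Type) [Field F] [Finite F] [AddCommGroup V] [Module F V]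
  [Module.Finite F V] (W ℓ : Submodule F V), 3 ≤ finrank F V → finrank F W + 1 = finrank F V →
  finrank F ℓ = 1 → HW W ⊔ HL ℓ = ⊤

/-- [SLEx] `N = x - 1` is nilpotent and not zero; `W ⊇ Im N`, `W ≠ ker N` a hyperplane,
`ℓ ⊆ ker N`, `ℓ ≠ Im N` a line -/
def SLEx : Prop := ∀ (p : ℕ) [Fact p.Prime] (F V : Type) [Field F] [Finite F] [CharP F p]
  [AddCommGroup V] [Module F V] [Module.Finite F V] (x : SLV F V), 3 ≤ finrank F V →
  orderOf x = p → ∃ W ℓ : Submodule F V, finrank F W + 1 = finrank F V ∧ finrank F ℓ = 1 ∧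
    x ∈ HW W ∧ (∃ w ∈ W, (x : V ≃ₗ[F] V) w ≠ w) ∧ x ∈ HL ℓ ∧ ∃ v : V, (x : V ≃ₗ[F] V) v - v ∉ ℓ

/-- [SLAsm] (hNor, hBase, hHyp, hLin, hGen, hEx) induction on the dimension -/
def SLAsm : Prop := ∀ (p : ℕ) [Fact p.Prime] (R : ∀ (G : Type) [Group G], Subgroup G → Prop),
  MW.WAx p R → SLSeed p R → ∀ (F V : Type) [Field F] [Finite F] [CharP F p] [AddCommGroup V]
  [Module F V] [Module.Finite F V], 2 ≤ finrank F V → Good p R F V

/-- [SLX] characteristic different from `p`.  `Q` not scalar with an invariant subspace `W`; `W'` an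
invariant complement (Maschke), `U = Hom(W', W)`, `U' = Hom(W, W')` (of order prime to `p`,
normalised by `Q`).  `Γ = Gam p Q`.  `U = [U, Q] C_U(Q)` (`all_GCop`), `[U, Q] ≤ Γ` (`all_HNor`) and
`C(Q)` normalises `Γ`, so `⟨Γ, C(Q)⟩ ⊇ ⟨U, U'⟩ = SL(V)` and `Γ` is normal.  `[U, Q] ≠ 1` as `Q` is
not scalar, and a nonzero additive subgroup of `U` that is normalised by `SL(V)_W` is `U`
(elements `h + s a ⊗ (f h)`, `s ∈ F`, if `dim V ≥ 3`; squares generate `F` if `dim V = 2`); the same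
for `U'`. -/
def SLX : Prop := ∀ (p : ℕ) [Fact p.Prime] (F V : Type) [Field F] [Finite F] [AddCommGroup V]
  [Module F V] [Module.Finite F V] (Q : Subgroup (SLV F V)) (W : Submodule F V), (p : F) ≠ 0 →
  IsPGroup p Q → (∃ g ∈ Q, ∃ v : V, ∀ c : F, (g : V ≃ₗ[F] V) v ≠ c • v) → W ≠ ⊥ → W ≠ ⊤ →
  (∀ g ∈ Q, ∀ w ∈ W, (g : V ≃ₗ[F] V) w ∈ W) → Gam p Q = ⊤

/-- [SLY] `p` odd.  Take `x ∈ P` not scalar with `x^p` scalar, `x^p = ζ`.  If `x` is irreducible then
`E = F[x]` is a field of degree `n = dim V ≥ 2`.  `ζ = 1`: `x` has order `p` and lies in the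
subfield with `|F|^i` elements, contradiction.  `ζ ≠ 1`: `p ∣ |F| - 1`, `x^|F| = ω x` with
`ω^p = 1`, `ω ∈ F`, so `n = p` and `det x = N(x) = x^p = ζ ≠ 1`, contradiction. -/
def SLY : Prop := ∀ (p : ℕ) [Fact p.Prime] (F V : Type) [Field F] [Finite F] [AddCommGroup V]
  [Module F V] [Module.Finite F V] (P : Subgroup (SLV F V)) (i : ℕ), p ≠ 2 → (p : F) ≠ 0 →
  0 < i → i < finrank F V → p ∣ Nat.card F ^ i - 1 → IsPGroup p P →
  (∃ g ∈ P, ∃ v : V, ∀ c : F, (g : V ≃ₗ[F] V) v ≠ c • v) →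
  ∃ (Q : Subgroup (SLV F V)) (W : Submodule F V), Q ≤ P ∧
    (∃ g ∈ Q, ∃ v : V, ∀ c : F, (g : V ≃ₗ[F] V) v ≠ c • v) ∧ W ≠ ⊥ ∧ W ≠ ⊤ ∧
    ∀ g ∈ Q, ∀ w ∈ W, (g : V ≃ₗ[F] V) w ∈ W

/-- [SLSd] (hAd : MT.AdMain, hRel : MW.WRel) the seed holds for `Rel k`: remove the tame part of
`Bor2 F` (pullback, as in `prf_ANax`, field `pow`) -/
def SLSd : Prop := ∀ (k : Type) [Field k] [IsAlgClosed k] (p : ℕ) [Fact p.Prime] [CharP k p],
  SLSeed p (fun (G : Type) [Group G] (P : Subgroup G) => Rel k G P)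

/-- [SLFin] (hAsm, hX, hY, hSd, hRel, hNor) THE PURELY WILD CONJECTURE for `SL_n(F)` and `PSL_n(F)`,
`p` divides `|F|` or `|F|^i - 1` for some `0 < i < n` (i.e. the order of a proper parabolic subgroup;
`p = 2` is always known) -/
def SLFin : Prop := ∀ (k : Type) [Field k] [IsAlgClosed k] (p : ℕ) [Fact p.Prime] [CharP k p]
  (F : Type) [Field F] [Finite F] (n i : ℕ), 0 < i → i < n → (p ∣ Nat.card F ∨
    p ∣ Nat.card F ^ i - 1) →
  (∀ P : Subgroup (Matrix.SpecialLinearGroup (Fin n) F), IsPGroup p P →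
    Subgroup.normalClosure (P : Set (Matrix.SpecialLinearGroup (Fin n) F)) = ⊤ →
    Occurs k (Matrix.SpecialLinearGroup (Fin n) F) P) ∧
  ∀ P : Subgroup (Matrix.ProjectiveSpecialLinearGroup (Fin n) F), IsPGroup p P →
    Subgroup.normalClosure (P : Set (Matrix.ProjectiveSpecialLinearGroup (Fin n) F)) = ⊤ →
    Occurs k (Matrix.ProjectiveSpecialLinearGroup (Fin n) F) P

/-! ## `PSL_2(F)` as a composition factor, `F` of characteristic `p` -/

/-- [PSIn] (hBase) elements of order `p` of `PSL_2(F)` -/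
def PSIn : Prop := ∀ (p : ℕ) [Fact p.Prime] (R : ∀ (G : Type) [Group G], Subgroup G → Prop),
  p ≠ 2 → MW.WAx p R → QuoR R → SLSeed p R → ∀ (F : Type) [Field F] [Finite F] [CharP F p]
  (x : Matrix.ProjectiveSpecialLinearGroup (Fin 2) F), orderOf x = p →
  R (Matrix.ProjectiveSpecialLinearGroup (Fin 2) F) (Subgroup.zpowers x)

/-- structure of `L = PSL_2(F)` with respect to two Sylow `p`-subgroups `U₁ ≠ U₂`, inside a group `X`
that acts on `L` -/
structure P2 (p : ℕ) (F : Type) [Field F] {X : Type} [Group X] (L U₁ U₂ : Subgroup X)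
    (ε : Multiplicative F →* X) (t : Fˣ → X) : Prop where
  inj : Function.Injective ε
  U : ε.range = U₁
  le : U₁ ≤ L
  le2 : U₂ ≤ L
  gen : U₁ ⊔ U₂ = L
  tL : ∀ b, t b ∈ L
  tU : ∀ b (y : F), t b * ε (Multiplicative.ofAdd y) * (t b)⁻¹ =
    ε (Multiplicative.ofAdd ((b : F) ^ 2 * y))
  tU2 : ∀ b, ∀ u ∈ U₂, t b * u * (t b)⁻¹ ∈ U₂
  tord : ∀ b, ¬ p ∣ orderOf (t b)
  tcomm : ∀ b b', t b * t b' = t b' * t b
  /-- an element that normalises `U₁` and `U₂` is in `t` -/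
  tor : ∀ g ∈ L, (∀ u ∈ U₁, g * u * g⁻¹ ∈ U₁) → (∀ u ∈ U₂, g * u * g⁻¹ ∈ U₂) → ∃ b, g = t b
  /-- `U₁` is regular on the other Sylow subgroups -/
  reg : ∀ g ∈ L, (∀ u ∈ U₂, g * u * g⁻¹ ∈ U₁) ∨ ∃ v ∈ U₁, ∀ u ∈ U₂,
    v⁻¹ * g * u * (v⁻¹ * g)⁻¹ ∈ U₂
  free : ∀ v ∈ U₁, (∀ u ∈ U₂, v * u * v⁻¹ ∈ U₂) → v = 1

/-- [PStr] the structure exists, for any two Sylow `p`-subgroups -/
def PStr : Prop := ∀ (p : ℕ) [Fact p.Prime] (F : Type) [Field F] [Finite F] [CharP F p] (X : Type)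
  [Group X] [Finite X] (L : Subgroup X),
  Nonempty (L ≃* Matrix.ProjectiveSpecialLinearGroup (Fin 2) F) → ∀ U₁ U₂ : Subgroup X, U₁ ≤ L →
  U₂ ≤ L → Nat.card U₁ = Nat.card F → Nat.card U₂ = Nat.card F → U₁ ≠ U₂ →
  ∃ (ε : Multiplicative F →* X) (t : Fˣ → X), P2 p F L U₁ U₂ ε t

/-- [PSTwo] (hStr) an outer automorphism `u` of order `p` normalises two different Sylow
`p`-subgroups.  It normalises one, `U₁` (their number is `|F| + 1`).  Let `U₂` be another one; there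
is `w ∈ U₁` such that `u' = w u` normalises `U₁` and `U₂`; `u'^p ∈ U₁` normalises `U₂`, so `u'^p = 1`.
`u'` acts on `U₁ ≃ F` by `α` with `α(b x) = σ(b) α(x)` (`σ` an automorphism of `F`, because the
squares generate `F` as a ring).  If `σ = 1` then `α(x) = a x`, `a^p = 1`, `a = 1`, `u'` centralises
`U₁` and the torus and normalises all Sylow subgroups, hence centralises `L`, contradiction.  So
`σ ≠ 1`, `σ^p = 1`; take `θ` with `Σ σ^i θ = 1`; `u = w⁻¹ u'`, `ω = w⁻¹ ∈ U₁ = F` satisfies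
`Σ α^i ω = 0`, and `ρ = Σ_i σ^i(θ) (Σ_{j<i} α^j ω)` satisfies `ρ - α ρ = ω`: `u` is conjugate to `u'`
by an element of `U₁`. -/
def PSTwo : Prop := ∀ (p : ℕ) [Fact p.Prime] (F : Type) [Field F] [Finite F] [CharP F p] (X : Type)
  [Group X] [Finite X] (L : Subgroup X) (u : X), p ≠ 2 → L.Normal →
  Nonempty (L ≃* Matrix.ProjectiveSpecialLinearGroup (Fin 2) F) →
  (∀ x : X, (∀ l ∈ L, x * l = l * x) → x = 1) → orderOf u = p → L ⊔ Subgroup.zpowers u = ⊤ →
  u ∉ L → ∃ U₁ U₂ : Subgroup X, U₁ ≠ U₂ ∧ U₁ ≤ L ∧ U₂ ≤ L ∧ Nat.card U₁ = Nat.card F ∧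
    Nat.card U₂ = Nat.card F ∧ (∀ x ∈ U₁, u * x * u⁻¹ ∈ U₁) ∧ ∀ x ∈ U₂, u * x * u⁻¹ ∈ U₂

/-- [PSGen] (hStr) then `L ≤ Gam p ⟨u⟩ = Γ`.  `T` = the group of the `t b` (= the elements of `L` that
normalise `U₁` and `U₂`; abelian, of order prime to `p`, normalised by `u`).  If `u` centralises `T`
then `u` acts on `U₁ ≃ F` by an `F`-linear map (squares generate `F`), `x ↦ a x` with `a^p = 1`, so
trivially, the same for `U₂`, and `u` centralises `L`, contradiction.  So `S = [T, u] ≠ 1`,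
`[S, u] = S` (`all_GCop`); `S` acts on `U_i ≃ F` by multiplication with elements, not all `1`, so
`[U_i, S] = U_i`, and the solvable group `Y = U_i S ⟨u⟩` satisfies `nclIn Y ⟨u⟩ = Y`: `Y ≤ Γ`. -/
def PSGen : Prop := ∀ (p : ℕ) [Fact p.Prime] (F : Type) [Field F] [Finite F] [CharP F p] (X : Type)
  [Group X] [Finite X] (L : Subgroup X) (u : X), p ≠ 2 → L.Normal →
  Nonempty (L ≃* Matrix.ProjectiveSpecialLinearGroup (Fin 2) F) → IsSimpleGroup L →
  (∀ x : X, (∀ l ∈ L, x * l = l * x) → x = 1) → orderOf u = p → L ⊔ Subgroup.zpowers u = ⊤ →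
  (∃ U₁ U₂ : Subgroup X, U₁ ≠ U₂ ∧ U₁ ≤ L ∧ U₂ ≤ L ∧ Nat.card U₁ = Nat.card F ∧
    Nat.card U₂ = Nat.card F ∧ (∀ x ∈ U₁, u * x * u⁻¹ ∈ U₁) ∧ ∀ x ∈ U₂, u * x * u⁻¹ ∈ U₂) →
  L ≤ Gam p (Subgroup.zpowers u)

/-- [PSStar] (hIn, hTwo, hGen, hNor) -/
def PSStar : Prop := ∀ (p : ℕ) [Fact p.Prime] (R : ∀ (G : Type) [Group G], Subgroup G → Prop),
  p ≠ 2 → MW.WAx p R → QuoR R → SLSeed p R → ∀ (F : Type) [Field F] [Finite F] [CharP F p],
  IsSimpleGroup (Matrix.ProjectiveSpecialLinearGroup (Fin 2) F) →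
  MW.StarR p R (Matrix.ProjectiveSpecialLinearGroup (Fin 2) F)

end MP7b0bad.SL
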