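import Pool.Agent.Work.MP_7b0bad_ag.SL.Stmts

set_option autoImplicit false

/-!
# Item PSIn: elements of order `p` of `PSL_2(F)`
-/

namespace MP7b0bad.SL

open Module

/-- `toLin'` has values in `SLV` -/
lemma PSIn_mem (F : Type) [Field F] (A : Matrix.SpecialLinearGroup (Fin 2) F) :
    Matrix.SpecialLinearGroup.toLin' A ∈ SLV F (Fin 2 → F) := by
  rw [MonoidHom.mem_ker]
  apply Units.ext
  rw [LinearEquiv.coe_det, Matrix.SpecialLinearGroup.toLin'_to_linearMap, LinearMap.det_toLin',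
    A.prop, Units.val_one]

lemma PSIn_bij (F : Type) [Field F] : Function.Bijective
    ((Matrix.SpecialLinearGroup.toLin' (n := Fin 2) (R := F)).codRestrict (SLV F (Fin 2 → F))
      (PSIn_mem F)) := by
  constructor
  · intro A B h
    exact Matrix.SpecialLinearGroup.toLin'_injective (congrArg Subtype.val h)
  · rintro ⟨g, hg⟩
    have hd : (LinearMap.toMatrix' (g : (Fin 2 → F) →ₗ[F] (Fin 2 → F))).det = 1 := by
      rw [LinearMap.det_toMatrix', ← LinearEquiv.coe_det]
      rw [MonoidHom.mem_ker] at hg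
      rw [hg, Units.val_one]
    refine ⟨⟨LinearMap.toMatrix' (g : (Fin 2 → F) →ₗ[F] (Fin 2 → F)), hd⟩, ?_⟩
    apply Subtype.ext
    apply LinearEquiv.toLinearMap_injective
    show ((Matrix.SpecialLinearGroup.toLin' _ : (Fin 2 → F) ≃ₗ[F] (Fin 2 → F)) :
      (Fin 2 → F) →ₗ[F] (Fin 2 → F)) = _
    rw [Matrix.SpecialLinearGroup.toLin'_to_linearMap]
    exact Matrix.toLin'_toMatrix' _

/-- the isomorphism -/
noncomputable def PSIn_e (F : Type) [Field F] :
    Matrix.SpecialLinearGroup (Fin 2) F ≃* SLV F (Fin 2 → F) :=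
  MulEquiv.ofBijective _ (PSIn_bij F)

lemma PSIn_sq (F : Type) [Field F] (A : Matrix.SpecialLinearGroup (Fin 2) F)
    (hA : A ∈ Subgroup.center (Matrix.SpecialLinearGroup (Fin 2) F)) : A ^ 2 = 1 := by
  obtain ⟨r, hr, hs⟩ := Matrix.SpecialLinearGroup.mem_center_iff.1 hA
  apply Subtype.ext
  show ((A ^ 2 : Matrix.SpecialLinearGroup (Fin 2) F) : Matrix (Fin 2) (Fin 2) F) = 1
  rw [Matrix.SpecialLinearGroup.coe_pow, ← hs, ← map_pow]
  have : r ^ 2 = 1 := by simpa using hr
  rw [this, map_one]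

theorem prf_PSIn (hBase : SLBase) : PSIn := by
  intro p _ R hp2 hW hQ hS F _ _ _ x hx
  have hpp : p.Prime := Fact.out
  obtain ⟨y, rfl⟩ := QuotientGroup.mk'_surjective
    (Subgroup.center (Matrix.SpecialLinearGroup (Fin 2) F)) x
  set π := QuotientGroup.mk' (Subgroup.center (Matrix.SpecialLinearGroup (Fin 2) F)) with hπ
  have h1 : y ^ p ∈ Subgroup.center (Matrix.SpecialLinearGroup (Fin 2) F) := by
    rw [← QuotientGroup.eq_one_iff]
    have : π (y ^ p) = 1 := by
      rw [map_pow, ← hx, pow_orderOf_eq_one]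
    exact this
  have h2 : (y ^ 2) ^ p = 1 := by
    rw [← pow_mul, mul_comm, pow_mul]
    exact PSIn_sq F _ h1
  have h3 : (π y) ^ 2 ≠ 1 := by
    intro h
    have := orderOf_dvd_of_pow_eq_one h
    rw [hx] at this
    exact hp2 ((Nat.prime_dvd_prime_iff_eq hpp Nat.prime_two).1 this)
  have h4 : y ^ 2 ≠ 1 := by
    intro h
    apply h3
    rw [← map_pow, h, map_one]
  have h5 : orderOf (y ^ 2) = p := orderOf_eq_prime h2 h4
  have h6 : orderOf (PSIn_e F (y ^ 2)) = p := by
    rw [← h5]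
    exact MulEquiv.orderOf_eq (PSIn_e F) (y ^ 2)
  have h7 := (hBase p R hW hS F (Fin 2 → F) (by simp) (PSIn_e F (y ^ 2)) h6).1
  have h8 := hW.rel.iso _ _ (PSIn_e F).symm _ h7
  have h9 : (Subgroup.zpowers (PSIn_e F (y ^ 2))).map (PSIn_e F).symm.toMonoidHom =
      Subgroup.zpowers (y ^ 2) := by
    rw [MonoidHom.map_zpowers]
    congr 1
    exact (PSIn_e F).symm_apply_apply _
  rw [h9] at h8
  haveI : Finite (Matrix.SpecialLinearGroup (Fin 2) F) :=
    inferInstanceAs (Finite {A : Matrix (Fin 2) (Fin 2) F // A.det = 1})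
  have h10 := hQ _ _ (Subgroup.center (Matrix.SpecialLinearGroup (Fin 2) F)) h8
  rw [MonoidHom.map_zpowers] at h10
  have h11 : Subgroup.zpowers (π (y ^ 2)) = Subgroup.zpowers (π y) := by
    apply le_antisymm
    · rw [Subgroup.zpowers_le, map_pow]
      exact Subgroup.pow_mem _ (Subgroup.mem_zpowers _) 2
    · rw [Subgroup.zpowers_le]
      obtain ⟨k, hk⟩ := hpp.odd_of_ne_two hp2
      have : π y = (π (y ^ 2)) ^ (k + 1) := by
        rw [map_pow, ← pow_mul]
        have e : 2 * (k + 1) = p + 1 := by omega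
        rw [e, pow_succ, ← hx, pow_orderOf_eq_one, one_mul]
      rw [this]
      have h12 : (π (y ^ 2)) ^ (k + 1) ∈ Subgroup.zpowers (π (y ^ 2)) :=
        Subgroup.pow_mem _ (Subgroup.mem_zpowers _) _
      exact h12
  rw [← h11]
  exact h10

end MP7b0bad.SL
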