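import Pool.Agent.Work.MP_7b0bad_ag.SL.Stmts
import Pool.Agent.Work.MP_7b0bad_ag.LF.Fin

/-!
# Block SL, item SLFin: the purely wild conjecture for special linear groups
-/

set_option autoImplicit false

open Module

namespace MP7b0bad.SL

/-- a `p`-subgroup of a quotient is the image of a `p`-subgroup -/
theorem SLFin_lift {G : Type} [Group G] [Finite G] (p : ℕ) [Fact p.Prime] (N : Subgroup G)
    [N.Normal] (P : Subgroup (G ⧸ N)) (hP : IsPGroup p P) :
    ∃ S : Subgroup G, IsPGroup p S ∧ S.map (QuotientGroup.mk' N) = P := by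
  set f : P.comap (QuotientGroup.mk' N) →* P := (QuotientGroup.mk' N).subgroupComap P with hf
  have hfs : Function.Surjective f := MonoidHom.subgroupComap_surjective_of_surjective _ _
    (QuotientGroup.mk'_surjective N)
  obtain ⟨Q⟩ : Nonempty (Sylow p (P.comap (QuotientGroup.mk' N))) := inferInstance
  have h1 : (Q : Subgroup (P.comap (QuotientGroup.mk' N))).map f = ⊤ := by
    have h2 := (Q.mapSurjective hfs).is_maximal' (Q := ⊤) (hP.to_subgroup ⊤) le_top
    rw [h2]
    rfl
  refine ⟨(Q : Subgroup (P.comap (QuotientGroup.mk' N))).map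
    (P.comap (QuotientGroup.mk' N)).subtype, Q.isPGroup'.map _, ?_⟩
  have h3 := congrArg (Subgroup.map P.subtype) h1
  rw [Subgroup.map_map, ← MonoidHom.range_eq_map, Subgroup.range_subtype] at h3
  rw [Subgroup.map_map]
  exact h3

/-- the isomorphism of `SL_n(F)` and `SL(F ^ n)` -/
noncomputable def SLFin_e (F : Type) [Field F] (n : ℕ) :
    Matrix.SpecialLinearGroup (Fin n) F ≃* SLV F (Fin n → F) :=
  MulEquiv.ofBijective (Matrix.SpecialLinearGroup.toLin'.codRestrict (SLV F (Fin n → F)) fun A => by
    rw [MonoidHom.mem_ker]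
    apply Units.ext
    rw [LinearEquiv.coe_det, Matrix.SpecialLinearGroup.toLin'_to_linearMap, LinearMap.det_toLin',
      A.2, Units.val_one]) ⟨by
    intro A B h
    exact Matrix.SpecialLinearGroup.toLin'_injective (congrArg Subtype.val h), by
    rintro ⟨g, hg⟩
    refine ⟨⟨LinearMap.toMatrix' (g : (Fin n → F) →ₗ[F] (Fin n → F)), ?_⟩, ?_⟩
    · rw [LinearMap.det_toMatrix', ← LinearEquiv.coe_det, MonoidHom.mem_ker.1 hg, Units.val_one]
    · apply Subtype.ext
      apply LinearEquiv.toLinearMap_injective
      show ((Matrix.SpecialLinearGroup.toLin' _ : (Fin n → F) ≃ₗ[F] (Fin n → F)) :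
        (Fin n → F) →ₗ[F] (Fin n → F)) = _
      rw [Matrix.SpecialLinearGroup.toLin'_to_linearMap]
      exact Matrix.toLin'_toMatrix' _⟩

theorem SLFin_e_apply (F : Type) [Field F] (n : ℕ) (A : Matrix.SpecialLinearGroup (Fin n) F)
    (v : Fin n → F) : (SLFin_e F n A : (Fin n → F) ≃ₗ[F] (Fin n → F)) v =
      (A : Matrix (Fin n) (Fin n) F).mulVec v := by
  show Matrix.SpecialLinearGroup.toLin' A v = _
  rw [Matrix.SpecialLinearGroup.toLin'_apply, Matrix.toLin'_apply]

/-- a matrix that maps every vector to a multiple is in the center -/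
theorem SLFin_center (F : Type) [Field F] (n : ℕ) (A : Matrix.SpecialLinearGroup (Fin n) F)
    (h : ∀ v : Fin n → F, ∃ c : F,
      (SLFin_e F n A : (Fin n → F) ≃ₗ[F] (Fin n → F)) v = c • v) :
    A ∈ Subgroup.center (Matrix.SpecialLinearGroup (Fin n) F) := by
  obtain ⟨a, ha⟩ := LinearMap.exists_eq_smul_id_of_forall_notLinearIndependent
    (f := Matrix.toLin' (A : Matrix (Fin n) (Fin n) F)) (fun v hli => by
      obtain ⟨c, hc⟩ := h v
      rw [SLFin_e_apply] at hc
      have h1 := LinearIndependent.pair_iff.1 hli c (-1) (by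
        rw [Matrix.toLin'_apply, hc]
        simp)
      exact absurd h1.2 (by simp))
  rw [Matrix.SpecialLinearGroup.mem_center_iff]
  have h2 : (A : Matrix (Fin n) (Fin n) F) = Matrix.scalar (Fin n) a := by
    have h3 := congrArg LinearMap.toMatrix' ha
    rw [LinearMap.toMatrix'_toLin'] at h3
    rw [h3, map_smul, LinearMap.toMatrix'_one]
    simp [Matrix.smul_one_eq_diagonal]
  refine ⟨a, ?_, h2.symm⟩
  have h4 := A.2
  rw [h2] at h4
  simpa using h4

theorem prf_SLFin (hAsm : SLAsm) (hX : SLX) (hY : SLY) (hSd : SLSd) (hQuo : SLQuo)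
    (hRel : MW.WRel) (hNor : MW.WNor) : SLFin := by
  intro k _ _ p _ _ F _ _ n i hi0 hin hdvd
  -- p = 2
  by_cases hp2 : p = 2
  · subst hp2
    exact ⟨fun P hP hn => all_HCritK k 2 _ P hP (LF.all_fin2 _ P hP hn),
      fun P hP hn => all_HCritK k 2 _ P hP (LF.all_fin2 _ P hP hn)⟩
  have hn2 : 2 ≤ n := by omega
  have hW := hRel k p
  have hfr : finrank F (Fin n → F) = n := Module.finrank_fin_fun F
  -- `SL_n(F)` is not commutative
  have hcen : Subgroup.center (Matrix.SpecialLinearGroup (Fin n) F) ≠ ⊤ := by
    intro h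
    have hij : (⟨0, by omega⟩ : Fin n) ≠ ⟨1, by omega⟩ := by
      intro h
      simp at h
    have h1 := (Matrix.SpecialLinearGroup.transvection_mem_center_iff (F := F) hij 1).1
      (by rw [h]; trivial)
    exact one_ne_zero h1
  -- the core
  have core : ∀ S : Subgroup (Matrix.SpecialLinearGroup (Fin n) F), IsPGroup p S →
      ¬ S ≤ Subgroup.center _ → Rel k (Matrix.SpecialLinearGroup (Fin n) F) S := by
    intro S hS hSc
    set e := SLFin_e F n with he
    set S' : Subgroup (SLV F (Fin n → F)) := S.map e.toMonoidHom with hS'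
    have hS'p : IsPGroup p S' := hS.map _
    obtain ⟨g, hgS, hgc⟩ := SetLike.not_le_iff_exists.1 hSc
    have hfin : Finite (SLV F (Fin n → F)) := Finite.of_equiv _ e.toEquiv
    obtain ⟨-, hGam, hGR, -, -, -⟩ := hNor p (fun (G : Type) [Group G] (P : Subgroup G) => Rel k G P)
      hW.rel (SLV F (Fin n → F)) S' hS'p
    have key : Rel k (SLV F (Fin n → F)) S' := by
      apply hGR
      by_cases hpF : (p : F) = 0
      · have : CharP F p := (CharP.charP_iff_prime_eq_zero (Fact.out : p.Prime)).2 hpF
        have hne : Nontrivial S := by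
          refine ⟨⟨⟨g, hgS⟩, 1, fun h => hgc ?_⟩⟩
          have h1 := congrArg Subtype.val h
          simp only [OneMemClass.coe_one] at h1
          rw [h1]
          exact Subgroup.one_mem _
        obtain ⟨m, hm⟩ := IsPGroup.iff_card.1 hS
        have hm0 : m ≠ 0 := by
          rintro rfl
          rw [pow_zero] at hm
          have := Finite.one_lt_card (α := S)
          omega
        obtain ⟨x, hx⟩ := exists_prime_orderOf_dvd_card' (G := S) p (by
          rw [hm]
          exact dvd_pow_self p hm0)
        have hx' : orderOf (e (x : Matrix.SpecialLinearGroup (Fin n) F)) = p := by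
          rw [MulEquiv.orderOf_eq, Subgroup.orderOf_coe, hx]
        have hG := (hAsm p (fun (G : Type) [Group G] (P : Subgroup G) => Rel k G P) hW (hSd k p)
          F (Fin n → F) (by rw [hfr]; exact hn2) (e x) hx').1
        have hxS : e (x : Matrix.SpecialLinearGroup (Fin n) F) ∈ S' :=
          Subgroup.mem_map_of_mem _ x.2
        have hz : Subgroup.zpowers (e (x : Matrix.SpecialLinearGroup (Fin n) F)) ≤ S' :=
          Subgroup.zpowers_le.2 hxS
        rw [eq_top_iff]
        refine le_sSup ⟨Subgroup.zpowers (e x), hz, le_top, ?_⟩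
        have h5 := hW.rel.iso (SLV F (Fin n → F)) (⊤ : Subgroup (SLV F (Fin n → F)))
          Subgroup.topEquiv.symm _ hG
        have h6 : (Subgroup.zpowers (e (x : Matrix.SpecialLinearGroup (Fin n) F))).map
            (Subgroup.topEquiv.symm : SLV F (Fin n → F) ≃* (⊤ : Subgroup (SLV F (Fin n → F)))).toMonoidHom
            = (Subgroup.zpowers (e (x : Matrix.SpecialLinearGroup (Fin n) F))).subgroupOf ⊤ := by
          ext y
          rw [Subgroup.mem_map, Subgroup.mem_subgroupOf]
          constructor
          · rintro ⟨z, hz, rfl⟩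
            exact hz
          · intro hy
            exact ⟨y, hy, rfl⟩
        rw [h6] at h5
        exact h5
      · have hd : p ∣ Nat.card F ^ i - 1 := by
          rcases hdvd with h | h
          · exfalso
            obtain ⟨q, hq⟩ := CharP.exists F
            have hqp : q.Prime := (CharP.char_is_prime_or_zero F q).resolve_right
              (CharP.char_ne_zero_of_finite F q)
            let _ := Fintype.ofFinite F
            obtain ⟨r, -, hr⟩ := FiniteField.card F q
            rw [Nat.card_eq_fintype_card, hr] at h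
            have h2 := (Nat.prime_dvd_prime_iff_eq (Fact.out : p.Prime) hqp).1
              ((Fact.out : p.Prime).dvd_of_dvd_pow h)
            subst h2
            exact hpF (CharP.cast_eq_zero F p)
          · exact h
        have hns : ∃ g ∈ S', ∃ v : Fin n → F, ∀ c : F,
            (g : (Fin n → F) ≃ₗ[F] (Fin n → F)) v ≠ c • v := by
          refine ⟨e g, Subgroup.mem_map_of_mem _ hgS, ?_⟩
          by_contra hcon
          push Not at hcon
          exact hgc (SLFin_center F n g hcon)
        obtain ⟨Q, W, hQ, hQn, hW0, hW1, hQW⟩ := hY p F (Fin n → F) S' i hp2 hpF hi0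
          (by rw [hfr]; exact hin) hd hS'p hns
        have hQp : IsPGroup p Q := hS'p.to_le hQ
        have h1 := hX p F (Fin n → F) Q W hpF hQp hQn hW0 hW1 hQW
        have h2 : Gam p Q ≤ Gam p S' := by
          refine sSup_le ?_
          rintro Y ⟨P', h1, h2, h3, h4⟩
          exact le_sSup ⟨P', h1.trans hQ, h2, h3, h4⟩
        rw [eq_top_iff, ← h1]
        exact h2.trans hGam
    have h7 := hW.rel.iso _ _ e.symm S' key
    have h8 : S'.map e.symm.toMonoidHom = S := by
      ext y
      rw [Subgroup.mem_map]
      constructor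
      · rintro ⟨z, hz, rfl⟩
        obtain ⟨w, hw, rfl⟩ := Subgroup.mem_map.1 hz
        show e.symm (e w) ∈ S
        rw [e.symm_apply_apply]
        exact hw
      · intro hy
        exact ⟨e y, Subgroup.mem_map_of_mem _ hy, e.symm_apply_apply y⟩
    rw [h8] at h7
    exact h7
  refine ⟨fun P hP hn => all_QOcc k p _ P hP (core P hP fun h => hcen ?_), fun P hP hn => ?_⟩
  · rw [eq_top_iff, ← hn]
    exact Subgroup.normalClosure_le_normal h
  · obtain ⟨S, hS, hSP⟩ := SLFin_lift p _ P hP
    have hSc : ¬ S ≤ Subgroup.center _ := by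
      intro h
      have h1 : P = ⊥ := by
        rw [← hSP, eq_bot_iff, Subgroup.map_le_iff_le_comap]
        intro x hx
        rw [Subgroup.mem_comap, Subgroup.mem_bot]
        exact (QuotientGroup.eq_one_iff x).2 (h hx)
      have h2 : (⊤ : Subgroup (Matrix.ProjectiveSpecialLinearGroup (Fin n) F)) = ⊥ := by
        rw [← hn, h1, eq_bot_iff]
        refine Subgroup.normalClosure_le_normal ?_
        intro x hx
        exact hx
      apply hcen
      rw [eq_top_iff]
      intro x _
      have h3 : (QuotientGroup.mk' (Subgroup.center (Matrix.SpecialLinearGroup (Fin n) F)) x) ∈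
          (⊤ : Subgroup (Matrix.ProjectiveSpecialLinearGroup (Fin n) F)) := trivial
      rw [h2, Subgroup.mem_bot] at h3
      exact (QuotientGroup.eq_one_iff x).1 h3
    have h4 := hQuo k p (Matrix.SpecialLinearGroup (Fin n) F) S (Subgroup.center _)
      (core S hS hSc)
    rw [hSP] at h4
    exact all_QOcc k p _ P hP h4

end MP7b0bad.SL
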