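import Pool.Agent.Work.MP_7b0bad_ag.SL.Stmts

set_option autoImplicit false

/-!
# Block SL: `PSL_2(F)` as a composition factor, `F` of characteristic `p`: the property `StarR`
-/

namespace MP7b0bad.SL

private theorem PSStar_sub {X : Type} [Group X] (L : Subgroup X) (u : X) (hu : u ∈ L) :
    Subgroup.zpowers (⟨u, hu⟩ : L) = (Subgroup.zpowers u).subgroupOf L := by
  ext ⟨y, hy⟩
  simp only [Subgroup.mem_subgroupOf, Subgroup.mem_zpowers_iff, Subtype.ext_iff,
    SubgroupClass.coe_zpow]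

theorem prf_PSStar (hIn : PSIn) (hTwo : PSTwo) (hGen : PSGen) (hNor : MW.WNor) : PSStar := by
  intro p _ R hp2 hW hQ hS F _ _ _ hsim X _ _ L u hN hφ hcen hu hgen
  have hpp : p.Prime := Fact.out
  by_cases huL : u ∈ L
  · obtain ⟨φ⟩ := hφ
    have hx : orderOf (φ ⟨u, huL⟩) = p := by
      rw [MulEquiv.orderOf_eq, Subgroup.orderOf_mk, hu]
    have h1 := hIn p R hp2 hW hQ hS F (φ ⟨u, huL⟩) hx
    have h2 := hW.rel.iso _ _ φ.symm _ h1
    rw [MonoidHom.map_zpowers] at h2
    have h3 : φ.symm.toMonoidHom (φ ⟨u, huL⟩) = ⟨u, huL⟩ := φ.symm_apply_apply _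
    rw [h3, PSStar_sub] at h2
    exact le_sSup ⟨Subgroup.zpowers u, le_rfl, (Subgroup.zpowers_le).mpr huL, h2⟩
  · have hex := hTwo p F X L u hp2 hN hφ hcen hu hgen huL
    have hLs : IsSimpleGroup L := by
      obtain ⟨φ⟩ := hφ
      exact φ.isSimpleGroup
    have h1 := hGen p F X L u hp2 hN hφ hLs hcen hu hgen hex
    have hP : IsPGroup p (Subgroup.zpowers u) := by
      refine IsPGroup.of_card (n := 1) ?_
      rw [Nat.card_zpowers, hu, pow_one]
    exact h1.trans (hNor p R hW.rel X (Subgroup.zpowers u) hP).2.1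

end MP7b0bad.SL
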