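import Pool.Agent.Work.MP_7b0bad_ag.SL.PStr

set_option autoImplicit false

/-!
# Block SL, item PSTwo: an outer automorphism of order `p` of `PSL_2(F)` normalises two Sylow
`p`-subgroups
-/

namespace MP7b0bad.SL

open MP7b0bad
open scoped Pointwise

section act

variable {p : ℕ} {X : Type} [Group X] {L : Subgroup X} [L.Normal]

/-- the action on the Sylow subgroups of the normal subgroup -/
def PSTwo_act (x : X) (S : Sylow p L) : Sylow p L := (MulAut.conjNormal x : MulAut L) • S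

theorem PSTwo_act_mul (x y : X) (S : Sylow p L) :
    PSTwo_act (x * y) S = PSTwo_act x (PSTwo_act y S) := by
  unfold PSTwo_act
  rw [map_mul, mul_smul]

theorem PSTwo_act_one (S : Sylow p L) : PSTwo_act 1 S = S := by
  unfold PSTwo_act
  rw [map_one, one_smul]

theorem PSTwo_act_inv (x : X) (S T : Sylow p L) (h : PSTwo_act x S = T) :
    PSTwo_act x⁻¹ T = S := by
  rw [← h, ← PSTwo_act_mul, inv_mul_cancel, PSTwo_act_one]

/-- the subgroup of `X` -/
def PSTwo_U (S : Sylow p L) : Subgroup X := (S : Subgroup L).map L.subtype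

omit [L.Normal] in
theorem PSTwo_U_le (S : Sylow p L) : PSTwo_U S ≤ L := by
  rintro x ⟨y, -, rfl⟩
  exact y.2

omit [L.Normal] in
theorem PSTwo_mem (S : Sylow p L) (l : L) : (l : X) ∈ PSTwo_U S ↔ l ∈ (S : Subgroup L) := by
  constructor
  · rintro ⟨y, hy, h⟩
    have : y = l := Subtype.ext h
    rwa [← this]
  · intro h
    exact ⟨l, h, rfl⟩

theorem PSTwo_act_iff (x : X) (S T : Sylow p L) :
    PSTwo_act x S = T ↔ ∀ y ∈ PSTwo_U S, x * y * x⁻¹ ∈ PSTwo_U T := by
  constructor
  · rintro rfl y ⟨s, hs, rfl⟩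
    have e : x * L.subtype s * x⁻¹ = ((MulAut.conjNormal x s : L) : X) := by
      rw [MulAut.conjNormal_apply]
      rfl
    rw [e, PSTwo_mem]
    exact Subgroup.smul_mem_pointwise_smul s (MulAut.conjNormal x : MulAut L) (S : Subgroup L) hs
  · intro h
    have hle : ((PSTwo_act x S : Sylow p L) : Subgroup L) ≤ (T : Subgroup L) := by
      intro z hz
      unfold PSTwo_act at hz
      rw [Sylow.pointwise_smul_def] at hz
      rw [Subgroup.mem_smul_pointwise_iff_exists] at hz
      obtain ⟨s, hs, rfl⟩ := hz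
      rw [← PSTwo_mem]
      have e : x * (s : X) * x⁻¹ = ((MulAut.conjNormal x s : L) : X) := by
        rw [MulAut.conjNormal_apply]
      have := h (s : X) ((PSTwo_mem S s).2 hs)
      rw [e] at this
      exact this
    apply Sylow.ext
    exact ((PSTwo_act x S).3 T.2 hle).symm

omit [L.Normal] in
theorem PSTwo_U_inj (S T : Sylow p L) (h : PSTwo_U S = PSTwo_U T) : S = T := by
  apply Sylow.ext
  ext l
  rw [← PSTwo_mem S, ← PSTwo_mem T, h]

end act


/-! ### semilinear maps -/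

section field

variable {F : Type} [Field F]

/-- an additive map which multiplies squares well is semilinear -/
theorem PSTwo_sigma (h2 : (2 : F) ≠ 0) (α : F →+ F) (h1 : α 1 ≠ 0)
    (h : ∀ b : F, b ≠ 0 → ∃ β : F, ∀ y, α (b ^ 2 * y) = β ^ 2 * α y) :
    ∃ σ : F →+* F, ∀ c x, α (c * x) = σ c * α x := by
  have hsq : ∀ b y : F, α (b ^ 2 * y) = α (b ^ 2) / α 1 * α y := by
    intro b y
    by_cases hb : b = 0
    · subst hb
      simp
    · obtain ⟨β, hβ⟩ := h b hb
      have e := hβ 1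
      rw [mul_one] at e
      rw [hβ y, e]
      field_simp
  have hall : ∀ c y : F, α (c * y) = α c / α 1 * α y := by
    intro c y
    have e : c = ((c + 1) / 2) ^ 2 - ((c - 1) / 2) ^ 2 := by
      field_simp
      ring
    have e1 : c * y = ((c + 1) / 2) ^ 2 * y - ((c - 1) / 2) ^ 2 * y := by
      rw [← sub_mul, ← e]
    rw [e1, map_sub, hsq, hsq]
    conv_rhs => rw [e, map_sub]
    ring
  refine ⟨{ toFun := fun c => α c / α 1, map_one' := div_self h1, map_zero' := by simp,
            map_add' := fun x y => by rw [map_add, add_div],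
            map_mul' := fun x y => by
              rw [hall x y]
              field_simp }, hall⟩

/-- an element of trace one -/
theorem PSTwo_theta {p : ℕ} [Fact p.Prime] (σ : F →+* F) (hp : σ ^ p = 1) (hne : σ ≠ 1) :
    ∃ θ : F, ∑ i ∈ Finset.range p, (σ ^ i) θ = 1 := by
  have ho : orderOf σ = p := orderOf_eq_prime hp hne
  have hinj : Function.Injective (fun i : Fin p => ((σ ^ (i : ℕ) : F →+* F) : F →* F)) := by
    intro i j hij
    have h1 : σ ^ (i : ℕ) = σ ^ (j : ℕ) := by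
      ext x
      exact congrArg (fun f : F →* F => f x) hij
    have hi : (i : ℕ) ∈ Set.Iio (orderOf σ) := by rw [Set.mem_Iio, ho]; exact i.2
    have hj : (j : ℕ) ∈ Set.Iio (orderOf σ) := by rw [Set.mem_Iio, ho]; exact j.2
    exact Fin.ext (pow_injOn_Iio_orderOf hi hj h1)
  have hli := (linearIndependent_monoidHom F F).comp _ hinj
  rw [Fintype.linearIndependent_iff] at hli
  have hx : ∃ x : F, ∑ i ∈ Finset.range p, (σ ^ i) x ≠ 0 := by
    by_contra hcon
    push Not at hcon
    have h0 : ∑ i : Fin p, (1 : F) • (fun i : Fin p => (((σ ^ (i : ℕ) : F →+* F) : F →* F) : F → F)) i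
        = 0 := by
      funext x
      have := hcon x
      rw [Finset.sum_range] at this
      simpa using this
    have h1 := hli (fun _ => 1) h0 ⟨0, (Fact.out : p.Prime).pos⟩
    exact one_ne_zero h1
  obtain ⟨x, hx⟩ := hx
  set τ := ∑ i ∈ Finset.range p, (σ ^ i) x with hτ
  have hσ : σ τ = τ := by
    have e1 : σ τ = ∑ i ∈ Finset.range p, (σ ^ (i + 1)) x := by
      rw [hτ, map_sum]
      refine Finset.sum_congr rfl fun i _ => ?_
      rw [pow_succ']
      rfl
    have e2 : ∑ i ∈ Finset.range (p + 1), (σ ^ i) x = τ + (σ ^ p) x := Finset.sum_range_succ _ _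
    have e3 : ∑ i ∈ Finset.range (p + 1), (σ ^ i) x =
        ∑ i ∈ Finset.range p, (σ ^ (i + 1)) x + (σ ^ 0) x := Finset.sum_range_succ' _ _
    rw [e1]
    rw [e2, hp, pow_zero] at e3
    exact (add_right_cancel e3).symm
  have hσi : ∀ i : ℕ, (σ ^ i) τ = τ := by
    intro i
    induction i with
    | zero => rfl
    | succ i ih =>
      rw [pow_succ]
      change (σ ^ i) (σ τ) = τ
      rw [hσ, ih]
  refine ⟨x / τ, ?_⟩
  have e : ∀ i ∈ Finset.range p, (σ ^ i) (x / τ) = (σ ^ i) x / τ := by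
    intro i _
    rw [map_div₀, hσi]
  rw [Finset.sum_congr rfl e, ← Finset.sum_div]
  exact div_self hx

/-- the cocycle is a coboundary -/
theorem PSTwo_rho {p : ℕ} (σ : F →+* F) (hp : σ ^ p = 1) (α : F →+ F)
    (hα : ∀ c x, α (c * x) = σ c * α x) (θ ω : F)
    (hθ : ∑ i ∈ Finset.range p, (σ ^ i) θ = 1) (hω : ∑ j ∈ Finset.range p, α^[j] ω = 0) :
    ∃ ρ : F, ρ - α ρ = ω := by
  set S : ℕ → F := fun i => ∑ j ∈ Finset.range i, α^[j] ω with hS
  have hαS : ∀ i, α (S i) = S (i + 1) - ω := by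
    intro i
    have e1 : S (i + 1) = ∑ j ∈ Finset.range i, α^[j + 1] ω + α^[0] ω :=
      Finset.sum_range_succ' _ _
    rw [e1, hS]
    simp only [map_sum, Function.iterate_zero, id_eq, add_sub_cancel_right]
    refine Finset.sum_congr rfl fun j _ => ?_
    rw [Function.iterate_succ_apply']
  refine ⟨∑ i ∈ Finset.range p, (σ ^ i) θ * S i, ?_⟩
  have e1 : α (∑ i ∈ Finset.range p, (σ ^ i) θ * S i) =
      ∑ i ∈ Finset.range p, (σ ^ (i + 1)) θ * S (i + 1) -
        (∑ i ∈ Finset.range p, (σ ^ (i + 1)) θ) * ω := by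
    rw [map_sum, Finset.sum_mul, ← Finset.sum_sub_distrib]
    refine Finset.sum_congr rfl fun i _ => ?_
    rw [hα, hαS, pow_succ']
    change σ ((σ ^ i) θ) * (S (i + 1) - ω) = σ ((σ ^ i) θ) * S (i + 1) - σ ((σ ^ i) θ) * ω
    ring
  have e2 : ∑ i ∈ Finset.range p, (σ ^ (i + 1)) θ = 1 := by
    have f2 : ∑ i ∈ Finset.range (p + 1), (σ ^ i) θ = 1 + (σ ^ p) θ := by
      rw [Finset.sum_range_succ, hθ]
    have f3 : ∑ i ∈ Finset.range (p + 1), (σ ^ i) θ =
        ∑ i ∈ Finset.range p, (σ ^ (i + 1)) θ + (σ ^ 0) θ := Finset.sum_range_succ' _ _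
    rw [f2, hp, pow_zero] at f3
    exact (add_right_cancel f3).symm
  have e3 : ∑ i ∈ Finset.range p, (σ ^ (i + 1)) θ * S (i + 1) =
      ∑ i ∈ Finset.range p, (σ ^ i) θ * S i := by
    have f2 : ∑ i ∈ Finset.range (p + 1), (σ ^ i) θ * S i =
        ∑ i ∈ Finset.range p, (σ ^ i) θ * S i + (σ ^ p) θ * S p := Finset.sum_range_succ _ _
    have f3 : ∑ i ∈ Finset.range (p + 1), (σ ^ i) θ * S i =
        ∑ i ∈ Finset.range p, (σ ^ (i + 1)) θ * S (i + 1) + (σ ^ 0) θ * S 0 :=
      Finset.sum_range_succ' _ _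
    have f4 : S p = 0 := hω
    have f5 : S 0 = 0 := Finset.sum_range_zero _
    rw [f2, f4, f5, mul_zero, mul_zero, add_zero, add_zero] at f3
    exact f3.symm
  rw [e1, e2, e3]
  ring

end field

/-! ### the number and the order of the Sylow subgroups -/

theorem PSTwo_cardU {p : ℕ} [Fact p.Prime] {F : Type} [Field F] [Finite F] [CharP F p] {X : Type}
    [Group X] [Finite X] {L : Subgroup X} (φ : L ≃* Matrix.ProjectiveSpecialLinearGroup (Fin 2) F)
    (S : Sylow p L) : Nat.card (PSTwo_U S) = Nat.card F := by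
  have : Finite (PStrPSL F) := Finite.of_surjective _ (HPSL1_pi_surj F)
  have e1 : Nat.card (PSTwo_U S) = Nat.card (S : Subgroup L) :=
    (Nat.card_congr ((S : Subgroup L).equivMapOfInjective L.subtype L.subtype_injective).toEquiv).symm
  have e2 : Nat.card (S : Subgroup L) = p ^ (Nat.card L).factorization p := S.card_eq_multiplicity
  have e3 : Nat.card ((HPSL1_pgroup p F).toSylow (HPSL1_not_dvd p F) : Subgroup (PStrPSL F)) =
      p ^ (Nat.card (PStrPSL F)).factorization p := Sylow.card_eq_multiplicity _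
  have e4 : Nat.card L = Nat.card (PStrPSL F) := Nat.card_congr φ.toEquiv
  rw [e1, e2, e4, ← e3]
  exact PStr_cardU F

theorem PSTwo_cardS {p : ℕ} [Fact p.Prime] {F : Type} [Field F] [Finite F] [CharP F p] {X : Type}
    [Group X] [Finite X] {L : Subgroup X}
    (φ : L ≃* Matrix.ProjectiveSpecialLinearGroup (Fin 2) F) :
    Nat.card (Sylow p L) = Nat.card F + 1 := by
  have : Finite (PStrPSL F) := Finite.of_surjective _ (HPSL1_pi_surj F)
  rw [← prf_HPSL1 p F]
  apply le_antisymm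
  · exact Nat.card_le_card_of_surjective _
      (Sylow.mapSurjective_surjective (f := φ.symm.toMonoidHom) φ.symm.surjective p)
  · exact Nat.card_le_card_of_surjective _
      (Sylow.mapSurjective_surjective (f := φ.toMonoidHom) φ.surjective p)

/-! ### the theorem -/

/-- a fixed Sylow subgroup -/
theorem PSTwo_fix {p : ℕ} [Fact p.Prime] {F : Type} [Field F] [Finite F] [CharP F p] {X : Type}
    [Group X] [Finite X] {L : Subgroup X} [L.Normal]
    (φ : L ≃* Matrix.ProjectiveSpecialLinearGroup (Fin 2) F) (u : X) (hu : orderOf u = p) :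
    ∃ S : Sylow p L, PSTwo_act u S = S := by
  set Y : Subgroup (MulAut L) := Subgroup.zpowers (MulAut.conjNormal u : MulAut L) with hY
  have hYp : IsPGroup p Y := by
    intro y
    obtain ⟨n, hn⟩ := Subgroup.mem_zpowers_iff.1 y.2
    refine ⟨1, ?_⟩
    apply Subtype.ext
    rw [Subgroup.coe_pow, ← hn, pow_one, Subgroup.coe_one, ← zpow_natCast, ← zpow_mul, mul_comm,
      zpow_mul, zpow_natCast, ← map_pow, ← hu, pow_orderOf_eq_one, map_one, one_zpow]
  have h1 := hYp.card_modEq_card_fixedPoints (Sylow p L)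
  rw [PSTwo_cardS φ] at h1
  have hq : p ∣ Nat.card F := by
    have := Fintype.ofFinite F
    rw [Nat.card_eq_fintype_card]
    exact (CharP.cast_eq_zero_iff F p _).1 (Nat.cast_card_eq_zero F)
  have hne : Nonempty (MulAction.fixedPoints Y (Sylow p L)) := by
    by_contra hcon
    rw [not_nonempty_iff] at hcon
    have h0 : Nat.card (MulAction.fixedPoints Y (Sylow p L)) = 0 := Nat.card_of_isEmpty
    rw [h0] at h1
    have h2 : p ∣ Nat.card F + 1 := Nat.modEq_zero_iff_dvd.1 h1
    have h3 : p ∣ 1 := (Nat.dvd_add_right hq).1 h2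
    exact (Fact.out : p.Prime).one_lt.ne' (Nat.dvd_one.1 h3)
  obtain ⟨S, hS⟩ := hne
  refine ⟨S, ?_⟩
  exact hS ⟨MulAut.conjNormal u, Subgroup.mem_zpowers _⟩

theorem prf_PSTwo (hStr : PStr) : PSTwo := by
  intro p _ F _ _ _ X _ _ L u hp2 hN hφ hcen hu hgen hnot
  obtain ⟨φ⟩ := hφ
  have hpp : p.Prime := Fact.out
  obtain ⟨S₁, hS1⟩ := PSTwo_fix φ u hu
  -- a second Sylow subgroup
  obtain ⟨S₂, hS12⟩ : ∃ S₂ : Sylow p L, S₂ ≠ S₁ := by
    by_contra hcon
    push Not at hcon
    have h1 : Nat.card (Sylow p L) = 1 := by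
      have : Subsingleton (Sylow p L) := ⟨fun a b => (hcon a).trans (hcon b).symm⟩
      have : Nonempty (Sylow p L) := ⟨S₁⟩
      exact Nat.card_of_subsingleton S₁
    rw [PSTwo_cardS φ] at h1
    have : 0 < Nat.card F := Nat.card_pos
    omega
  have hU12 : PSTwo_U S₁ ≠ PSTwo_U S₂ := fun h => hS12 (PSTwo_U_inj _ _ h).symm
  obtain ⟨ε, t, hP⟩ := hStr p F X L ⟨φ⟩ (PSTwo_U S₁) (PSTwo_U S₂) (PSTwo_U_le _) (PSTwo_U_le _)
    (PSTwo_cardU φ S₁) (PSTwo_cardU φ S₂) hU12
  -- every Sylow subgroup is `S₁` or a conjugate of `S₂`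
  have hact1 : ∀ v ∈ PSTwo_U S₁, PSTwo_act v S₁ = S₁ := by
    intro v hv
    rw [PSTwo_act_iff]
    intro y hy
    exact mul_mem (mul_mem hv hy) (inv_mem hv)
  have hreg : ∀ S : Sylow p L, S = S₁ ∨ ∃ v ∈ PSTwo_U S₁, S = PSTwo_act v S₂ := by
    intro S
    obtain ⟨g, hg⟩ := MulAction.exists_smul_eq L S₂ S
    have hg' : PSTwo_act (g : X) S₂ = S := by
      rw [← hg, Sylow.smul_def]
      unfold PSTwo_act
      rw [MulAut.conjNormal_val]
    rcases hP.reg g g.2 with h | ⟨v, hv, h⟩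
    · left
      rw [← hg']
      exact (PSTwo_act_iff _ _ _).2 h
    · right
      refine ⟨v, hv, ?_⟩
      have h1 : PSTwo_act (v⁻¹ * (g : X)) S₂ = S₂ := (PSTwo_act_iff _ _ _).2 h
      rw [PSTwo_act_mul, hg'] at h1
      have h2 := PSTwo_act_inv _ _ _ h1
      rw [inv_inv] at h2
      exact h2.symm
  have hfree : ∀ v ∈ PSTwo_U S₁, PSTwo_act v S₂ = S₂ → v = 1 := by
    intro v hv h
    exact hP.free v hv ((PSTwo_act_iff _ _ _).1 h)
  -- the element `u' = w u`
  obtain ⟨v, hv, huv⟩ : ∃ v ∈ PSTwo_U S₁, PSTwo_act u S₂ = PSTwo_act v S₂ := by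
    rcases hreg (PSTwo_act u S₂) with h | h
    · exfalso
      apply hS12
      have h1 := PSTwo_act_inv _ _ _ h
      have h2 := PSTwo_act_inv _ _ _ hS1
      rw [← h1, h2]
    · exact h
  set u' := v⁻¹ * u with hu'
  have hu1 : PSTwo_act u' S₁ = S₁ := by
    rw [hu', PSTwo_act_mul, hS1]
    exact hact1 _ (inv_mem hv)
  have hu2 : PSTwo_act u' S₂ = S₂ := by
    rw [hu', PSTwo_act_mul, huv]
    exact PSTwo_act_inv _ _ _ rfl
  have hc1 : ∀ x ∈ PSTwo_U S₁, u' * x * u'⁻¹ ∈ PSTwo_U S₁ := (PSTwo_act_iff _ _ _).1 hu1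
  have hc2 : ∀ x ∈ PSTwo_U S₂, u' * x * u'⁻¹ ∈ PSTwo_U S₂ := (PSTwo_act_iff _ _ _).1 hu2
  -- its order
  have hpow : ∀ n : ℕ, u ^ n * (u' ^ n)⁻¹ ∈ PSTwo_U S₁ := by
    intro n
    induction n with
    | zero => simp
    | succ n ih =>
      have e0 : v * u' = u := by
        rw [hu']
        group
      have e : u ^ (n + 1) * (u' ^ (n + 1))⁻¹ = v * (u' * (u ^ n * (u' ^ n)⁻¹) * u'⁻¹) := by
        have e1 : v * (u' * (u ^ n * (u' ^ n)⁻¹) * u'⁻¹) =
            (v * u') * u ^ n * ((u' ^ n)⁻¹ * u'⁻¹) := by simp only [mul_assoc]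
        rw [e1, e0, ← mul_inv_rev, ← pow_succ', ← pow_succ']
      rw [e]
      exact mul_mem hv (hc1 _ ih)
  have hpowS : ∀ n : ℕ, PSTwo_act (u' ^ n) S₂ = S₂ := by
    intro n
    induction n with
    | zero => rw [pow_zero, PSTwo_act_one]
    | succ n ih => rw [pow_succ, PSTwo_act_mul, hu2, ih]
  have hup : u' ^ p = 1 := by
    have h0 : u ^ p = 1 := by
      have := pow_orderOf_eq_one u
      rwa [hu] at this
    have h1 := hpow p
    rw [h0, one_mul] at h1
    have h2 := inv_mem h1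
    rw [inv_inv] at h2
    exact hfree _ h2 (hpowS p)
  -- the action on `U₁`
  have hα : ∀ y : F, ∃ z : F, u' * ε (Multiplicative.ofAdd y) * u'⁻¹ =
      ε (Multiplicative.ofAdd z) := by
    intro y
    have h1 : ε (Multiplicative.ofAdd y) ∈ PSTwo_U S₁ := by
      rw [← hP.U]
      exact ⟨_, rfl⟩
    have h2 := hc1 _ h1
    rw [← hP.U] at h2
    obtain ⟨z, hz⟩ := h2
    exact ⟨Multiplicative.toAdd z, hz.symm⟩
  choose α0 hα0 using hα
  have hinj : ∀ y z : F, ε (Multiplicative.ofAdd y) = ε (Multiplicative.ofAdd z) → y = z :=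
    fun y z h => Multiplicative.ofAdd.injective (hP.inj h)
  have hadd : ∀ y z : F, ε (Multiplicative.ofAdd (y + z)) = ε (Multiplicative.ofAdd y) *
      ε (Multiplicative.ofAdd z) := by
    intro y z
    rw [ofAdd_add, map_mul]
  have hε0 : ε (Multiplicative.ofAdd (0 : F)) = 1 := by
    rw [ofAdd_zero]
    exact map_one ε
  set α : F →+ F := AddMonoidHom.mk' α0 (by
    intro y z
    apply hinj
    rw [hadd, ← hα0, ← hα0, ← hα0, hadd]
    group) with hαdef
  have hα : ∀ y : F, u' * ε (Multiplicative.ofAdd y) * u'⁻¹ = ε (Multiplicative.ofAdd (α y)) :=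
    hα0
  have hα1 : α 1 ≠ 0 := by
    intro h
    have h1 := hα 1
    rw [h, hε0] at h1
    have h2 : ε (Multiplicative.ofAdd (1 : F)) = 1 := by
      have : u'⁻¹ * (u' * ε (Multiplicative.ofAdd 1) * u'⁻¹) * u' =
        ε (Multiplicative.ofAdd (1 : F)) := by group
      rw [← this, h1]
      group
    have h3 : (1 : F) = 0 := by
      apply hinj
      rw [h2, hε0]
    exact one_ne_zero h3
  have h2F : (2 : F) ≠ 0 := by
    intro h
    have h1 : ((2 : ℕ) : F) = 0 := by exact_mod_cast h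
    have h2 := (CharP.cast_eq_zero_iff F p 2).1 h1
    exact hp2 ((Nat.prime_dvd_prime_iff_eq hpp Nat.prime_two).1 h2)
  obtain ⟨σ, hσ⟩ := PSTwo_sigma h2F α hα1 (by
    intro b hb
    set b' : Fˣ := Units.mk0 b hb with hb'
    have h1 : u' * t b' * u'⁻¹ ∈ L := hN.conj_mem _ (hP.tL b') u'
    have a1 : PSTwo_act (t b') S₁ = S₁ := by
      rw [PSTwo_act_iff]
      intro y hy
      rw [← hP.U] at hy
      obtain ⟨z, rfl⟩ := hy
      have := hP.tU b' (Multiplicative.toAdd z)
      rw [ofAdd_toAdd] at this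
      rw [this, ← hP.U]
      exact ⟨_, rfl⟩
    have a2 : PSTwo_act (t b') S₂ = S₂ := (PSTwo_act_iff _ _ _).2 (hP.tU2 b')
    have a3 : PSTwo_act (u' * t b' * u'⁻¹) S₁ = S₁ := by
      rw [PSTwo_act_mul, PSTwo_act_mul, PSTwo_act_inv _ _ _ hu1, a1, hu1]
    have a4 : PSTwo_act (u' * t b' * u'⁻¹) S₂ = S₂ := by
      rw [PSTwo_act_mul, PSTwo_act_mul, PSTwo_act_inv _ _ _ hu2, a2, hu2]
    obtain ⟨c, hc⟩ := hP.tor _ h1 ((PSTwo_act_iff _ _ _).1 a3) ((PSTwo_act_iff _ _ _).1 a4)
    refine ⟨(c : F), fun y => ?_⟩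
    apply hinj
    rw [← hα]
    have e1 := hP.tU b' y
    have e2 := hP.tU c (α y)
    have e3 : (b' : F) = b := rfl
    rw [e3] at e1
    rw [← e1, ← e2, ← hα, ← hc]
    group)
  -- powers
  have hiter : ∀ (n : ℕ) (y : F), u' ^ n * ε (Multiplicative.ofAdd y) * (u' ^ n)⁻¹ =
      ε (Multiplicative.ofAdd (α^[n] y)) := by
    intro n y
    induction n with
    | zero => simp
    | succ n ih =>
      rw [Function.iterate_succ_apply', ← hα, ← ih, pow_succ']
      group
  have hαp : ∀ y, α^[p] y = y := by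
    intro y
    apply hinj
    rw [← hiter, hup]
    group
  have hασ : ∀ (n : ℕ) (x : F), α^[n] x = (σ ^ n) x * α^[n] 1 := by
    intro n x
    induction n with
    | zero => simp
    | succ n ih =>
      rw [Function.iterate_succ_apply', ih, hσ, Function.iterate_succ_apply', pow_succ']
      rfl
  have hσp : σ ^ p = 1 := by
    ext x
    have h1 := hασ p x
    rw [hαp, hαp, mul_one] at h1
    exact h1.symm
  by_cases hσ1 : σ = 1
  · -- `σ = 1` is impossible
    exfalso
    have hlin : ∀ x, α x = x * α 1 := by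
      intro x
      have := hσ x 1
      rw [mul_one, hσ1] at this
      exact this
    have hpa : ∀ n : ℕ, α^[n] 1 = (α 1) ^ n := by
      intro n
      induction n with
      | zero => simp
      | succ n ih => rw [Function.iterate_succ_apply', ih, hlin, pow_succ]
    have ha1 : α 1 = 1 := by
      have h1 := hpa p
      rw [hαp] at h1
      have h2 : (α 1 - 1) ^ p = 0 := by
        rw [sub_pow_char, ← h1, one_pow, sub_self]
      exact sub_eq_zero.1 (pow_eq_zero_iff hpp.ne_zero |>.1 h2)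
    have hcomm : ∀ x ∈ PSTwo_U S₁, u' * x = x * u' := by
      intro x hx
      rw [← hP.U] at hx
      obtain ⟨z, rfl⟩ := hx
      have h1 := hα (Multiplicative.toAdd z)
      rw [hlin, ha1, mul_one, ofAdd_toAdd] at h1
      rw [← h1]
      rw [h1]
      exact (mul_inv_eq_iff_eq_mul.1 h1)
    have hall : ∀ S : Sylow p L, PSTwo_act u' S = S := by
      intro S
      rcases hreg S with rfl | ⟨w, hw, rfl⟩
      · exact hu1
      · rw [← PSTwo_act_mul, hcomm w hw, PSTwo_act_mul, hu2]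
    -- the kernel of the action on the Sylow subgroups
    have hK1 : ∀ k ∈ L, (∀ S : Sylow p L, PSTwo_act k S = S) → ∀ x ∈ PSTwo_U S₁,
        k * x = x * k := by
      intro k hk hkS x hx
      have h1 : k * x * k⁻¹ ∈ PSTwo_U S₁ := (PSTwo_act_iff _ _ _).1 (hkS S₁) x hx
      have h2 : x⁻¹ * (k * x * k⁻¹) ∈ PSTwo_U S₁ := mul_mem (inv_mem hx) h1
      have h3 : PSTwo_act (x⁻¹ * (k * x * k⁻¹)) S₂ = S₂ := by
        rw [PSTwo_act_mul, PSTwo_act_mul, PSTwo_act_mul, PSTwo_act_inv _ _ _ (hkS S₂), hkS]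
        exact PSTwo_act_inv _ _ _ rfl
      have h4 := hfree _ h2 h3
      have h5 : k * x * k⁻¹ = x := by
        rw [inv_mul_eq_one] at h4
        exact h4.symm
      exact mul_inv_eq_iff_eq_mul.1 h5
    obtain ⟨g, hg⟩ := MulAction.exists_smul_eq L S₁ S₂
    have hg' : PSTwo_act (g : X) S₁ = S₂ := by
      rw [← hg, Sylow.smul_def]
      unfold PSTwo_act
      rw [MulAut.conjNormal_val]
    have hK : ∀ k ∈ L, (∀ S : Sylow p L, PSTwo_act k S = S) → k = 1 := by
      intro k hk hkS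
      apply hcen
      have h2 : ∀ x ∈ PSTwo_U S₂, k * x = x * k := by
        intro x hx
        have e1 : (g : X)⁻¹ * x * ((g : X)⁻¹)⁻¹ ∈ PSTwo_U S₁ :=
          (PSTwo_act_iff _ _ _).1 (PSTwo_act_inv _ _ _ hg') x hx
        have e2 : (g : X)⁻¹ * k * ((g : X)⁻¹)⁻¹ ∈ L := hN.conj_mem _ hk _
        have e3 : ∀ S : Sylow p L, PSTwo_act ((g : X)⁻¹ * k * ((g : X)⁻¹)⁻¹) S = S := by
          intro S
          rw [PSTwo_act_mul, PSTwo_act_mul, hkS, ← PSTwo_act_mul, mul_inv_cancel, PSTwo_act_one]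
        have e4 := hK1 _ e2 e3 _ e1
        have e5 : (g : X)⁻¹ * k * ((g : X)⁻¹)⁻¹ * ((g : X)⁻¹ * x * ((g : X)⁻¹)⁻¹) =
            (g : X)⁻¹ * (k * x) * g := by group
        have e6 : (g : X)⁻¹ * x * ((g : X)⁻¹)⁻¹ * ((g : X)⁻¹ * k * ((g : X)⁻¹)⁻¹) =
            (g : X)⁻¹ * (x * k) * g := by group
        rw [e5, e6] at e4
        exact mul_left_cancel (mul_right_cancel e4)
      have h3 : PSTwo_U S₁ ⊔ PSTwo_U S₂ ≤ Subgroup.centralizer {k} := by
        apply sup_le
        · intro x hx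
          rw [Subgroup.mem_centralizer_singleton_iff]
          exact (hK1 k hk hkS x hx).symm
        · intro x hx
          rw [Subgroup.mem_centralizer_singleton_iff]
          exact (h2 x hx).symm
      rw [hP.gen] at h3
      intro l hl
      have := h3 hl
      rw [Subgroup.mem_centralizer_singleton_iff] at this
      exact this.symm
    have hu'1 : u' = 1 := by
      apply hcen
      intro l hl
      have h1 : u' * l * u'⁻¹ * l⁻¹ = 1 := by
        apply hK
        · exact mul_mem (hN.conj_mem _ hl _) (inv_mem hl)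
        · intro S
          have h2 : ∀ S : Sylow p L, PSTwo_act u'⁻¹ S = S := fun S =>
            PSTwo_act_inv _ _ _ (hall S)
          rw [PSTwo_act_mul, PSTwo_act_mul, PSTwo_act_mul, h2, hall, ← PSTwo_act_mul,
            mul_inv_cancel, PSTwo_act_one]
      exact mul_inv_eq_iff_eq_mul.1 (mul_inv_eq_one.1 h1)
    apply hnot
    have e : u = v := by
      rw [hu'] at hu'1
      exact (inv_mul_eq_one.1 hu'1).symm
    rw [e]
    exact PSTwo_U_le _ hv
  · -- the case `σ ≠ 1`
    obtain ⟨θ, hθ⟩ := PSTwo_theta σ hσp hσ1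
    have hvU := hv
    rw [← hP.U] at hvU
    obtain ⟨ω0, hω0⟩ := hvU
    set ω : F := Multiplicative.toAdd ω0 with hωdef
    have hω : ε (Multiplicative.ofAdd ω) = v := hω0
    have huu : u = ε (Multiplicative.ofAdd ω) * u' := by
      rw [hω, hu']
      group
    have hsum : ∀ n : ℕ, u ^ n = ε (Multiplicative.ofAdd (∑ j ∈ Finset.range n, α^[j] ω)) *
        u' ^ n := by
      intro n
      induction n with
      | zero => simp
      | succ n ih =>
        rw [pow_succ, ih, Finset.sum_range_succ, hadd, ← hiter n ω]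
        rw [huu]
        rw [pow_succ]
        group
    have hs0 : ∑ j ∈ Finset.range p, α^[j] ω = 0 := by
      have h1 := hsum p
      rw [hup, mul_one] at h1
      have h2 : u ^ p = 1 := by
        have := pow_orderOf_eq_one u
        rwa [hu] at this
      rw [h2] at h1
      apply hinj
      rw [← h1, hε0]
    obtain ⟨ρ, hρ⟩ := PSTwo_rho σ hσp α hσ θ ω hθ hs0
    set r : X := ε (Multiplicative.ofAdd ρ) with hr
    have hrU : r ∈ PSTwo_U S₁ := by
      rw [← hP.U]
      exact ⟨_, rfl⟩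
    have hconj : r * u' * r⁻¹ = u := by
      have e1 : ε (Multiplicative.ofAdd ω) = r * (u' * r * u'⁻¹)⁻¹ := by
        rw [hr, hα, ← map_inv, ← ofAdd_neg, ← hadd, ← sub_eq_add_neg, hρ]
      rw [huu, e1]
      group
    have hu3 : PSTwo_act u (PSTwo_act r S₂) = PSTwo_act r S₂ := by
      rw [← PSTwo_act_mul, ← hconj]
      have : r * u' * r⁻¹ * r = r * u' := by group
      rw [this, PSTwo_act_mul, hu2]
    have hne : S₁ ≠ PSTwo_act r S₂ := by
      intro h
      have h1 := PSTwo_act_inv _ _ _ h.symm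
      have h2 := hact1 _ (inv_mem hrU)
      rw [h2] at h1
      exact hS12 h1.symm
    refine ⟨PSTwo_U S₁, PSTwo_U (PSTwo_act r S₂), fun h => hne (PSTwo_U_inj _ _ h), PSTwo_U_le _,
      PSTwo_U_le _, PSTwo_cardU φ _, PSTwo_cardU φ _, (PSTwo_act_iff _ _ _).1 hS1,
      (PSTwo_act_iff _ _ _).1 hu3⟩

end MP7b0bad.SL
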