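import Pool.Agent.Work.MP_7b0bad_ag.Bd.B16
import Pool.Agent.Work.MP_7b0bad_ag.SL.Stmts

set_option autoImplicit false

/-!
# Block SL, item PStr: two Sylow subgroups of `PSL_2(F)` in the defining characteristic
-/

namespace MP7b0bad.SL

open MP7b0bad
open scoped Pointwise

/-- `SL_2` -/
abbrev PStrSL (F : Type) [Field F] : Type := Matrix.SpecialLinearGroup (Fin 2) F

/-- `PSL_2` -/
abbrev PStrPSL (F : Type) [Field F] : Type := Matrix.ProjectiveSpecialLinearGroup (Fin 2) F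

section

variable {F : Type} [Field F]

theorem PStr_lo_00 (b : F) : (HPSL2_lo b) 0 0 = 1 := rfl
theorem PStr_lo_01 (b : F) : (HPSL2_lo b) 0 1 = 0 := rfl
theorem PStr_lo_10 (b : F) : (HPSL2_lo b) 1 0 = b := rfl
theorem PStr_lo_11 (b : F) : (HPSL2_lo b) 1 1 = 1 := rfl
theorem PStr_h_00 (b : Fˣ) : (MT.h2 b) 0 0 = (b : F) := rfl
theorem PStr_h_01 (b : Fˣ) : (MT.h2 b) 0 1 = (0 : F) := rfl
theorem PStr_h_10 (b : Fˣ) : (MT.h2 b) 1 0 = (0 : F) := rfl
theorem PStr_h_11 (b : Fˣ) : (MT.h2 b) 1 1 = ((b⁻¹ : Fˣ) : F) := rfl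

theorem PStr_up_conj (m : PStrSL F) (y z : F) :
    ((HPSL1_t z)⁻¹ * (m * HPSL1_t y * m⁻¹) : PStrSL F) 1 0 = - (y * (m 1 0 * m 1 0)) := by
  obtain ⟨i00, -, i10, -⟩ := HPSL1_inv m
  obtain ⟨-, -, j10, j11⟩ := HPSL1_inv (HPSL1_t z)
  simp only [HPSL1_mul, i00, i10, j10, j11, HPSL1_t_00, HPSL1_t_01, HPSL1_t_10, HPSL1_t_11]
  ring

theorem PStr_lo_conj (m : PStrSL F) (y z : F) :
    ((HPSL2_lo z)⁻¹ * (m * HPSL2_lo y * m⁻¹) : PStrSL F) 0 1 = - (y * (m 0 1 * m 0 1)) := by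
  obtain ⟨-, i01, -, i11⟩ := HPSL1_inv m
  obtain ⟨j00, j01, -, -⟩ := HPSL1_inv (HPSL2_lo z)
  simp only [HPSL1_mul, i01, i11, j00, j01, PStr_lo_00, PStr_lo_01, PStr_lo_10, PStr_lo_11]
  ring

/-- an upper triangular matrix normalises the upper unitriangular matrices -/
theorem PStr_up1 (m : PStrSL F) (h : m 1 0 = 0) (y : F) :
    m * HPSL1_t y * m⁻¹ = HPSL1_t (m 0 0 * m 0 0 * y) := by
  have hd := HPSL1_det m
  rw [h] at hd
  obtain ⟨i00, i01, i10, i11⟩ := HPSL1_inv m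
  apply HPSL1_ext <;>
    simp only [HPSL1_mul, i00, i01, i10, i11, h, HPSL1_t_00, HPSL1_t_01, HPSL1_t_10,
      HPSL1_t_11] <;> first | linear_combination hd | ring

/-- a lower triangular matrix normalises the lower unitriangular matrices -/
theorem PStr_lo1 (m : PStrSL F) (h : m 0 1 = 0) (y : F) :
    m * HPSL2_lo y * m⁻¹ = HPSL2_lo (m 1 1 * m 1 1 * y) := by
  have hd := HPSL1_det m
  rw [h] at hd
  obtain ⟨i00, i01, i10, i11⟩ := HPSL1_inv m
  apply HPSL1_ext <;>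
    simp only [HPSL1_mul, i00, i01, i10, i11, h, PStr_lo_00, PStr_lo_01, PStr_lo_10,
      PStr_lo_11] <;> first | linear_combination hd | ring

/-- from the upper to the lower unitriangular matrices -/
theorem PStr_up2 (m : PStrSL F) (h : m 0 0 = 0) (y : F) :
    m * HPSL1_t y * m⁻¹ = HPSL2_lo (-(m 1 0 * m 1 0 * y)) := by
  have hd := HPSL1_det m
  rw [h] at hd
  obtain ⟨i00, i01, i10, i11⟩ := HPSL1_inv m
  apply HPSL1_ext <;>
    simp only [HPSL1_mul, i00, i01, i10, i11, h, HPSL1_t_00, HPSL1_t_01, HPSL1_t_10,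
      HPSL1_t_11, PStr_lo_00, PStr_lo_01, PStr_lo_10,
      PStr_lo_11] <;> first | linear_combination hd | ring

/-- from the lower to the upper unitriangular matrices -/
theorem PStr_lo2 (m : PStrSL F) (h : m 1 1 = 0) (y : F) :
    m * HPSL2_lo y * m⁻¹ = HPSL1_t (-(m 0 1 * m 0 1 * y)) := by
  have hd := HPSL1_det m
  rw [h] at hd
  obtain ⟨i00, i01, i10, i11⟩ := HPSL1_inv m
  apply HPSL1_ext <;>
    simp only [HPSL1_mul, i00, i01, i10, i11, h, HPSL1_t_00, HPSL1_t_01, HPSL1_t_10,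
      HPSL1_t_11, PStr_lo_00, PStr_lo_01, PStr_lo_10,
      PStr_lo_11] <;> first | linear_combination hd | ring

theorem PStr_h_mul (b c : Fˣ) : (MT.h2 (b * c) : PStrSL F) = MT.h2 b * MT.h2 c := by
  apply HPSL1_ext <;>
    simp only [HPSL1_mul, PStr_h_00, PStr_h_01, PStr_h_10, PStr_h_11, mul_inv, Units.val_mul] <;>
    ring

/-- the torus -/
def PStr_hh (F : Type) [Field F] : Fˣ →* PStrSL F := MonoidHom.mk' MT.h2 PStr_h_mul

/-- the kernel of the projection -/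
theorem PStr_ker (g : PStrSL F) (h : HPSL1_pi F g = 1) : g 1 0 = 0 ∧ g 0 1 = 0 := by
  rw [← MonoidHom.mem_ker] at h
  unfold HPSL1_pi at h
  rw [QuotientGroup.ker_mk', Matrix.SpecialLinearGroup.mem_center_iff] at h
  obtain ⟨r, -, h⟩ := h
  rw [← h]
  simp

end

/-- the structure, from a map of `SL_2` -/
theorem PStr_main {p : ℕ} [Fact p.Prime] {F : Type} [Field F] [Finite F] [CharP F p] {X : Type}
    [Group X] {L U₁ U₂ : Subgroup X} (ψ : (PStrSL F) →* X) (hL : ∀ x, x ∈ L ↔ ∃ s, ψ s = x)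
    (h1 : ∀ x, x ∈ U₁ ↔ ∃ y, ψ (HPSL1_t y) = x) (h2 : ∀ x, x ∈ U₂ ↔ ∃ y, ψ (HPSL2_lo y) = x)
    (hk : ∀ s, ψ s = 1 → s 1 0 = 0 ∧ s 0 1 = 0) :
    P2 p F L U₁ U₂ (ψ.comp (HPSL1_th F)) (fun b => ψ (MT.h2 b)) := by
  have hle1 : U₁ ≤ L := by
    intro x hx
    obtain ⟨y, rfl⟩ := (h1 x).1 hx
    exact (hL _).2 ⟨_, rfl⟩
  have hle2 : U₂ ≤ L := by
    intro x hx
    obtain ⟨y, rfl⟩ := (h2 x).1 hx
    exact (hL _).2 ⟨_, rfl⟩
  -- comparison of two images
  have heq : ∀ a b : PStrSL F, ψ a = ψ b → ψ (b⁻¹ * a) = 1 := by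
    intro a b hab
    rw [map_mul, map_inv, hab, inv_mul_cancel]
  have hup0 : ∀ m : PStrSL F, ψ m * ψ (HPSL1_t 1) * (ψ m)⁻¹ ∈ U₁ → m 1 0 = 0 := by
    intro m hm
    obtain ⟨z, hz⟩ := (h1 _).1 hm
    have h3 : ψ (m * HPSL1_t 1 * m⁻¹) = ψ (HPSL1_t z) := by
      rw [map_mul, map_mul, map_inv, hz]
    have h4 := (hk _ (heq _ _ h3)).1
    rw [PStr_up_conj, neg_eq_zero, one_mul, mul_self_eq_zero] at h4
    exact h4
  have hlo0 : ∀ m : PStrSL F, ψ m * ψ (HPSL2_lo 1) * (ψ m)⁻¹ ∈ U₂ → m 0 1 = 0 := by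
    intro m hm
    obtain ⟨z, hz⟩ := (h2 _).1 hm
    have h3 : ψ (m * HPSL2_lo 1 * m⁻¹) = ψ (HPSL2_lo z) := by
      rw [map_mul, map_mul, map_inv, hz]
    have h4 := (hk _ (heq _ _ h3)).2
    rw [PStr_lo_conj, neg_eq_zero, one_mul, mul_self_eq_zero] at h4
    exact h4
  refine ⟨?_, ?_, hle1, hle2, ?_, fun b => (hL _).2 ⟨_, rfl⟩, ?_, ?_, ?_, ?_, ?_, ?_, ?_⟩
  · -- injectivity
    rw [injective_iff_map_eq_one]
    intro y hy
    have h3 := (hk _ hy).2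
    have h4 : Multiplicative.toAdd y = 0 := h3
    exact Multiplicative.toAdd.injective h4
  · -- the range
    ext x
    rw [MonoidHom.mem_range, h1]
    constructor
    · rintro ⟨y, hy⟩
      exact ⟨Multiplicative.toAdd y, hy⟩
    · rintro ⟨y, hy⟩
      exact ⟨Multiplicative.ofAdd y, hy⟩
  · -- generation
    apply le_antisymm (sup_le hle1 hle2)
    intro x hx
    obtain ⟨s, rfl⟩ := (hL x).1 hx
    have htop : (U₁ ⊔ U₂).comap ψ = ⊤ := by
      apply HPSL2_gen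
      · intro y
        exact (le_sup_left : U₁ ≤ _) ((h1 _).2 ⟨y, rfl⟩)
      · intro y
        exact (le_sup_right : U₂ ≤ _) ((h2 _).2 ⟨y, rfl⟩)
    have h3 : s ∈ (U₁ ⊔ U₂).comap ψ := by rw [htop]; trivial
    exact h3
  · -- the torus on `U₁`
    intro b y
    change ψ (MT.h2 b) * ψ (HPSL1_t y) * (ψ (MT.h2 b))⁻¹ = ψ (HPSL1_t ((b : F) ^ 2 * y))
    have h3 := PStr_up1 (MT.h2 b) (PStr_h_10 b) y
    rw [PStr_h_00] at h3
    rw [← map_inv, ← map_mul, ← map_mul, h3, sq]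
  · -- the torus on `U₂`
    intro b u hu
    obtain ⟨y, rfl⟩ := (h2 u).1 hu
    rw [← map_inv, ← map_mul, ← map_mul, PStr_lo1 (MT.h2 b) (PStr_h_01 b) y]
    exact (h2 _).2 ⟨_, rfl⟩
  · -- the order of the torus
    intro b hb
    have e1 : orderOf (ψ (MT.h2 b)) ∣ orderOf b := orderOf_map_dvd (ψ.comp (PStr_hh F)) b
    have e2 : orderOf b ∣ Nat.card Fˣ := orderOf_dvd_natCard b
    have e3 : Nat.card Fˣ = Nat.card F - 1 := Nat.card_units F
    have e4 : p ∣ Nat.card F - 1 := e3 ▸ (hb.trans (e1.trans e2))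
    have e5 : p ∣ Nat.card F := by
      have := Fintype.ofFinite F
      rw [Nat.card_eq_fintype_card]
      exact (CharP.cast_eq_zero_iff F p _).1 (Nat.cast_card_eq_zero F)
    have hq0 : 0 < Nat.card F := Nat.card_pos
    have e6 : p ∣ 1 := by
      have := Nat.dvd_sub e5 e4
      rwa [Nat.sub_sub_self hq0] at this
    exact (Fact.out : p.Prime).one_lt.ne' (Nat.dvd_one.1 e6)
  · -- commutativity
    intro b b'
    rw [← map_mul, ← map_mul, ← PStr_h_mul, ← PStr_h_mul, mul_comm]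
  · -- the elements that normalise both
    intro g hg hg1 hg2
    obtain ⟨m, rfl⟩ := (hL g).1 hg
    have e1 := hup0 m (hg1 _ ((h1 _).2 ⟨1, rfl⟩))
    have e2 := hlo0 m (hg2 _ ((h2 _).2 ⟨1, rfl⟩))
    have hd := HPSL1_det m
    rw [e2, zero_mul, sub_zero] at hd
    have h0 : m 0 0 ≠ 0 := by
      intro h0
      rw [h0, zero_mul] at hd
      exact zero_ne_one hd
    refine ⟨Units.mk0 _ h0, ?_⟩
    congr 1
    apply HPSL1_ext
    · rw [PStr_h_00, Units.val_mk0]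
    · rw [PStr_h_01, e2]
    · rw [PStr_h_10, e1]
    · rw [PStr_h_11, Units.val_inv_eq_inv_val, Units.val_mk0]
      exact eq_inv_of_mul_eq_one_right hd
  · -- regularity
    intro g hg
    obtain ⟨m, rfl⟩ := (hL g).1 hg
    by_cases h0 : m 1 1 = 0
    · left
      intro u hu
      obtain ⟨y, rfl⟩ := (h2 u).1 hu
      rw [← map_inv, ← map_mul, ← map_mul, PStr_lo2 m h0 y]
      exact (h1 _).2 ⟨_, rfl⟩
    · right
      refine ⟨ψ (HPSL1_t (m 0 1 / m 1 1)), (h1 _).2 ⟨_, rfl⟩, ?_⟩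
      intro u hu
      obtain ⟨y, rfl⟩ := (h2 u).1 hu
      have e0 : ((HPSL1_t (m 0 1 / m 1 1))⁻¹ * m : PStrSL F) 0 1 = 0 := by
        obtain ⟨j00, j01, j10, j11⟩ := HPSL1_inv (HPSL1_t (m 0 1 / m 1 1))
        rw [HPSL1_mul, j00, j01, HPSL1_t_11, HPSL1_t_01]
        field_simp
        ring
      have e1 := PStr_lo1 _ e0 y
      rw [← map_inv, ← map_mul, ← map_mul, ← map_inv, ← map_mul, e1]
      exact (h2 _).2 ⟨_, rfl⟩
  · -- freeness
    intro v hv hv2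
    obtain ⟨y, rfl⟩ := (h1 v).1 hv
    have e1 := hlo0 _ (hv2 _ ((h2 _).2 ⟨1, rfl⟩))
    rw [HPSL1_t_01] at e1
    rw [e1, HPSL1_t_zero, map_one]

/-- the unipotent subgroup has `|F|` elements -/
theorem PStr_cardU (F : Type) [Field F] [Finite F] : Nat.card (HPSL1_U F) = Nat.card F := by
  have hinj : Function.Injective ((HPSL1_pi F).comp (HPSL1_th F)) := by
    rw [injective_iff_map_eq_one]
    intro y hy
    have h3 := (PStr_ker _ hy).2
    have h4 : Multiplicative.toAdd y = 0 := h3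
    exact Multiplicative.toAdd.injective h4
  exact (Nat.card_congr (MonoidHom.ofInjective hinj).toEquiv).symm

/-- a subgroup of order `|F|` is conjugate to the unitriangular subgroup -/
theorem PStr_conj (p : ℕ) [Fact p.Prime] (F : Type) [Field F] [Finite F] [CharP F p] {X : Type}
    [Group X] [Finite X] {L : Subgroup X} (φ : L ≃* PStrPSL F) (U : Subgroup X) (hU : U ≤ L)
    (hc : Nat.card U = Nat.card F) :
    ∃ a : PStrSL F, ∀ x : X, x ∈ U ↔ ∃ y : F,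
      (φ.symm (HPSL1_pi F (a * HPSL1_t y * a⁻¹)) : X) = x := by
  have : Finite (PStrPSL F) := Finite.of_surjective _ (HPSL1_pi_surj F)
  set V : Subgroup (PStrPSL F) := (U.subgroupOf L).map φ.toMonoidHom with hV
  have hcV : Nat.card V = Nat.card F := by
    rw [← hc, hV]
    have e1 : Nat.card ((U.subgroupOf L).map φ.toMonoidHom) = Nat.card (U.subgroupOf L) :=
      (Nat.card_congr ((U.subgroupOf L).equivMapOfInjective φ.toMonoidHom φ.injective).toEquiv).symm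
    rw [e1]
    exact Nat.card_congr (Subgroup.subgroupOfEquivOfLe hU).toEquiv
  have hcF : ∃ n : ℕ, Nat.card F = p ^ n := by
    have := Fintype.ofFinite F
    rw [Nat.card_eq_fintype_card]
    obtain ⟨n, hn, h⟩ := FiniteField.card F p
    exact ⟨n, h⟩
  obtain ⟨n, hn⟩ := hcF
  have hpg : IsPGroup p V := IsPGroup.of_card (hcV.trans hn)
  have hidx : V.index = (HPSL1_U F).index := by
    have e1 := V.index_mul_card
    have e2 := (HPSL1_U F).index_mul_card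
    rw [hcV] at e1
    rw [PStr_cardU] at e2
    exact Nat.eq_of_mul_eq_mul_right Nat.card_pos (e1.trans e2.symm)
  have hnd : ¬ p ∣ V.index := by
    rw [hidx]
    exact HPSL1_not_dvd p F
  obtain ⟨g, hg⟩ := MulAction.exists_smul_eq (PStrPSL F) ((HPSL1_pgroup p F).toSylow
    (HPSL1_not_dvd p F)) (hpg.toSylow hnd)
  obtain ⟨a, rfl⟩ := HPSL1_pi_surj F g
  have hmem : ∀ x : PStrPSL F, x ∈ V ↔ ∃ y : F, HPSL1_pi F (a * HPSL1_t y * a⁻¹) = x := by
    intro x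
    have e1 : V = MulAut.conj (HPSL1_pi F a) • HPSL1_U F := by
      have := congrArg (fun S : Sylow p (PStrPSL F) => (S : Subgroup (PStrPSL F))) hg
      exact this.symm
    rw [e1, Subgroup.mem_smul_pointwise_iff_exists]
    constructor
    · rintro ⟨s, hs, rfl⟩
      obtain ⟨y, rfl⟩ := (HPSL1_mem_U s).1 hs
      refine ⟨y, ?_⟩
      rw [map_mul, map_mul, map_inv]
      rfl
    · rintro ⟨y, rfl⟩
      refine ⟨HPSL1_pi F (HPSL1_t y), (HPSL1_mem_U _).2 ⟨y, rfl⟩, ?_⟩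
      rw [map_mul, map_mul, map_inv]
      rfl
  refine ⟨a, fun x => ?_⟩
  constructor
  · intro hx
    have h1 : φ ⟨x, hU hx⟩ ∈ V := Subgroup.mem_map_of_mem _ hx
    obtain ⟨y, hy⟩ := (hmem _).1 h1
    refine ⟨y, ?_⟩
    rw [hy, MulEquiv.symm_apply_apply]
  · rintro ⟨y, rfl⟩
    have h1 := (hmem _).2 ⟨y, rfl⟩
    obtain ⟨l, hl, hl2⟩ := h1
    have h2 : φ l = HPSL1_pi F (a * HPSL1_t y * a⁻¹) := hl2
    rw [← h2, MulEquiv.symm_apply_apply]
    exact hl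

theorem prf_PStr : PStr := by
  intro p _ F _ _ _ X _ _ L hφ U₁ U₂ hU1 hU2 hc1 hc2 hne
  obtain ⟨φ⟩ := hφ
  obtain ⟨a₁, ha₁⟩ := PStr_conj p F φ U₁ hU1 hc1
  obtain ⟨a₂, ha₂⟩ := PStr_conj p F φ U₂ hU2 hc2
  set Θ : (PStrSL F) →* X := L.subtype.comp (φ.symm.toMonoidHom.comp (HPSL1_pi F)) with hΘ
  have hΘa : ∀ s, Θ s = (φ.symm (HPSL1_pi F s) : X) := fun s => rfl
  set h : PStrSL F := a₁⁻¹ * a₂ with hh
  have ha : a₂ = a₁ * h := by rw [hh]; group
  -- the element `h` does not normalise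
  have h10 : h 1 0 ≠ 0 := by
    intro h0
    apply hne
    have hd := HPSL1_det h
    rw [h0, mul_zero, sub_zero] at hd
    have h00 : h 0 0 ≠ 0 := by
      intro h1
      rw [h1, zero_mul] at hd
      exact zero_ne_one hd
    have key : ∀ y : F, a₂ * HPSL1_t y * a₂⁻¹ = a₁ * HPSL1_t (h 0 0 * h 0 0 * y) * a₁⁻¹ := by
      intro y
      rw [← PStr_up1 h h0 y, ha]
      group
    ext x
    rw [ha₁, ha₂]
    constructor
    · rintro ⟨y, rfl⟩
      refine ⟨y / (h 0 0 * h 0 0), ?_⟩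
      rw [key]
      congr 6
      field_simp
    · rintro ⟨y, rfl⟩
      exact ⟨h 0 0 * h 0 0 * y, by rw [key]⟩
  set c : F := h 0 0 / h 1 0 with hc
  set k : PStrSL F := a₁ * HPSL1_t c with hk
  set m : PStrSL F := (HPSL1_t c)⁻¹ * h with hm
  have ha₂k : a₂ = k * m := by
    rw [ha, hk, hm]
    group
  have hm00 : m 0 0 = 0 := by
    obtain ⟨j00, j01, j10, j11⟩ := HPSL1_inv (HPSL1_t c)
    rw [hm, HPSL1_mul, j00, j01, HPSL1_t_11, HPSL1_t_01, hc]
    field_simp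
    ring
  have hm10 : m 1 0 = h 1 0 := by
    obtain ⟨j00, j01, j10, j11⟩ := HPSL1_inv (HPSL1_t c)
    rw [hm, HPSL1_mul, j10, j11, HPSL1_t_10, HPSL1_t_00]
    ring
  refine ⟨_, _, PStr_main (Θ.comp (MulAut.conj k).toMonoidHom) ?_ ?_ ?_ ?_⟩
  · intro x
    constructor
    · intro hx
      obtain ⟨s, hs⟩ := HPSL1_pi_surj F (φ ⟨x, hx⟩)
      refine ⟨k⁻¹ * s * k, ?_⟩
      change Θ (k * (k⁻¹ * s * k) * k⁻¹) = x
      have e : k * (k⁻¹ * s * k) * k⁻¹ = s := by group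
      rw [e, hΘa, hs, MulEquiv.symm_apply_apply]
    · rintro ⟨s, rfl⟩
      exact (φ.symm _).2
  · intro x
    rw [ha₁]
    have e : ∀ y : F, k * HPSL1_t y * k⁻¹ = a₁ * HPSL1_t y * a₁⁻¹ := by
      intro y
      have e1 := PStr_up1 (HPSL1_t c) (HPSL1_t_10 c) y
      rw [HPSL1_t_00, one_mul, one_mul] at e1
      have e2 : a₁ * HPSL1_t y * a₁⁻¹ =
          a₁ * (HPSL1_t c * HPSL1_t y * (HPSL1_t c)⁻¹) * a₁⁻¹ := by rw [e1]
      rw [e2, hk]
      group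
    constructor
    · rintro ⟨y, rfl⟩
      refine ⟨y, ?_⟩
      change Θ (k * HPSL1_t y * k⁻¹) = _
      rw [e, hΘa]
    · rintro ⟨y, rfl⟩
      refine ⟨y, ?_⟩
      change _ = Θ (k * HPSL1_t y * k⁻¹)
      rw [e, hΘa]
  · intro x
    rw [ha₂]
    have e : ∀ y : F, a₂ * HPSL1_t y * a₂⁻¹ = k * HPSL2_lo (-(h 1 0 * h 1 0 * y)) * k⁻¹ := by
      intro y
      rw [← hm10, ← PStr_up2 m hm00 y, ha₂k]
      group
    constructor
    · rintro ⟨y, rfl⟩
      refine ⟨-(h 1 0 * h 1 0 * y), ?_⟩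
      change Θ (k * HPSL2_lo _ * k⁻¹) = _
      rw [← e, hΘa]
    · rintro ⟨y, rfl⟩
      refine ⟨-(y / (h 1 0 * h 1 0)), ?_⟩
      change _ = Θ (k * HPSL2_lo _ * k⁻¹)
      rw [e, hΘa]
      congr 6
      field_simp
  · intro s hs
    have h1 : HPSL1_pi F (k * s * k⁻¹) = 1 := by
      have h2 : (φ.symm (HPSL1_pi F (k * s * k⁻¹)) : X) = 1 := hs
      have h3 : φ.symm (HPSL1_pi F (k * s * k⁻¹)) = 1 := Subtype.ext h2
      exact (MulEquiv.map_eq_one_iff φ.symm).1 h3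
    have h2 : HPSL1_pi F s = 1 := by
      rw [map_mul, map_mul, map_inv] at h1
      have h3 : HPSL1_pi F s = (HPSL1_pi F k)⁻¹ *
          (HPSL1_pi F k * HPSL1_pi F s * (HPSL1_pi F k)⁻¹) * HPSL1_pi F k := by group
      rw [h3, h1]
      group
    exact PStr_ker s h2

end MP7b0bad.SL
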