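import Mathlib
import Pool.Agent.Work.MP_7b0bad_ag.SL.Stmts

set_option autoImplicit false

/-!
# Special linear groups in the defining characteristic: induction on the dimension
-/

namespace MP7b0bad.SL

open Module

theorem SLAsm_step (hNor : MW.WNor) (hHyp : SLHyp) (hLin : SLLin) (hGen : SLGen) (hEx : SLEx)
    (p : ℕ) [Fact p.Prime] (R : ∀ (G : Type) [Group G], Subgroup G → Prop) (hR : MW.WAx p R)
    (F V : Type) [Field F] [Finite F] [CharP F p] [AddCommGroup V] [Module F V]
    [Module.Finite F V] (h3 : 3 ≤ finrank F V)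
    (ih : ∀ (U : Type) [AddCommGroup U] [Module F U] [Module.Finite F U],
      finrank F U + 1 = finrank F V → Good p R F U) : Good p R F V := by
  intro x hx
  have hV : Finite V := Module.finite_of_finite F
  have hS : Finite (V ≃ₗ[F] V) := Finite.of_injective (fun f : V ≃ₗ[F] V => (f : V → V))
    DFunLike.coe_injective
  obtain ⟨W, l, hW, hl, hxW, hxW1, hxl, hxl1⟩ := hEx p F V x h3 hx
  have hQ : finrank F (V ⧸ l) + 1 = finrank F V := by
    have := Submodule.finrank_quotient_add_finrank l
    rw [hl] at this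
    exact this
  have h1 := hHyp p R hR F V W hW (by omega) (ih W hW) x hx hxW hxW1
  have h2 := hLin p R hR F V l hl h3 (ih (V ⧸ l) hQ) x hx hxl hxl1
  have hg := hGen F V W l h3 hW hl
  refine ⟨?_, ?_⟩
  · have hp : IsPGroup p (Subgroup.zpowers x) := by
      refine IsPGroup.of_card (n := 1) ?_
      rw [Nat.card_zpowers, hx, pow_one]
    refine (hNor p R hR.rel (SLV F V) (Subgroup.zpowers x) hp).2.2.1 ?_
    rw [eq_top_iff, ← hg]
    refine sup_le ?_ ?_
    · exact le_sSup h1.1
    · exact le_sSup h2.1
  · rw [eq_top_iff, ← hg]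
    exact sup_le h1.2 h2.2

theorem prf_SLAsm (hNor : MW.WNor) (hBase : SLBase) (hHyp : SLHyp) (hLin : SLLin) (hGen : SLGen)
    (hEx : SLEx) : SLAsm := by
  intro p _ R hR hS F V _ _ _ _ _ _ h2
  obtain ⟨n, hn⟩ : ∃ n : ℕ, finrank F V = n + 2 := ⟨finrank F V - 2, by omega⟩
  have key : ∀ (n : ℕ) (U : Type) [AddCommGroup U] [Module F U] [Module.Finite F U],
      finrank F U = n + 2 → Good p R F U := by
    intro n
    induction n with
    | zero =>
      intro U _ _ _ hU
      exact hBase p R hR hS F U hU
    | succ n ih =>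
      intro U _ _ _ hU
      refine SLAsm_step hNor hHyp hLin hGen hEx p R hR F U (by omega) ?_
      intro T _ _ _ hT
      exact ih T (by omega)
  exact key n V hn

end MP7b0bad.SL
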