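import Pool.Agent.Work.MP_7b0bad_ag.SL.Stmts

set_option autoImplicit false

/-!
# Block SL, item SLBase: special linear groups of dimension 2.  Author: helper82.
-/

namespace MP7b0bad.SL

open Module

open Matrix (SpecialLinearGroup)

/-! ### matrices -/

theorem SLBase_up {F : Type} [Field F] (b : F) : MT.u2 b = HPSL2_up b := rfl

theorem SLBase_mul {F : Type} [Field F] (b c : F) : MT.u2 b * MT.u2 c = MT.u2 (b + c) :=
  HPSL2_up_mul b c

theorem SLBase_pow {F : Type} [Field F] (b : F) (n : ℕ) : MT.u2 b ^ n = MT.u2 (n * b) :=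
  HPSL2_up_pow b n

theorem SLBase_zero {F : Type} [Field F] : MT.u2 (0 : F) = 1 := by
  have h := SLBase_pow (0 : F) 0
  rw [pow_zero, mul_zero] at h
  exact h.symm

theorem SLBase_inv {F : Type} [Field F] (b : F) : (MT.u2 b)⁻¹ = MT.u2 (-b) := by
  rw [inv_eq_iff_mul_eq_one, SLBase_mul, add_neg_cancel, SLBase_zero]

/-- the Weyl element -/
def SLBase_w (F : Type) [Field F] : SpecialLinearGroup (Fin 2) F :=
  ⟨!![0, 1; -1, 0], by simp [Matrix.det_fin_two]⟩

theorem SLBase_wlo {F : Type} [Field F] (b : F) :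
    SLBase_w F * MT.u2 (-b) * (SLBase_w F)⁻¹ = HPSL2_lo b := by
  rw [mul_inv_eq_iff_eq_mul]
  apply Subtype.ext
  show (!![0, 1; -1, 0] : Matrix (Fin 2) (Fin 2) F) * !![1, -b; 0, 1] =
    !![1, 0; b, 1] * !![0, 1; -1, 0]
  ext i j
  fin_cases i <;> fin_cases j <;> simp [Matrix.mul_apply, Fin.sum_univ_two]

theorem SLBase_h {F : Type} [Field F] (s : Fˣ) (b : F) :
    MT.h2 s * MT.u2 b * (MT.h2 s)⁻¹ = MT.u2 ((s : F) ^ 2 * b) := by
  rw [mul_inv_eq_iff_eq_mul]
  apply Subtype.ext
  show (!![(s : F), 0; 0, ((s⁻¹ : Fˣ) : F)] : Matrix (Fin 2) (Fin 2) F) * !![1, b; 0, 1] =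
    !![1, (s : F) ^ 2 * b; 0, 1] * !![(s : F), 0; 0, ((s⁻¹ : Fˣ) : F)]
  ext i j
  fin_cases i <;> fin_cases j <;> simp [Matrix.mul_apply, Fin.sum_univ_two]
  rw [pow_two]
  have h : (s : F) ≠ 0 := s.ne_zero
  field_simp

/-- the subgroup of the elements `b` with `u b` in `N` is everything if it contains the squares -/
theorem SLBase_sq {F : Type} [Field F] [Finite F] (N : Subgroup (SpecialLinearGroup (Fin 2) F))
    (h : ∀ b : F, MT.u2 (b ^ 2) ∈ N) (b : F) : MT.u2 b ∈ N := by
  by_cases h2 : ringChar F = 2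
  · obtain ⟨a, ha⟩ := FiniteField.isSquare_of_char_two h2 b
    rw [ha, ← pow_two]
    exact h a
  · have h2' : (2 : F) ≠ 0 := Ring.two_ne_zero h2
    have e : b = ((b + 1) / 2) ^ 2 + -(((b - 1) / 2) ^ 2) := by
      field_simp
      ring
    rw [e, ← SLBase_mul, ← SLBase_inv]
    exact N.mul_mem (h _) (N.inv_mem (h _))

/-- a subgroup that contains `u(F)` and `w` is everything -/
theorem SLBase_top {F : Type} [Field F] (M : Subgroup (SpecialLinearGroup (Fin 2) F))
    (h1 : ∀ b : F, MT.u2 b ∈ M) (h2 : SLBase_w F ∈ M) : M = ⊤ := by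
  apply HPSL2_gen M h1
  intro b
  rw [← SLBase_wlo]
  exact M.mul_mem (M.mul_mem h2 (h1 _)) (M.inv_mem h2)

/-- the normal closure of `u(1)` -/
theorem SLBase_ncl (F : Type) [Field F] [Finite F] (N : Subgroup (SpecialLinearGroup (Fin 2) F))
    [hN : N.Normal] (h : MT.u2 (1 : F) ∈ N) : N = ⊤ := by
  have hu : ∀ b : F, MT.u2 b ∈ N := by
    apply SLBase_sq
    intro b
    by_cases hb : b = 0
    · rw [hb, zero_pow (by norm_num), SLBase_zero]
      exact N.one_mem
    · have h1 := hN.conj_mem _ h (MT.h2 (Units.mk0 b hb))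
      rw [SLBase_h, mul_one, Units.val_mk0] at h1
      exact h1
  apply HPSL2_gen N hu
  intro b
  rw [← SLBase_wlo]
  exact hN.conj_mem _ (hu _) _

/-- the group `SL_2(F)` -/
theorem SLBase_mat (hNor : MW.WNor) (p : ℕ) [Fact p.Prime]
    (R : ∀ (G : Type) [Group G], Subgroup G → Prop) (hW : MW.WAx p R) (hS : SLSeed p R)
    (F : Type) [Field F] [Finite F] [CharP F p] :
    R (SpecialLinearGroup (Fin 2) F) (Subgroup.zpowers (MT.u2 (1 : F))) := by
  have hp1 : p.Prime := Fact.out
  set G := SpecialLinearGroup (Fin 2) F with hG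
  set P : Subgroup G := Subgroup.zpowers (MT.u2 (1 : F)) with hP
  have hPp : IsPGroup p P := by
    rintro ⟨g, hg⟩
    refine ⟨1, ?_⟩
    obtain ⟨m, rfl⟩ := Subgroup.mem_zpowers_iff.mp hg
    apply Subtype.ext
    show ((MT.u2 (1 : F)) ^ m) ^ (p ^ 1) = 1
    rw [pow_one, ← zpow_natCast, zpow_comm, zpow_natCast, SLBase_pow, CharP.cast_eq_zero, zero_mul,
      SLBase_zero, one_zpow]
  obtain ⟨hPΓ, -, htop, -, hconj, -⟩ := hNor p R hW.rel G P hPp
  set Γ := MW.GamR R P with hΓ
  -- the subgroup `SL_2(F_p)`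
  let φ : SpecialLinearGroup (Fin 2) (ZMod p) →* G :=
    SpecialLinearGroup.map (ZMod.castHom (dvd_refl p) F)
  have hφu : ∀ b : ZMod p, φ (MT.u2 b) = MT.u2 (ZMod.castHom (dvd_refl p) F b) := by
    intro b
    apply Subtype.ext
    ext i j
    show ZMod.castHom (dvd_refl p) F ((MT.u2 b).1 i j) = _
    fin_cases i <;> fin_cases j
    exacts [map_one _, rfl, map_zero _, map_one _]
  have hφw : φ (SLBase_w (ZMod p)) = SLBase_w F := by
    apply Subtype.ext
    ext i j
    show ZMod.castHom (dvd_refl p) F ((SLBase_w (ZMod p)).1 i j) = _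
    fin_cases i <;> fin_cases j
    · exact map_zero _
    · exact map_one _
    · exact (map_neg _ _).trans (congrArg Neg.neg (map_one _))
    · exact map_zero _
  have hφi : Function.Injective φ := by
    intro a b hab
    apply Subtype.ext
    ext i j
    have h1 := congrArg (fun g : G => g.1 i j) hab
    exact (ZMod.castHom (dvd_refl p) F).injective h1
  have hcl : Subgroup.closure (Set.range (MT.u2 (F := ZMod p))) =
      Subgroup.zpowers (MT.u2 (1 : ZMod p)) := by
    apply le_antisymm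
    · rw [Subgroup.closure_le]
      rintro _ ⟨b, rfl⟩
      have h1 : MT.u2 b = MT.u2 (1 : ZMod p) ^ b.val := by
        rw [SLBase_pow, mul_one, ZMod.natCast_zmod_val]
      rw [h1]
      exact Subgroup.pow_mem _ (Subgroup.mem_zpowers _) _
    · rw [Subgroup.zpowers_le]
      exact Subgroup.subset_closure ⟨1, rfl⟩
  have hR1 := hS (ZMod p)
  rw [hcl] at hR1
  have hR2 := hW.rel.iso _ _ (MonoidHom.ofInjective hφi) _ hR1
  have hPH : P ≤ φ.range := by
    rw [hP, Subgroup.zpowers_le]
    refine ⟨MT.u2 1, ?_⟩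
    rw [hφu, map_one]
  have hmap : (Subgroup.zpowers (MT.u2 (1 : ZMod p))).map (MonoidHom.ofInjective hφi).toMonoidHom =
      P.subgroupOf φ.range := by
    ext ⟨g, hg⟩
    rw [Subgroup.mem_subgroupOf, Subgroup.mem_map]
    constructor
    · rintro ⟨y, hy, hyg⟩
      obtain ⟨m, rfl⟩ := Subgroup.mem_zpowers_iff.mp hy
      have h1 := congrArg Subtype.val hyg
      have h2 : φ (MT.u2 (1 : ZMod p) ^ m) = g := h1
      rw [map_zpow, hφu, map_one] at h2
      show g ∈ P
      rw [← h2]
      exact Subgroup.zpow_mem _ (Subgroup.mem_zpowers _) m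
    · intro hgP
      obtain ⟨m, hm⟩ := Subgroup.mem_zpowers_iff.mp hgP
      refine ⟨MT.u2 (1 : ZMod p) ^ m, Subgroup.zpow_mem _ (Subgroup.mem_zpowers _) m, ?_⟩
      apply Subtype.ext
      show φ (MT.u2 (1 : ZMod p) ^ m) = g
      rw [map_zpow, hφu, map_one]
      exact hm
  rw [hmap] at hR2
  have hRH : RH R P φ.range := ⟨P, le_refl P, hPH, hR2⟩
  have hle : φ.range ≤ Γ := le_sSup hRH
  have hwΓ : SLBase_w F ∈ Γ := hle ⟨SLBase_w (ZMod p), hφw⟩
  -- `u(F)` normalises `Γ`
  have hcomm : ∀ (b : F), ∀ q ∈ P, MT.u2 b * q * (MT.u2 b)⁻¹ ∈ P := by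
    intro b q hq
    have h1 : MT.u2 b * q * (MT.u2 b)⁻¹ = q := by
      obtain ⟨m, rfl⟩ := Subgroup.mem_zpowers_iff.mp hq
      have h2 : Commute (MT.u2 b) (MT.u2 (1 : F)) := by
        show MT.u2 b * MT.u2 1 = MT.u2 1 * MT.u2 b
        rw [SLBase_mul, SLBase_mul, add_comm]
      rw [(h2.zpow_right m).eq, mul_inv_cancel_right]
    rw [h1]
    exact hq
  let M : Subgroup G :=
    { carrier := {g | (∀ x ∈ Γ, g * x * g⁻¹ ∈ Γ) ∧ ∀ x ∈ Γ, g⁻¹ * x * g ∈ Γ}
      one_mem' := by
        constructor <;> intro x hx <;> simpa using hx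
      mul_mem' := by
        rintro a b ⟨ha, ha'⟩ ⟨hb, hb'⟩
        constructor
        · intro x hx
          have h1 := ha _ (hb x hx)
          have h2 : a * b * x * (a * b)⁻¹ = a * (b * x * b⁻¹) * a⁻¹ := by
            simp only [mul_inv_rev, mul_assoc]
          rw [h2]
          exact h1
        · intro x hx
          have h1 := hb' _ (ha' x hx)
          have h2 : (a * b)⁻¹ * x * (a * b) = b⁻¹ * (a⁻¹ * x * a) * b := by
            simp only [mul_inv_rev, mul_assoc]
          rw [h2]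
          exact h1
      inv_mem' := by
        rintro a ⟨ha, ha'⟩
        constructor
        · intro x hx
          rw [inv_inv]
          exact ha' x hx
        · intro x hx
          rw [inv_inv]
          exact ha x hx }
  have hMu : ∀ b : F, MT.u2 b ∈ M := by
    intro b
    constructor
    · exact hconj _ (hcomm b)
    · intro x hx
      have h1 := hconj _ (hcomm (-b)) x hx
      rw [← SLBase_inv, inv_inv] at h1
      exact h1
  have hMw : SLBase_w F ∈ M := by
    constructor
    · intro x hx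
      exact Γ.mul_mem (Γ.mul_mem hwΓ hx) (Γ.inv_mem hwΓ)
    · intro x hx
      exact Γ.mul_mem (Γ.mul_mem (Γ.inv_mem hwΓ) hx) hwΓ
  have hMtop : M = ⊤ := SLBase_top M hMu hMw
  have hnorm : Γ.Normal := by
    refine ⟨fun x hx g => ?_⟩
    have h1 : g ∈ M := by rw [hMtop]; exact Subgroup.mem_top g
    exact h1.1 x hx
  exact htop (SLBase_ncl F Γ (hPΓ (Subgroup.mem_zpowers _)))

/-! ### vector spaces -/

/-- matrices as linear maps -/
noncomputable def SLBase_iso {F V : Type} [Field F] [AddCommGroup V] [Module F V]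
    (b : Basis (Fin 2) F V) : SpecialLinearGroup (Fin 2) F ≃* SLV F V :=
  (SpecialLinearGroup.toLin_equiv b).trans
    { toFun := fun u => ⟨u.1, u.2⟩
      invFun := fun u => ⟨u.1, u.2⟩
      left_inv := fun _ => rfl
      right_inv := fun _ => rfl
      map_mul' := fun _ _ => rfl }

theorem SLBase_iso_apply {F V : Type} [Field F] [AddCommGroup V] [Module F V]
    (b : Basis (Fin 2) F V) (g : SpecialLinearGroup (Fin 2) F) (v : V) :
    ((SLBase_iso b g : SLV F V) : V ≃ₗ[F] V) v = Matrix.toLin b b g.1 v := by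
  have h := SpecialLinearGroup.toLin_equiv.toLinearMap_eq b g
  exact congrArg (fun f : V →ₗ[F] V => f v) h

/-- a basis in which `x` is `u(1)` -/
theorem SLBase_basis (p : ℕ) [Fact p.Prime] (F V : Type) [Field F] [CharP F p]
    [AddCommGroup V] [Module F V] (hV : finrank F V = 2) (x : SLV F V) (hx : orderOf x = p) :
    ∃ b : Basis (Fin 2) F V, SLBase_iso b (MT.u2 1) = x := by
  have hp1 : p.Prime := Fact.out
  have hfin : Module.Finite F V := Module.finite_of_finrank_pos (by rw [hV]; norm_num)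
  set X : Module.End F V := ((x : V ≃ₗ[F] V) : V →ₗ[F] V) with hX
  set N : Module.End F V := X - 1 with hN
  have hXp : X ^ p = 1 := by
    have h1 : x ^ p = 1 := by rw [← hx]; exact pow_orderOf_eq_one x
    have h2 : ((x : V ≃ₗ[F] V)) ^ p = 1 := congrArg Subtype.val h1
    have h3 : ∀ n : ℕ, X ^ n = (((x : V ≃ₗ[F] V) ^ n : V ≃ₗ[F] V) : V →ₗ[F] V) := by
      intro n
      induction n with
      | zero => rfl
      | succ n ih => rw [pow_succ, ih, pow_succ]; rfl
    rw [h3, h2]
    rfl
  have hchar : CharP (Module.End F V) p := by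
    have hnt : Nontrivial V := Module.nontrivial_of_finrank_pos (R := F) (by rw [hV]; norm_num)
    exact charP_of_injective_algebraMap (algebraMap F (Module.End F V)).injective p
  have hNp : N ^ p = 0 := by
    rw [hN, sub_pow_char_of_commute p (Commute.one_right X), hXp, one_pow, sub_self]
  have hN2 : N ^ 2 = 0 := by
    have hnil : IsNilpotent N := ⟨p, hNp⟩
    have h2 := IsNilpotent.charpoly_eq_X_pow_finrank (φ := N) hnil
    have h3 := LinearMap.aeval_self_charpoly N
    rw [h2, hV] at h3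
    simpa using h3
  have hNne : ∃ v : V, N v ≠ 0 := by
    by_contra hcon
    push Not at hcon
    have h1 : x = 1 := by
      apply Subtype.ext
      apply LinearEquiv.ext
      intro v
      have h2 := hcon v
      rw [hN, LinearMap.sub_apply, sub_eq_zero] at h2
      exact h2
    rw [h1, orderOf_one] at hx
    exact hp1.one_lt.ne hx
  obtain ⟨v, hv⟩ := hNne
  have hNN : N (N v) = 0 := by
    have h1 := congrArg (fun f : Module.End F V => f v) hN2
    rw [pow_two] at h1
    exact h1
  have hli : LinearIndependent F ![N v, v] := by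
    rw [LinearIndependent.pair_iff]
    intro s t hst
    have h1 := congrArg N hst
    rw [map_add, map_smul, map_smul, hNN, smul_zero, zero_add, map_zero, smul_eq_zero] at h1
    have ht : t = 0 := h1.resolve_right hv
    rw [ht, zero_smul, add_zero, smul_eq_zero] at hst
    exact ⟨hst.resolve_right hv, ht⟩
  have hcard : Fintype.card (Fin 2) = finrank F V := by rw [hV, Fintype.card_fin]
  let b : Basis (Fin 2) F V := basisOfLinearIndependentOfCardEqFinrank hli hcard
  have hb0 : b 0 = N v := by simp [b]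
  have hb1 : b 1 = v := by simp [b]
  refine ⟨b, ?_⟩
  apply Subtype.ext
  apply LinearEquiv.toLinearMap_injective
  apply b.ext
  intro i
  have hXN : ∀ y, X y = N y + y := by
    intro y
    rw [hN, LinearMap.sub_apply, Module.End.one_apply, sub_add_cancel]
  have h1 : (((SLBase_iso b (MT.u2 1) : SLV F V) : V ≃ₗ[F] V) : V →ₗ[F] V) (b i) =
      Matrix.toLin b b (MT.u2 (1 : F)).1 (b i) := SLBase_iso_apply b _ _
  rw [h1, Matrix.toLin_self]
  show _ = X (b i)
  rw [hXN, Fin.sum_univ_two]
  fin_cases i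
  · simp [MT.u2, hb0, hNN]
  · simp [MT.u2, hb0, hb1]

/-- dimension 2 -/
theorem prf_SLBase (hNor : MW.WNor) : SLBase := by
  intro p _ R hW hS F V _ _ _ _ _ hV x hx
  obtain ⟨b, hb⟩ := SLBase_basis p F V hV x hx
  have h1 := hW.rel.iso _ _ (SLBase_iso b) _ (SLBase_mat hNor p R hW hS F)
  have h2 : (Subgroup.zpowers (MT.u2 (1 : F))).map (SLBase_iso b).toMonoidHom =
      Subgroup.zpowers x := by
    rw [MonoidHom.map_zpowers]
    exact congrArg Subgroup.zpowers hb
  rw [h2] at h1
  refine ⟨h1, ?_⟩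
  have h3 : (Subgroup.normalClosure {x}).comap (SLBase_iso b).toMonoidHom = ⊤ := by
    have hn : ((Subgroup.normalClosure {x}).comap (SLBase_iso b).toMonoidHom).Normal :=
      inferInstance
    apply SLBase_ncl F
    rw [Subgroup.mem_comap]
    have h4 : (SLBase_iso b).toMonoidHom (MT.u2 1) = x := hb
    rw [h4]
    exact Subgroup.subset_normalClosure rfl
  rw [eq_top_iff]
  intro y _
  obtain ⟨z, rfl⟩ := (SLBase_iso b).surjective y
  have h5 : z ∈ (Subgroup.normalClosure {x}).comap (SLBase_iso b).toMonoidHom := by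
    rw [h3]
    exact Subgroup.mem_top z
  exact h5

end MP7b0bad.SL
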