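import Pool.Agent.Work.MP_7b0bad_ag.SL.Stmts

set_option autoImplicit false

/-!
# Block SL, item SLEx: a hyperplane and a line for an element of order `p` of `SL(V)`
-/

namespace MP7b0bad.SL

open Module

/-- linear algebra: a hyperplane that contains the image of `N` and is not contained in the kernel -/
private theorem SLEx_hyp {F V : Type} [Field F] [AddCommGroup V] [Module F V] [Module.Finite F V]
    (N : V →ₗ[F] V) (hV : 3 ≤ finrank F V) (hN : N ≠ 0) (hk : 1 ≤ finrank F (LinearMap.ker N)) :
    ∃ W : Submodule F V, finrank F W + 1 = finrank F V ∧ LinearMap.range N ≤ W ∧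
      ∃ w ∈ W, N w ≠ 0 := by
  have hrk := LinearMap.finrank_range_add_finrank_ker N
  by_cases h : finrank F (LinearMap.range N) + 1 = finrank F V
  · refine ⟨LinearMap.range N, h, le_rfl, ?_⟩
    by_contra hc
    push Not at hc
    have h1 : LinearMap.range N ≤ LinearMap.ker N := fun w hw => by
      rw [LinearMap.mem_ker]
      exact hc w hw
    have h2 := Submodule.finrank_mono h1
    omega
  · obtain ⟨v, hv⟩ : ∃ v, N v ≠ 0 := by
      by_contra hc
      push Not at hc
      exact hN (LinearMap.ext fun v => by rw [hc v, LinearMap.zero_apply])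
    have hv0 : v ≠ 0 := by
      rintro rfl
      exact hv (map_zero N)
    have h1 : finrank F ↥(LinearMap.range N ⊔ Submodule.span F {v}) < finrank F V := by
      have h2 := Submodule.finrank_add_le_finrank_add_finrank (LinearMap.range N)
        (Submodule.span F {v})
      have h3 := finrank_span_singleton (K := F) hv0
      omega
    have h2 : LinearMap.range N ⊔ Submodule.span F {v} < ⊤ := by
      rw [lt_top_iff_ne_top]
      intro h3
      rw [h3, finrank_top] at h1
      exact lt_irrefl _ h1
    obtain ⟨f, hf, hle⟩ := Submodule.exists_le_ker_of_lt_top _ h2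
    refine ⟨LinearMap.ker f, Module.Dual.finrank_ker_add_one_of_ne_zero hf,
      le_sup_left.trans hle, v, ?_, hv⟩
    exact hle (le_sup_right (a := LinearMap.range N) (Submodule.mem_span_singleton_self v))

/-- linear algebra: a line in the kernel of `N` that does not contain the image -/
private theorem SLEx_lin {F V : Type} [Field F] [AddCommGroup V] [Module F V] [Module.Finite F V]
    (N : V →ₗ[F] V) (hV : 3 ≤ finrank F V) (hN : N ≠ 0) (hk : 1 ≤ finrank F (LinearMap.ker N)) :
    ∃ v : V, v ≠ 0 ∧ N v = 0 ∧ ∃ u, N u ∉ Submodule.span F {v} := by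
  have hrk := LinearMap.finrank_range_add_finrank_ker N
  -- a vector of the kernel such that the image is not contained in its span
  have key : ∀ v : V, v ≠ 0 → N v = 0 → ¬ LinearMap.range N ≤ Submodule.span F {v} →
      ∃ v : V, v ≠ 0 ∧ N v = 0 ∧ ∃ u, N u ∉ Submodule.span F {v} := by
    intro v hv hNv hr
    refine ⟨v, hv, hNv, ?_⟩
    by_contra hc
    push Not at hc
    apply hr
    rintro _ ⟨u, rfl⟩
    exact hc u
  by_cases h : 2 ≤ finrank F (LinearMap.range N)
  · have h1 : LinearMap.ker N ≠ ⊥ := by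
      intro h2
      rw [h2, finrank_bot] at hk
      omega
    obtain ⟨v, hv, hv0⟩ := Submodule.exists_mem_ne_zero_of_ne_bot h1
    refine key v hv0 (LinearMap.mem_ker.1 hv) fun hr => ?_
    have h2 := Submodule.finrank_mono hr
    rw [finrank_span_singleton (K := F) hv0] at h2
    omega
  · have h1 : ¬ LinearMap.ker N ≤ LinearMap.range N := by
      intro h2
      have h3 := Submodule.finrank_mono h2
      omega
    obtain ⟨v, hv, hvr⟩ := SetLike.not_le_iff_exists.1 h1
    have hv0 : v ≠ 0 := by
      rintro rfl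
      exact hvr (Submodule.zero_mem _)
    refine key v hv0 (LinearMap.mem_ker.1 hv) fun hr => ?_
    obtain ⟨u, hu⟩ : ∃ v, N v ≠ 0 := by
      by_contra hc
      push Not at hc
      exact hN (LinearMap.ext fun v => by rw [hc v, LinearMap.zero_apply])
    obtain ⟨c, hc⟩ := Submodule.mem_span_singleton.1 (hr ⟨u, rfl⟩)
    have hc0 : c ≠ 0 := by
      rintro rfl
      rw [zero_smul] at hc
      exact hu hc.symm
    apply hvr
    refine ⟨c⁻¹ • u, ?_⟩
    rw [map_smul, ← hc, smul_smul, inv_mul_cancel₀ hc0, one_smul]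

theorem prf_SLEx : SLEx := by
  intro p _ F V _ _ _ _ _ _ x hV hx
  have hpp : p.Prime := Fact.out
  have hnt : Nontrivial V := by
    apply Module.nontrivial_of_finrank_pos (R := F)
    omega
  set X : V →ₗ[F] V := ((x : V ≃ₗ[F] V) : V →ₗ[F] V) with hXdef
  have hXv : ∀ v, X v = (x : V ≃ₗ[F] V) v := fun v => rfl
  have hXp : X ^ p = 1 := by
    have h1 : x ^ p = 1 := by
      rw [← hx]
      exact pow_orderOf_eq_one x
    have h2 : (x : V ≃ₗ[F] V) ^ p = 1 := by
      rw [← Subgroup.coe_pow, h1, Subgroup.coe_one]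
    have h3 : ∀ n : ℕ, X ^ n = (((x : V ≃ₗ[F] V) ^ n : V ≃ₗ[F] V) : V →ₗ[F] V) := by
      intro n
      induction n with
      | zero => rfl
      | succ n ih =>
        rw [pow_succ, pow_succ, ih]
        rfl
    rw [h3, h2]
    rfl
  have hchar : CharP (Module.End F V) p :=
    charP_of_injective_algebraMap (FaithfulSMul.algebraMap_injective F (Module.End F V)) p
  set N : V →ₗ[F] V := X - 1 with hNdef
  have hNv : ∀ v, N v = (x : V ≃ₗ[F] V) v - v := fun v => rfl
  have hNp : N ^ p = 0 := by
    rw [hNdef, sub_pow_char_of_commute (p := p) (Commute.one_right X), hXp, one_pow, sub_self]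
  have hN : N ≠ 0 := by
    intro h0
    have h1 : x = 1 := by
      apply Subtype.ext
      apply LinearEquiv.ext
      intro v
      have h2 := hNv v
      rw [h0, LinearMap.zero_apply] at h2
      exact (sub_eq_zero.1 h2.symm)
    rw [h1, orderOf_one] at hx
    exact hpp.one_lt.ne hx
  have hk : 1 ≤ finrank F (LinearMap.ker N) := by
    rw [Nat.one_le_iff_ne_zero]
    intro h0
    have h1 : LinearMap.ker N = ⊥ := Submodule.finrank_eq_zero.1 h0
    have h2 : Function.Injective N := LinearMap.ker_eq_bot.1 h1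
    have h3 : ∀ n : ℕ, Function.Injective (N ^ n) := by
      intro n
      rw [Module.End.coe_pow]
      exact h2.iterate n
    obtain ⟨v, hv⟩ := exists_ne (0 : V)
    apply hv
    apply h3 p
    rw [hNp, LinearMap.zero_apply, LinearMap.zero_apply]
  obtain ⟨W, hW, hrW, w, hwW, hw⟩ := SLEx_hyp N hV hN hk
  obtain ⟨v, hv, hvN, u, hu⟩ := SLEx_lin N hV hN hk
  refine ⟨W, Submodule.span F {v}, hW, finrank_span_singleton hv, ?_, ⟨w, hwW, ?_⟩, ?_, ⟨u, ?_⟩⟩
  · intro y
    rw [← hNv]
    exact hrW ⟨y, rfl⟩
  · intro h1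
    apply hw
    rw [hNv, h1, sub_self]
  · intro y hy
    obtain ⟨c, rfl⟩ := Submodule.mem_span_singleton.1 hy
    have h1 : N (c • v) = 0 := by rw [map_smul, hvN, smul_zero]
    rw [hNv] at h1
    exact sub_eq_zero.1 h1
  · rw [← hNv]
    exact hu

end MP7b0bad.SL
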