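import Pool.Agent.Work.MP_7b0bad_ag.SL.Stmts

set_option autoImplicit false

/-!
# Block SL, item SLGen: `SL(V)` is generated by the stabilizers of a hyperplane and of a line
-/

namespace MP7b0bad.SL

open Module

theorem SLGen_det {F V : Type} [Field F] [AddCommGroup V] [Module F V] {f : Module.Dual F V}
    {v : V} (h : f v = 0) : LinearEquiv.transvection h ∈ SLV F V := by
  rw [MonoidHom.mem_ker]
  exact LinearEquiv.transvection.det_eq_one h

/-- transvections as elements of the special linear group -/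
noncomputable def SLGen_tr {F V : Type} [Field F] [AddCommGroup V] [Module F V]
    (f : Module.Dual F V) (v : V) (h : f v = 0) : SLV F V :=
  ⟨LinearEquiv.transvection h, SLGen_det h⟩

theorem SLGen_apply {F V : Type} [Field F] [AddCommGroup V] [Module F V]
    (f : Module.Dual F V) (v : V) (h : f v = 0) (x : V) :
    (SLGen_tr f v h : V ≃ₗ[F] V) x = x + f x • v := rfl

theorem SLGen_mulapply {F V : Type} [Field F] [AddCommGroup V] [Module F V]
    (a b : SLV F V) (x : V) :
    ((a * b : SLV F V) : V ≃ₗ[F] V) x = (a : V ≃ₗ[F] V) ((b : V ≃ₗ[F] V) x) := rfl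

theorem SLGen_inW {F V : Type} [Field F] [AddCommGroup V] [Module F V] (W : Submodule F V)
    (f : Module.Dual F V) (v : V) (h : f v = 0) (hv : v ∈ W) : SLGen_tr f v h ∈ HW W := by
  intro x
  rw [SLGen_apply, add_sub_cancel_left]
  exact W.smul_mem _ hv

theorem SLGen_inL {F V : Type} [Field F] [AddCommGroup V] [Module F V] (ℓ : Submodule F V)
    (f : Module.Dual F V) (v : V) (h : f v = 0) (hf : ∀ x ∈ ℓ, f x = 0) :
    SLGen_tr f v h ∈ HL ℓ := by
  intro x hx
  rw [SLGen_apply, hf x hx, zero_smul, add_zero]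

/-- commutator identity -/
theorem SLGen_comm {F V : Type} [Field F] [AddCommGroup V] [Module F V]
    (f g : Module.Dual F V) (v w : V) (hfv : f v = 0) (hgv : g v = 0) (hfw : f w = 0)
    (hgw : g w = 1) : SLGen_tr f v hfv =
      SLGen_tr g v hgv * SLGen_tr f w hfw * (SLGen_tr g v hgv)⁻¹ * (SLGen_tr f w hfw)⁻¹ := by
  rw [eq_mul_inv_iff_mul_eq, eq_mul_inv_iff_mul_eq]
  ext x
  rw [SLGen_mulapply, SLGen_mulapply, SLGen_mulapply, SLGen_apply, SLGen_apply, SLGen_apply,
    SLGen_apply, SLGen_apply]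
  simp only [map_add, map_smul, smul_eq_mul, hfv, hfw, hgw, mul_zero, mul_one, add_zero]
  module

/-- all transvections are in the group generated by `HW W` and `HL ℓ` -/
theorem SLGen_all {F V : Type} [Field F] [AddCommGroup V] [Module F V] [Module.Finite F V]
    (W ℓ : Submodule F V) (h3 : 3 ≤ Module.finrank F V)
    (hW : Module.finrank F W + 1 = Module.finrank F V) (hl : Module.finrank F ℓ = 1)
    (f : Module.Dual F V) (v : V) (h : f v = 0) : SLGen_tr f v h ∈ HW W ⊔ HL ℓ := by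
  by_cases hv : v ∈ W
  · exact Subgroup.mem_sup_left (SLGen_inW W f v h hv)
  by_cases hf : ∀ x ∈ ℓ, f x = 0
  · exact Subgroup.mem_sup_right (SLGen_inL ℓ f v h hf)
  push Not at hf
  obtain ⟨x0, hx0, hfx0⟩ := hf
  -- a vector `w ≠ 0` of `W` with `f w = 0`
  obtain ⟨w, hwW, hfw, hw0⟩ : ∃ w ∈ W, f w = 0 ∧ w ≠ 0 := by
    have h1 := LinearMap.finrank_range_add_finrank_ker (f.comp W.subtype)
    have h2 : Module.finrank F (LinearMap.range (f.comp W.subtype)) ≤ 1 := by
      have := Submodule.finrank_le (LinearMap.range (f.comp W.subtype))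
      rwa [Module.finrank_self] at this
    have h4 : 0 < Module.finrank F (LinearMap.ker (f.comp W.subtype)) := by omega
    obtain ⟨⟨y, hy⟩, hy0⟩ := Module.finrank_pos_iff_exists_ne_zero.1 h4
    refine ⟨y, y.2, by simpa using hy, ?_⟩
    intro h0
    apply hy0
    ext
    exact h0
  have hwn : w ∉ ℓ ⊔ Submodule.span F {v} := by
    intro hw
    obtain ⟨a, ha, b, hb, hab⟩ := Submodule.mem_sup.1 hw
    obtain ⟨c, rfl⟩ := Submodule.mem_span_singleton.1 hb
    have hfa : f a = 0 := by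
      rw [← hab, map_add, map_smul, h, smul_zero, add_zero] at hfw
      exact hfw
    have ha0 : a = 0 := by
      have hx00 : x0 ≠ 0 := by
        rintro rfl
        exact hfx0 (map_zero f)
      obtain ⟨s, hs⟩ := (finrank_eq_one_iff_of_nonzero' (⟨x0, hx0⟩ : ℓ)
        (by intro h0; exact hx00 (congrArg Subtype.val h0))).1 hl ⟨a, ha⟩
      have hs' : s • x0 = a := congrArg Subtype.val hs
      rw [← hs', map_smul, smul_eq_mul, mul_eq_zero] at hfa
      rw [← hs', hfa.resolve_right hfx0, zero_smul]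
    rw [ha0, zero_add] at hab
    have hc : c ≠ 0 := by
      rintro rfl
      rw [zero_smul] at hab
      exact hw0 hab.symm
    apply hv
    have : v = c⁻¹ • w := by rw [← hab, smul_smul, inv_mul_cancel₀ hc, one_smul]
    rw [this]
    exact W.smul_mem _ hwW
  obtain ⟨g0, hg0w, hg0⟩ := Submodule.exists_le_ker_of_notMem hwn
  have hgv : ((g0 w)⁻¹ • g0) v = 0 := by
    have : g0 v = 0 := hg0 (Submodule.mem_sup_right (Submodule.mem_span_singleton_self v))
    rw [LinearMap.smul_apply, this, smul_zero]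
  have hgw : ((g0 w)⁻¹ • g0) w = 1 := by
    rw [LinearMap.smul_apply, smul_eq_mul, inv_mul_cancel₀ hg0w]
  have hgl : ∀ x ∈ ℓ, ((g0 w)⁻¹ • g0) x = 0 := by
    intro x hx
    have : g0 x = 0 := hg0 (Submodule.mem_sup_left hx)
    rw [LinearMap.smul_apply, this, smul_zero]
  rw [SLGen_comm f ((g0 w)⁻¹ • g0) v w h hgv hfw hgw]
  have m1 : SLGen_tr ((g0 w)⁻¹ • g0) v hgv ∈ HW W ⊔ HL ℓ :=
    Subgroup.mem_sup_right (SLGen_inL ℓ _ v hgv hgl)
  have m2 : SLGen_tr f w hfw ∈ HW W ⊔ HL ℓ := Subgroup.mem_sup_left (SLGen_inW W f w hfw hwW)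
  exact mul_mem (mul_mem (mul_mem m1 m2) (inv_mem m1)) (inv_mem m2)

/-- independent vectors are moved by one transvection -/
theorem SLGen_move1 {F V : Type} [Field F] [AddCommGroup V] [Module F V]
    (H : Subgroup (SLV F V)) (hH : ∀ (f : Module.Dual F V) (v : V) (h : f v = 0),
      SLGen_tr f v h ∈ H) (x y : V) (hxy : x ∉ Submodule.span F {y - x}) :
    ∃ t ∈ H, (t : V ≃ₗ[F] V) x = y := by
  obtain ⟨g0, hg0w, hg0⟩ := Submodule.exists_le_ker_of_notMem hxy
  have h1 : ((g0 x)⁻¹ • g0) (y - x) = 0 := by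
    have : g0 (y - x) = 0 := hg0 (Submodule.mem_span_singleton_self (y - x))
    rw [LinearMap.smul_apply, this, smul_zero]
  refine ⟨SLGen_tr _ _ h1, hH _ _ _, ?_⟩
  rw [SLGen_apply, LinearMap.smul_apply, smul_eq_mul, inv_mul_cancel₀ hg0w, one_smul]
  abel

theorem SLGen_move {F V : Type} [Field F] [AddCommGroup V] [Module F V] [Module.Finite F V]
    (h3 : 3 ≤ Module.finrank F V)
    (H : Subgroup (SLV F V)) (hH : ∀ (f : Module.Dual F V) (v : V) (h : f v = 0),
      SLGen_tr f v h ∈ H) (x y : V) (hx : x ≠ 0) (hy : y ≠ 0) :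
    ∃ t ∈ H, (t : V ≃ₗ[F] V) x = y := by
  -- `z` outside of the span of `x` and `y`
  obtain ⟨z, hz⟩ : ∃ z : V, z ∉ Submodule.span F ({x, y} : Set V) := by
    by_contra hcon
    push Not at hcon
    have htop : Submodule.span F ({x, y} : Set V) = ⊤ := Submodule.eq_top_iff'.2 hcon
    have h1 : Module.finrank F (Submodule.span F ({x, y} : Set V)) ≤ 2 := by
      classical
      have := finrank_span_finset_le_card (R := F) ({x, y} : Finset V)
      rw [Finset.coe_insert, Finset.coe_singleton] at this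
      exact this.trans Finset.card_le_two
    rw [htop, finrank_top] at h1
    omega
  have key : ∀ a b : V, a ≠ 0 → a ∈ Submodule.span F ({x, y} : Set V) →
      ∀ z' : V, z' ∉ Submodule.span F ({x, y} : Set V) → a ∉ Submodule.span F {z' - a} := by
    intro a b ha haS z' hz' hmem
    obtain ⟨c, hc⟩ := Submodule.mem_span_singleton.1 hmem
    have hc0 : c ≠ 0 := by
      rintro rfl
      rw [zero_smul] at hc
      exact ha hc.symm
    apply hz'
    have : z' = c⁻¹ • a + a := by
      rw [← hc, smul_smul, inv_mul_cancel₀ hc0, one_smul, hc]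
      abel
    rw [this]
    exact Submodule.add_mem _ (Submodule.smul_mem _ _ haS) haS
  have hxS : x ∈ Submodule.span F ({x, y} : Set V) := Submodule.subset_span (by simp)
  have hyS : y ∈ Submodule.span F ({x, y} : Set V) := Submodule.subset_span (by simp)
  obtain ⟨t1, ht1, e1⟩ := SLGen_move1 H hH x z (key x y hx hxS z hz)
  obtain ⟨t2, ht2, e2⟩ := SLGen_move1 H hH y z (key y x hy hyS z hz)
  refine ⟨t2⁻¹ * t1, mul_mem (inv_mem ht2) ht1, ?_⟩
  rw [SLGen_mulapply, e1, ← e2, ← SLGen_mulapply, inv_mul_cancel]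
  rfl

theorem prf_SLGen : SLGen := by
  intro F V _ _ _ _ _ W ℓ h3 hW hl
  rw [eq_top_iff]
  intro g _
  have hH := SLGen_all W ℓ h3 hW hl
  obtain ⟨⟨x0, hx0⟩, hne⟩ := Module.finrank_pos_iff_exists_ne_zero.1
    (show 0 < Module.finrank F ℓ by omega)
  have hx00 : x0 ≠ 0 := by
    rintro rfl
    exact hne rfl
  have hg0 : (g : V ≃ₗ[F] V) x0 ≠ 0 := by
    intro h
    exact hx00 ((LinearEquiv.map_eq_zero_iff _).1 h)
  obtain ⟨t, ht, e⟩ := SLGen_move h3 (HW W ⊔ HL ℓ) hH ((g : V ≃ₗ[F] V) x0) x0 hg0 hx00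
  have h1 : t * g ∈ HL ℓ := by
    intro a ha
    obtain ⟨s, hs⟩ := (finrank_eq_one_iff_of_nonzero' (⟨x0, hx0⟩ : ℓ) hne).1 hl ⟨a, ha⟩
    have hs' : s • x0 = a := congrArg Subtype.val hs
    rw [SLGen_mulapply, ← hs', map_smul, map_smul, e]
  have h2 : g = t⁻¹ * (t * g) := by group
  rw [h2]
  exact mul_mem (inv_mem ht) (Subgroup.mem_sup_right h1)

end MP7b0bad.SL
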