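import Pool.Agent.Work.MP_7b0bad_ag.SL.Stmts

set_option autoImplicit false

/-!
# Block SL: lines
-/

namespace MP7b0bad.SL

open Module

section
variable {F V : Type} [Field F] [AddCommGroup V] [Module F V]

theorem SLLin_map (ℓ : Submodule F V) (g : V ≃ₗ[F] V) (hg : ∀ v ∈ ℓ, g v = v) :
    ℓ.map (g : V →ₗ[F] V) = ℓ := by
  ext v
  constructor
  · rintro ⟨w, hw, rfl⟩
    show g w ∈ ℓ
    rw [hg w hw]; exact hw
  · intro hv
    exact ⟨v, hv, hg v hv⟩

/-- the action on the quotient -/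
noncomputable def SLLin_q (ℓ : Submodule F V) (g : V ≃ₗ[F] V) (hg : ∀ v ∈ ℓ, g v = v) :
    (V ⧸ ℓ) ≃ₗ[F] (V ⧸ ℓ) := Submodule.Quotient.equiv ℓ ℓ g (SLLin_map ℓ g hg)

theorem SLLin_q_mk (ℓ : Submodule F V) (g : V ≃ₗ[F] V) (hg : ∀ v ∈ ℓ, g v = v) (v : V) :
    SLLin_q ℓ g hg (Submodule.Quotient.mk v) = Submodule.Quotient.mk (g v) := rfl

theorem SLLin_q_det [Module.Finite F V] (ℓ : Submodule F V) (g : V ≃ₗ[F] V)
    (hg : ∀ v ∈ ℓ, g v = v) : LinearEquiv.det (SLLin_q ℓ g hg) = LinearEquiv.det g := by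
  apply Units.ext
  rw [LinearEquiv.coe_det, LinearEquiv.coe_det]
  have he : ℓ ≤ ℓ.comap (g : V →ₗ[F] V) := by
    intro v hv
    show g v ∈ ℓ
    rw [hg v hv]; exact hv
  have h1 := LinearMap.det_eq_det_mul_det ℓ (g : V →ₗ[F] V) he
  have h2 : (g : V →ₗ[F] V).restrict he = LinearMap.id := by
    ext v
    exact hg v v.2
  rw [h2, LinearMap.det_id, one_mul] at h1
  rw [h1]
  rfl

/-- the homomorphism to `SL(V / ℓ)` -/
noncomputable def SLLin_pi [Module.Finite F V] (ℓ : Submodule F V) :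
    HL ℓ →* SLV F (V ⧸ ℓ) where
  toFun g := ⟨SLLin_q ℓ ((g : SLV F V) : V ≃ₗ[F] V) g.2, MonoidHom.mem_ker.2
    ((SLLin_q_det ℓ ((g : SLV F V) : V ≃ₗ[F] V) g.2).trans (MonoidHom.mem_ker.1 (g : SLV F V).2))⟩
  map_one' := by
    apply Subtype.ext
    apply LinearEquiv.ext
    intro v
    obtain ⟨v, rfl⟩ := Submodule.Quotient.mk_surjective _ v
    rfl
  map_mul' := by
    intro a b
    apply Subtype.ext
    apply LinearEquiv.ext
    intro v
    obtain ⟨v, rfl⟩ := Submodule.Quotient.mk_surjective _ v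
    rfl

theorem SLLin_pi_mk [Module.Finite F V] (ℓ : Submodule F V) (g : HL ℓ) (v : V) :
    (SLLin_pi ℓ g : (V ⧸ ℓ) ≃ₗ[F] (V ⧸ ℓ)) (Submodule.Quotient.mk v) =
      Submodule.Quotient.mk (((g : SLV F V) : V ≃ₗ[F] V) v) := rfl

theorem SLLin_surj [Module.Finite F V] (ℓ : Submodule F V) :
    Function.Surjective (SLLin_pi ℓ) := by
  intro h
  obtain ⟨s, hs⟩ := LinearMap.exists_rightInverse_of_surjective ℓ.mkQ (Submodule.range_mkQ ℓ)
  have hs' : ∀ w : V ⧸ ℓ, ℓ.mkQ (s w) = w := fun w => LinearMap.congr_fun hs w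
  let H : (V ⧸ ℓ) ≃ₗ[F] (V ⧸ ℓ) := (h : (V ⧸ ℓ) ≃ₗ[F] (V ⧸ ℓ))
  let f : V →ₗ[F] V := LinearMap.id - s ∘ₗ ℓ.mkQ + s ∘ₗ (H : (V ⧸ ℓ) →ₗ[F] (V ⧸ ℓ)) ∘ₗ ℓ.mkQ
  let f' : V →ₗ[F] V :=
    LinearMap.id - s ∘ₗ ℓ.mkQ + s ∘ₗ (H.symm : (V ⧸ ℓ) →ₗ[F] (V ⧸ ℓ)) ∘ₗ ℓ.mkQ
  have hf : ∀ v, f v = v - s (ℓ.mkQ v) + s (H (ℓ.mkQ v)) := fun v => rfl
  have hf' : ∀ v, f' v = v - s (ℓ.mkQ v) + s (H.symm (ℓ.mkQ v)) := fun v => rfl
  have hq : ∀ v, ℓ.mkQ (f v) = H (ℓ.mkQ v) := by
    intro v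
    rw [hf, map_add, map_sub, hs', hs', sub_self, zero_add]
  have hq' : ∀ v, ℓ.mkQ (f' v) = H.symm (ℓ.mkQ v) := by
    intro v
    rw [hf', map_add, map_sub, hs', hs', sub_self, zero_add]
  have h1 : ∀ v, f (f' v) = v := by
    intro v
    rw [hf, hq', LinearEquiv.apply_symm_apply, hf']
    abel
  have h2 : ∀ v, f' (f v) = v := by
    intro v
    rw [hf', hq, LinearEquiv.symm_apply_apply, hf]
    abel
  let g : V ≃ₗ[F] V := LinearEquiv.ofLinearMap f f' (LinearMap.ext h1) (LinearMap.ext h2)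
  have hg : ∀ v ∈ ℓ, g v = v := by
    intro v hv
    show f v = v
    rw [hf]
    have : ℓ.mkQ v = 0 := (Submodule.Quotient.mk_eq_zero ℓ).2 hv
    rw [this, map_zero, map_zero, map_zero, sub_zero, add_zero]
  have hgq : SLLin_q ℓ g hg = H := by
    apply LinearEquiv.ext
    intro v
    obtain ⟨v, rfl⟩ := Submodule.Quotient.mk_surjective _ v
    rw [SLLin_q_mk]
    exact hq v
  have hgd : g ∈ (LinearEquiv.det : (V ≃ₗ[F] V) →* Fˣ).ker := by
    rw [MonoidHom.mem_ker, ← SLLin_q_det ℓ g hg, hgq]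
    exact h.2
  refine ⟨⟨⟨g, hgd⟩, hg⟩, ?_⟩
  apply Subtype.ext
  exact hgq

theorem SLLin_dual [Module.Finite F V] (h2 : 2 ≤ finrank F V) (φ : V →ₗ[F] F) :
    ∃ (f : V →ₗ[F] F) (w : V), φ w = 0 ∧ f w = 1 := by
  have h1 : LinearMap.ker φ ≠ ⊥ := by
    intro h
    have h3 := LinearMap.finrank_le_finrank_of_injective (LinearMap.ker_eq_bot.1 h)
    rw [finrank_self] at h3
    omega
  obtain ⟨w, hw, hw0⟩ := (Submodule.ne_bot_iff _).1 h1
  have h3 : ¬ ∀ f : Module.Dual F V, f w = 0 := by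
    rw [Module.forall_dual_apply_eq_zero_iff]
    exact hw0
  push Not at h3
  obtain ⟨f, hf⟩ := h3
  refine ⟨(f w)⁻¹ • f, w, hw, ?_⟩
  rw [LinearMap.smul_apply, smul_eq_mul, inv_mul_cancel₀ hf]

theorem SLLin_ker [Module.Finite F V] (ℓ : Submodule F V) (h1 : finrank F ℓ = 1)
    (h3 : 3 ≤ finrank F V) (M : Subgroup (HL ℓ)) [M.Normal]
    (hM : M.map (SLLin_pi ℓ) = ⊤) : M = ⊤ := by
  obtain ⟨e, he0, he⟩ := finrank_eq_one_iff'.1 h1
  have hd : 2 ≤ finrank F (V ⧸ ℓ) := by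
    have := Submodule.finrank_quotient_add_finrank ℓ
    omega
  have hK : (SLLin_pi ℓ).ker ≤ M := by
    intro k hk
    have hk1 : ∀ v : V, ((k : SLV F V) : V ≃ₗ[F] V) v - v ∈ ℓ := by
      intro v
      have := SLLin_pi_mk ℓ k v
      rw [MonoidHom.mem_ker.1 hk] at this
      exact (Submodule.Quotient.eq ℓ).1 this.symm
    -- the coordinate on `ℓ`
    let co : ℓ →ₗ[F] F :=
      (LinearEquiv.toSpanNonzeroSingleton F ℓ e he0).symm.toLinearMap ∘ₗ
        (LinearMap.id.codRestrict (Submodule.span F {e}) (fun v => by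
          obtain ⟨c, hc⟩ := he v
          exact Submodule.mem_span_singleton.2 ⟨c, hc⟩))
    have hco : ∀ v : ℓ, co v • e = v := by
      intro v
      have h5 := LinearEquiv.apply_symm_apply (LinearEquiv.toSpanNonzeroSingleton F ℓ e he0)
        (⟨v, by
          obtain ⟨c, hc⟩ := he v
          exact Submodule.mem_span_singleton.2 ⟨c, hc⟩⟩ : Submodule.span F {e})
      have h6 := congrArg Subtype.val h5
      exact h6
    let d : V →ₗ[F] ℓ := LinearMap.codRestrict ℓ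
      ((((k : SLV F V) : V ≃ₗ[F] V) : V →ₗ[F] V) - LinearMap.id) hk1
    have hdl : ℓ ≤ LinearMap.ker (co ∘ₗ d) := by
      intro v hv
      have h5 : d v = 0 := by
        apply Subtype.ext
        show ((k : SLV F V) : V ≃ₗ[F] V) v - v = 0
        rw [sub_eq_zero]
        exact k.2 v hv
      rw [LinearMap.mem_ker, LinearMap.comp_apply, h5, map_zero]
    let φ : (V ⧸ ℓ) →ₗ[F] F := ℓ.liftQ (co ∘ₗ d) hdl
    have hφ : ∀ v : V, ((k : SLV F V) : V ≃ₗ[F] V) v =
        v + φ (Submodule.Quotient.mk v) • (e : V) := by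
      intro v
      have h5 : φ (Submodule.Quotient.mk v) = co (d v) := rfl
      have h6 := congrArg Subtype.val (hco (d v))
      have h7 : ((co (d v) • e : ℓ) : V) = co (d v) • (e : V) := rfl
      rw [h7] at h6
      rw [h5, h6]
      show _ = v + (((k : SLV F V) : V ≃ₗ[F] V) v - v)
      abel
    obtain ⟨f, w, hw, hfw⟩ := SLLin_dual hd φ
    -- `a` is the element of the kernel with functional `f`
    let F0 : Module.Dual F V := f ∘ₗ ℓ.mkQ
    have hF0 : F0 (e : V) = 0 := by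
      show f (ℓ.mkQ (e : V)) = 0
      rw [show ℓ.mkQ (e : V) = 0 from (Submodule.Quotient.mk_eq_zero ℓ).2 e.2, map_zero]
    let a : HL ℓ := ⟨⟨LinearEquiv.transvection hF0, by
        rw [MonoidHom.mem_ker]
        exact LinearEquiv.transvection.det_eq_one hF0⟩, by
        intro v hv
        show v + F0 v • (e : V) = v
        have : F0 v = 0 := by
          show f (ℓ.mkQ v) = 0
          rw [show ℓ.mkQ v = 0 from (Submodule.Quotient.mk_eq_zero ℓ).2 hv, map_zero]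
        rw [this, zero_smul, add_zero]⟩
    have ha : ∀ v : V, ((a : SLV F V) : V ≃ₗ[F] V) v =
        v + f (Submodule.Quotient.mk v) • (e : V) := fun v => rfl
    let g : SLV F (V ⧸ ℓ) := ⟨LinearEquiv.transvection hw, by
        rw [MonoidHom.mem_ker]
        exact LinearEquiv.transvection.det_eq_one hw⟩
    have hg : g ∈ M.map (SLLin_pi ℓ) := by rw [hM]; trivial
    obtain ⟨m, hm, hmg⟩ := hg
    have hm1 : ∀ v : V, (Submodule.Quotient.mk (((m : SLV F V) : V ≃ₗ[F] V) v) : V ⧸ ℓ) =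
        Submodule.Quotient.mk v + φ (Submodule.Quotient.mk v) • w := by
      intro v
      rw [← SLLin_pi_mk, hmg]
      rfl
    have hme : ((m : SLV F V) : V ≃ₗ[F] V) (e : V) = e := m.2 _ e.2
    have key : m * a * k = a * m := by
      apply Subtype.ext
      apply Subtype.ext
      apply LinearEquiv.ext
      intro v
      show ((m : SLV F V) : V ≃ₗ[F] V) (((a : SLV F V) : V ≃ₗ[F] V)
        (((k : SLV F V) : V ≃ₗ[F] V) v)) =
        ((a : SLV F V) : V ≃ₗ[F] V) (((m : SLV F V) : V ≃ₗ[F] V) v)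
      have h5 : (Submodule.Quotient.mk (((k : SLV F V) : V ≃ₗ[F] V) v) : V ⧸ ℓ) =
          Submodule.Quotient.mk v := (Submodule.Quotient.eq ℓ).2 (hk1 v)
      rw [ha, ha, h5, hm1, hφ v, map_add, map_add, map_smul, map_smul, hme, map_add, map_smul, hfw,
        smul_eq_mul, mul_one, add_smul]
      abel
    have h9 : k = (a⁻¹ * m⁻¹ * a) * m := by
      have : (a⁻¹ * m⁻¹) * (m * a * k) = (a⁻¹ * m⁻¹) * (a * m) := by rw [key]
      calc k = (a⁻¹ * m⁻¹) * (m * a * k) := by group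
        _ = (a⁻¹ * m⁻¹) * (a * m) := this
        _ = _ := by group
    rw [h9]
    apply M.mul_mem _ hm
    have := (inferInstance : M.Normal).conj_mem m⁻¹ (M.inv_mem hm) a⁻¹
    rwa [inv_inv] at this
  rw [eq_top_iff]
  intro x _
  have hx : SLLin_pi ℓ x ∈ M.map (SLLin_pi ℓ) := by rw [hM]; trivial
  obtain ⟨m, hm, hmx⟩ := hx
  have h5 : m⁻¹ * x ∈ M := hK (by rw [MonoidHom.mem_ker, map_mul, map_inv, hmx, inv_mul_cancel])
  have h6 := M.mul_mem hm h5
  rwa [mul_inv_cancel_left] at h6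

end

theorem prf_SLLin : SLLin := by
  intro p hp R hR F V _ _ _ _ _ _ ℓ h1 h3 hG x hx hxl hxv
  have : Finite V := Module.finite_of_finite F
  have : Finite (V ≃ₗ[F] V) :=
    Finite.of_injective (fun e : V ≃ₗ[F] V => (e : V → V)) DFunLike.coe_injective
  have : Finite (SLV F V) := inferInstance
  set X : HL ℓ := ⟨x, hxl⟩ with hX
  have hXo : orderOf X = p := by
    rw [← hx, hX, ← Subgroup.orderOf_coe]
  have hpo : orderOf (SLLin_pi ℓ X) = p := by
    have h5 : SLLin_pi ℓ X ^ p = 1 := by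
      rw [← map_pow, ← hXo, pow_orderOf_eq_one, map_one]
    refine orderOf_eq_prime h5 ?_
    intro h6
    obtain ⟨v, hv⟩ := hxv
    apply hv
    have h7 := SLLin_pi_mk ℓ X v
    rw [h6] at h7
    exact (Submodule.Quotient.eq ℓ).1 h7.symm
  obtain ⟨hRq, hnq⟩ := hG (SLLin_pi ℓ X) hpo
  have hsurj := SLLin_surj (F := F) (V := V) ℓ
  have hM : Subgroup.normalClosure {X} = ⊤ := by
    apply SLLin_ker ℓ h1 h3
    rw [Subgroup.map_normalClosure _ _ hsurj, Set.image_singleton, hnq]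
  have hPz : (Subgroup.zpowers x).subgroupOf (HL ℓ) = Subgroup.zpowers X := by
    ext y
    rw [Subgroup.mem_subgroupOf, Subgroup.mem_zpowers_iff, Subgroup.mem_zpowers_iff]
    constructor
    · rintro ⟨n, hn⟩
      exact ⟨n, Subtype.ext hn⟩
    · rintro ⟨n, hn⟩
      exact ⟨n, congrArg Subtype.val hn⟩
  refine ⟨⟨Subgroup.zpowers x, le_rfl, ?_, ?_⟩, ?_⟩
  · rw [Subgroup.zpowers_le]; exact hxl
  · rw [hPz]
    refine hR.solv (HL ℓ) (Subgroup.zpowers X) (SLLin_pi ℓ).ker ?_ ?_ ?_ ?_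
    · apply IsPGroup.of_card (n := 1)
      rw [Nat.card_zpowers, hXo, pow_one]
    · rw [eq_top_iff, ← hM]
      apply Subgroup.normalClosure_mono
      rw [Set.singleton_subset_iff]
      exact Subgroup.mem_zpowers X
    · apply Group.isSolvable_of_comm
      intro a b
      apply Subtype.ext
      apply Subtype.ext
      apply Subtype.ext
      apply LinearEquiv.ext
      intro v
      have hk : ∀ (k : (SLLin_pi (F := F) (V := V) ℓ).ker) (w : V),
          (((k : HL ℓ) : SLV F V) : V ≃ₗ[F] V) w - w ∈ ℓ := by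
        intro k w
        have := SLLin_pi_mk ℓ (k : HL ℓ) w
        rw [MonoidHom.mem_ker.1 k.2] at this
        exact (Submodule.Quotient.eq ℓ).1 this.symm
      have ha := hk a v
      have hb := hk b v
      have h5 := (b : HL ℓ).2 _ ha
      have h6 := (a : HL ℓ).2 _ hb
      rw [map_sub, sub_eq_iff_eq_add] at h5 h6
      show (((a : HL ℓ) : SLV F V) : V ≃ₗ[F] V) ((((b : HL ℓ) : SLV F V) : V ≃ₗ[F] V) v) =
        (((b : HL ℓ) : SLV F V) : V ≃ₗ[F] V) ((((a : HL ℓ) : SLV F V) : V ≃ₗ[F] V) v)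
      rw [h5, h6]
      abel
    · have h5 := hR.rel.iso (SLV F (V ⧸ ℓ)) (HL ℓ ⧸ (SLLin_pi (F := F) (V := V) ℓ).ker)
        (QuotientGroup.quotientKerEquivOfSurjective (SLLin_pi ℓ) hsurj).symm _ hRq
      rw [MonoidHom.map_zpowers] at h5 ⊢
      convert h5 using 2
      show _ = (QuotientGroup.quotientKerEquivOfSurjective (SLLin_pi ℓ) hsurj).symm (SLLin_pi ℓ X)
      rw [MulEquiv.eq_symm_apply]
      rfl
  · have h5 : (Subgroup.normalClosure {X}).map (HL ℓ).subtype ≤ Subgroup.normalClosure {x} := by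
      rw [Subgroup.map_le_iff_le_comap]
      apply Subgroup.normalClosure_le_normal
      rw [Set.singleton_subset_iff]
      exact Subgroup.subset_normalClosure rfl
    intro g hg
    apply h5
    refine ⟨⟨g, hg⟩, ?_, rfl⟩
    rw [hM]
    trivial

end MP7b0bad.SL
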