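import Pool.Agent.Work.MP_7b0bad_ag.SL.Stmts
import Pool.Agent.Work.MP_7b0bad_ag.MT.MQp

set_option autoImplicit false

/-!
# Item SLQuo: `Rel k` is compatible with quotients
-/

namespace MP7b0bad.SL

theorem prf_SLQuo : SLQuo := by
  intro k _ _ p _ _ G _ _ P N _ hR
  exact MT.MQp_VQuo.1 k p G (G ⧸ N) (QuotientGroup.mk' N) P (QuotientGroup.mk'_surjective N) hR

end MP7b0bad.SL
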