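import Pool.Agent.Work.MP_7b0bad_ag.SL.Stmts
import Pool.Agent.Work.MP_7b0bad_ag.Ad.LRz

set_option autoImplicit false

/-!
# Block SL, item SLSd (helper70): the seed for `Rel k`
-/

namespace MP7b0bad.SL

theorem SLSd_cl (F : Type) [Field F] :
    Subgroup.closure (Set.range (MT.u2 (F := F))) = Ad.U2 F := by
  have h : Set.range (MT.u2 (F := F)) = (Ad.U2 F : Set (Matrix.SpecialLinearGroup (Fin 2) F)) := rfl
  rw [h, Subgroup.closure_eq]

theorem prf_SLSd (hAd : MT.AdMain) (hRel : MW.WRel) : SLSd := by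
  intro k _ _ p _ _ F _ _ _
  obtain ⟨-, h1, h2⟩ := Ad.prf_LRz hAd p k F 1
  have e : (MT.h2 (1 : Fˣ) : Matrix.SpecialLinearGroup (Fin 2) F) = 1 := map_one (Ad.LRz_hom F)
  rw [e, Subgroup.zpowers_one_eq_bot, sup_bot_eq] at h2
  have h3 := (hRel k p).rel.iso _ _ Subgroup.topEquiv _ h2
  rw [SLSd_cl]
  have h4 : ((Ad.U2 F).subgroupOf ⊤).map
      (Subgroup.topEquiv (G := Matrix.SpecialLinearGroup (Fin 2) F)).toMonoidHom = Ad.U2 F := by
    ext x
    constructor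
    · rintro ⟨y, hy, rfl⟩
      exact hy
    · intro hx
      exact ⟨⟨x, Subgroup.mem_top x⟩, hx, rfl⟩
  rw [h4] at h3
  exact h3

end MP7b0bad.SL
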