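import Pool.Agent.Work.MP_7b0bad_ag.SL.Stmts

set_option autoImplicit false

/-!
# Block SL, item SLX: `p`-groups with an invariant subspace, characteristic different from `p`
-/

namespace MP7b0bad.SL

open Module

/-! ### transvections -/

section

variable {F V : Type} [Field F] [AddCommGroup V] [Module F V]

theorem SLX_ext (a b : SLV F V) (h : ∀ x : V, (a : V ≃ₗ[F] V) x = (b : V ≃ₗ[F] V) x) : a = b :=
  Subtype.ext (LinearEquiv.ext h)

theorem SLX_mul_apply (a b : SLV F V) (x : V) :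
    ((a * b : SLV F V) : V ≃ₗ[F] V) x = (a : V ≃ₗ[F] V) ((b : V ≃ₗ[F] V) x) := rfl

theorem SLX_inv_apply (a : SLV F V) (x : V) :
    ((a⁻¹ : SLV F V) : V ≃ₗ[F] V) x = (a : V ≃ₗ[F] V).symm x := rfl

variable [Module.Finite F V]

/-- the transvection `x ↦ x + f x • v` -/
noncomputable def SLX_t (f : Dual F V) (v : V) (h : f v = 0) : SLV F V :=
  ⟨LinearEquiv.transvection h, by
    rw [MonoidHom.mem_ker]
    exact LinearEquiv.transvection.det_eq_one h⟩

omit [Module.Finite F V] in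
theorem SLX_t_apply (f : Dual F V) (v : V) (h : f v = 0) (x : V) :
    ((SLX_t f v h : SLV F V) : V ≃ₗ[F] V) x = x + f x • v :=
  LinearEquiv.transvection.apply h x

theorem SLX_conj (g : SLV F V) (f : Dual F V) (v : V) (h : f v = 0) (f' : Dual F V) (v' : V)
    (h' : f' v' = 0) (hf : ∀ x, f' ((g : V ≃ₗ[F] V) x) = f x) (hv : (g : V ≃ₗ[F] V) v = v') :
    g * SLX_t f v h * g⁻¹ = SLX_t f' v' h' := by
  rw [mul_inv_eq_iff_eq_mul]
  apply SLX_ext
  intro x
  rw [SLX_mul_apply, SLX_mul_apply, SLX_t_apply, SLX_t_apply, map_add, map_smul, hf, hv]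

theorem SLX_add (f : Dual F V) (v w : V) (hv : f v = 0) (hw : f w = 0) (hvw : f (v + w) = 0) :
    SLX_t f v hv * SLX_t f w hw = SLX_t f (v + w) hvw := by
  apply SLX_ext
  intro x
  rw [SLX_mul_apply, SLX_t_apply, SLX_t_apply, SLX_t_apply, map_add, map_smul, hw, smul_zero,
    add_zero, smul_add]
  abel

theorem SLX_inv (f : Dual F V) (v : V) (hv : f v = 0) (hv' : f (-v) = 0) :
    (SLX_t f v hv)⁻¹ = SLX_t f (-v) hv' := by
  rw [inv_eq_iff_mul_eq_one]
  apply SLX_ext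
  intro x
  rw [SLX_mul_apply, SLX_t_apply, SLX_t_apply, map_add, map_smul, hv']
  change x + f x • -v + (f x + f x • 0) • v = x
  rw [smul_zero, add_zero, smul_neg]
  abel

/-- the commutator of `g` and a transvection with `f ∘ g = f` -/
theorem SLX_comm (g : SLV F V) (f : Dual F V) (v : V) (h : f v = 0)
    (hf : ∀ x, f ((g : V ≃ₗ[F] V) x) = f x) (h' : f ((g : V ≃ₗ[F] V) v - v) = 0) :
    g * SLX_t f v h * g⁻¹ * (SLX_t f v h)⁻¹ = SLX_t f ((g : V ≃ₗ[F] V) v - v) h' := by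
  rw [SLX_conj g f v h f _ (by rw [hf, h]) hf rfl, mul_inv_eq_iff_eq_mul, SLX_add f _ _ _ _
    (by rw [sub_add_cancel, hf, h])]
  congr 1
  rw [sub_add_cancel]

end

/-! ### the matrix group -/

section

variable {ι F : Type} [Fintype ι] [DecidableEq ι] [Field F]

theorem SLX_mcomm (i l j : ι) (hil : i ≠ l) (hlj : l ≠ j) (hij : i ≠ j) (x y : F) :
    Matrix.SpecialLinearGroup.transvection hil x * Matrix.SpecialLinearGroup.transvection hlj y *
      (Matrix.SpecialLinearGroup.transvection hil x)⁻¹ *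
      (Matrix.SpecialLinearGroup.transvection hlj y)⁻¹ =
      Matrix.SpecialLinearGroup.transvection hij (x * y) := by
  rw [Matrix.SpecialLinearGroup.transvection_inv, Matrix.SpecialLinearGroup.transvection_inv]
  apply Subtype.ext
  show Matrix.transvection i l x * Matrix.transvection l j y * Matrix.transvection i l (-x) *
    Matrix.transvection l j (-y) = Matrix.transvection i j (x * y)
  unfold Matrix.transvection
  rw [J4_neg i l, J4_neg l j]
  simp only [mul_add, add_mul, mul_one, one_mul, mul_neg, neg_mul,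
    Matrix.single_mul_single_same, J4_sn hil.symm, J4_sn hlj.symm, J4_sn hij.symm,
    zero_mul]
  abel

/-- a normal subgroup that contains a transvection, `n ≥ 3` -/
theorem SLX_normal (H : Subgroup (Matrix.SpecialLinearGroup ι F)) (hn : H.Normal) (i j : ι)
    (hij : i ≠ j) (h : Matrix.SpecialLinearGroup.transvection hij (1 : F) ∈ H)
    (hcard : 3 ≤ Fintype.card ι) : ∀ s : Matrix.SpecialLinearGroup ι F, s ∈ H := by
  have : Nontrivial ι := ⟨⟨i, j, hij⟩⟩
  have hthird : ∀ a b : ι, ∃ k, k ≠ a ∧ k ≠ b := by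
    intro a b
    by_contra hcon
    push Not at hcon
    have h1 : (Finset.univ : Finset ι) ⊆ {a, b} := by
      intro k _
      rw [Finset.mem_insert, Finset.mem_singleton]
      by_cases hk : k = a
      · exact Or.inl hk
      · exact Or.inr (hcon k hk)
    have h2 := Finset.card_le_card h1
    have h3 : ({a, b} : Finset ι).card ≤ 2 := Finset.card_le_two
    rw [Finset.card_univ] at h2
    omega
  -- commutators with elements of `H`
  have hc1 : ∀ (a l b : ι) (hal : a ≠ l) (hlb : l ≠ b) (hab : a ≠ b) (x y : F),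
      Matrix.SpecialLinearGroup.transvection hal x ∈ H →
      Matrix.SpecialLinearGroup.transvection hab (x * y) ∈ H := by
    intro a l b hal hlb hab x y hx
    rw [← SLX_mcomm a l b hal hlb hab x y]
    have h1 := hn.conj_mem _ (H.inv_mem hx) (Matrix.SpecialLinearGroup.transvection hlb y)
    have h2 := H.mul_mem hx h1
    rwa [← mul_assoc, ← mul_assoc] at h2
  have hc2 : ∀ (a l b : ι) (hal : a ≠ l) (hlb : l ≠ b) (hab : a ≠ b) (x y : F),
      Matrix.SpecialLinearGroup.transvection hlb y ∈ H →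
      Matrix.SpecialLinearGroup.transvection hab (x * y) ∈ H := by
    intro a l b hal hlb hab x y hx
    rw [← SLX_mcomm a l b hal hlb hab x y]
    exact H.mul_mem (hn.conj_mem _ hx _) (H.inv_mem hx)
  -- row `i`
  have hrow1 : ∀ (k : ι) (hik : i ≠ k), k ≠ j → ∀ x : F,
      Matrix.SpecialLinearGroup.transvection hik x ∈ H := by
    intro k hik hkj x
    have := hc1 i j k hij hkj.symm hik 1 x h
    rwa [one_mul] at this
  have hrow : ∀ (k : ι) (hik : i ≠ k) (x : F),
      Matrix.SpecialLinearGroup.transvection hik x ∈ H := by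
    intro k hik x
    by_cases hkj : k = j
    · subst hkj
      obtain ⟨l, hl1, hl2⟩ := hthird i k
      have := hc1 i l k hl1.symm hl2 hik x 1 (hrow1 l hl1.symm hl2 x)
      rwa [mul_one] at this
    · exact hrow1 k hik hkj x
  have hab : ∀ (a b : ι) (hab : a ≠ b), a ≠ i → b ≠ i → ∀ x : F,
      Matrix.SpecialLinearGroup.transvection hab x ∈ H := by
    intro a b hab hai hbi x
    have := hc2 a i b hai hbi.symm hab 1 x (hrow b hbi.symm x)
    rwa [one_mul] at this
  refine J4_gen H ?_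
  intro a b hab' x
  by_cases hai : a = i
  · subst hai
    exact hrow b hab' x
  · by_cases hbi : b = i
    · subst hbi
      obtain ⟨l, hl1, hl2⟩ := hthird a b
      have := hc1 a l b hl1.symm hl2 hab' x 1 (hab a l hl1.symm hai hl2 x)
      rwa [mul_one] at this
    · exact hab a b hab' hai hbi x

/-- generation by block unipotent elements -/
theorem SLX_block {ι₁ ι₂ : Type} [Fintype ι₁] [DecidableEq ι₁] [Fintype ι₂] [DecidableEq ι₂]
    [Nonempty ι₁] [Nonempty ι₂] (H : Subgroup (Matrix.SpecialLinearGroup (ι₁ ⊕ ι₂) F))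
    (h1 : ∀ (i : ι₁) (j : ι₂) (x : F), Matrix.SpecialLinearGroup.transvection
      (show (Sum.inl i : ι₁ ⊕ ι₂) ≠ Sum.inr j from Sum.inl_ne_inr) x ∈ H)
    (h2 : ∀ (i : ι₁) (j : ι₂) (x : F), Matrix.SpecialLinearGroup.transvection
      (show (Sum.inr j : ι₁ ⊕ ι₂) ≠ Sum.inl i from Sum.inr_ne_inl) x ∈ H) :
    ∀ s : Matrix.SpecialLinearGroup (ι₁ ⊕ ι₂) F, s ∈ H := by
  have i0 : ι₁ := Classical.arbitrary ι₁
  have j0 : ι₂ := Classical.arbitrary ι₂
  have : Nontrivial (ι₁ ⊕ ι₂) := ⟨⟨Sum.inl i0, Sum.inr j0, Sum.inl_ne_inr⟩⟩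
  refine J4_gen H ?_
  rintro (i | i) (j | j) hij x
  · have e := SLX_mcomm (Sum.inl i : ι₁ ⊕ ι₂) (Sum.inr j0) (Sum.inl j) Sum.inl_ne_inr
      Sum.inr_ne_inl hij x 1
    rw [mul_one] at e
    rw [← e]
    exact H.mul_mem (H.mul_mem (H.mul_mem (h1 i j0 x) (h2 j j0 1)) (H.inv_mem (h1 i j0 x)))
      (H.inv_mem (h2 j j0 1))
  · exact h1 i j x
  · exact h2 j i x
  · have e := SLX_mcomm (Sum.inr i : ι₁ ⊕ ι₂) (Sum.inl i0) (Sum.inr j) Sum.inr_ne_inl
      Sum.inl_ne_inr hij x 1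
    rw [mul_one] at e
    rw [← e]
    exact H.mul_mem (H.mul_mem (H.mul_mem (h2 i0 i x) (h1 i0 j 1)) (H.inv_mem (h2 i0 i x)))
      (H.inv_mem (h1 i0 j 1))

end

/-! ### from matrices to linear maps -/

section

variable {ι F V : Type} [Fintype ι] [DecidableEq ι] [Field F] [AddCommGroup V] [Module F V]
  [Module.Finite F V]

/-- the isomorphism given by a basis -/
noncomputable def SLX_Φ (b : Basis ι F V) : Matrix.SpecialLinearGroup ι F →* SLV F V where
  toFun g := ⟨(Matrix.SpecialLinearGroup.toLin_equiv b g).1,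
    MonoidHom.mem_ker.2 (Matrix.SpecialLinearGroup.toLin_equiv b g).2⟩
  map_one' := by
    apply Subtype.ext
    exact congrArg Subtype.val (map_one (Matrix.SpecialLinearGroup.toLin_equiv b))
  map_mul' g h := by
    apply Subtype.ext
    exact congrArg Subtype.val (map_mul (Matrix.SpecialLinearGroup.toLin_equiv b) g h)

omit [Module.Finite F V] in
theorem SLX_Φ_surj (b : Basis ι F V) : Function.Surjective (SLX_Φ (F := F) b) := by
  intro g
  obtain ⟨s, hs⟩ := (Matrix.SpecialLinearGroup.toLin_equiv b).surjective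
    ⟨g.1, MonoidHom.mem_ker.1 g.2⟩
  refine ⟨s, Subtype.ext ?_⟩
  change (Matrix.SpecialLinearGroup.toLin_equiv b s).1 = g.1
  rw [hs]

theorem SLX_Φ_t (b : Basis ι F V) (i j : ι) (hij : i ≠ j) (c : F)
    (h : (c • b.coord j) (b i) = 0) :
    SLX_Φ b (Matrix.SpecialLinearGroup.transvection hij c) = SLX_t (c • b.coord j) (b i) h := by
  have h1 : ((SLX_Φ b (Matrix.SpecialLinearGroup.transvection hij c)).1 : V →ₗ[F] V) =
      ((SLX_t (c • b.coord j) (b i) h).1 : V →ₗ[F] V) := by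
    refine b.ext fun k => ?_
    change (Matrix.toLin b b (Matrix.transvection i j c)) (b k) =
      ((SLX_t (c • b.coord j) (b i) h : SLV F V) : V ≃ₗ[F] V) (b k)
    rw [SLX_t_apply, Matrix.toLin_self, Matrix.transvection]
    simp only [Matrix.add_apply, add_smul, Finset.sum_add_distrib, Matrix.one_apply,
      Matrix.single_apply, ite_smul, one_smul, zero_smul, Finset.sum_ite_eq', Finset.mem_univ,
      if_true, LinearMap.smul_apply, Basis.coord_apply, Basis.repr_self, smul_eq_mul]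
    congr 1
    by_cases hk : j = k
    · subst hk
      simp
    · rw [Finsupp.single_apply, if_neg (Ne.symm hk)]
      simp [hk]
  exact Subtype.ext (LinearEquiv.toLinearMap_injective h1)

/-- generation by the transvections of a basis -/
theorem SLX_gen (b : Basis ι F V) (H : Subgroup (SLV F V))
    (h : ∀ s : Matrix.SpecialLinearGroup ι F, s ∈ H.comap (SLX_Φ b)) : H = ⊤ := by
  rw [eq_top_iff]
  intro g _
  obtain ⟨s, rfl⟩ := SLX_Φ_surj b g
  exact h s

end


/-! ### the unipotent group of a subspace -/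

section

variable {F V : Type} [Field F] [AddCommGroup V] [Module F V]

/-- the elements that are trivial on `W` and on `V / W` -/
noncomputable def SLX_U (W : Submodule F V) : Subgroup (SLV F V) where
  carrier := {g | (∀ w ∈ W, (g : V ≃ₗ[F] V) w = w) ∧ ∀ v : V, (g : V ≃ₗ[F] V) v - v ∈ W}
  one_mem' := by
    refine ⟨fun _ _ => rfl, fun v => ?_⟩
    simp
  mul_mem' := by
    rintro a b ⟨ha1, ha2⟩ ⟨hb1, hb2⟩
    refine ⟨fun w hw => ?_, fun v => ?_⟩
    · rw [SLX_mul_apply, hb1 w hw, ha1 w hw]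
    · rw [SLX_mul_apply]
      have h1 := W.add_mem (ha2 ((b : V ≃ₗ[F] V) v)) (hb2 v)
      rwa [sub_add_sub_cancel] at h1
  inv_mem' := by
    rintro a ⟨ha1, ha2⟩
    refine ⟨fun w hw => ?_, fun v => ?_⟩
    · rw [SLX_inv_apply, LinearEquiv.symm_apply_eq, ha1 w hw]
    · rw [SLX_inv_apply]
      have h1 := W.neg_mem (ha2 ((a : V ≃ₗ[F] V).symm v))
      rwa [LinearEquiv.apply_symm_apply, neg_sub] at h1

theorem SLX_mem_U (W : Submodule F V) (g : SLV F V) : g ∈ SLX_U W ↔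
    (∀ w ∈ W, (g : V ≃ₗ[F] V) w = w) ∧ ∀ v : V, (g : V ≃ₗ[F] V) v - v ∈ W := Iff.rfl

theorem SLX_U_pow (W : Submodule F V) (g : SLV F V) (hg : g ∈ SLX_U W) (m : ℕ) (v : V) :
    ((g ^ m : SLV F V) : V ≃ₗ[F] V) v = v + (m : F) • ((g : V ≃ₗ[F] V) v - v) := by
  induction m with
  | zero =>
    rw [pow_zero, Nat.cast_zero, zero_smul, add_zero]
    rfl
  | succ m ih =>
    rw [pow_succ', SLX_mul_apply, ih, map_add, map_smul, hg.1 _ (hg.2 v), Nat.cast_succ, add_smul,
      one_smul]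
    abel

theorem SLX_U_card (p : ℕ) [Fact p.Prime] [Finite F] [Finite V] (hp : (p : F) ≠ 0)
    (W : Submodule F V) : ¬ p ∣ Nat.card (SLX_U W) := by
  have : Finite (SLV F V) := Finite.of_injective
    (fun g : SLV F V => fun v : V => (g : V ≃ₗ[F] V) v) (fun a b hab => SLX_ext a b (congrFun hab))
  obtain ⟨r, hr⟩ := CharP.exists F
  have hrp : r.Prime := CharP.char_is_prime F r
  have : Fact r.Prime := ⟨hrp⟩
  have hpg : IsPGroup r (SLX_U W) := by
    rintro ⟨g, hg⟩
    refine ⟨1, Subtype.ext (SLX_ext _ _ fun x => ?_)⟩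
    change ((g ^ r ^ 1 : SLV F V) : V ≃ₗ[F] V) x = x
    rw [pow_one, SLX_U_pow W g hg, CharP.cast_eq_zero, zero_smul, add_zero]
  obtain ⟨k, hk⟩ := hpg.exists_card_eq
  rw [hk]
  intro hdvd
  have h1 := (Fact.out : p.Prime).dvd_of_dvd_pow hdvd
  rw [Nat.prime_dvd_prime_iff_eq (Fact.out : p.Prime) hrp] at h1
  apply hp
  rw [h1]
  exact CharP.cast_eq_zero F r

theorem SLX_U_conj (W : Submodule F V) (g a : SLV F V) (hg : ∀ w ∈ W, (g : V ≃ₗ[F] V) w ∈ W)
    (hg' : ∀ w ∈ W, ((g⁻¹ : SLV F V) : V ≃ₗ[F] V) w ∈ W) (ha : a ∈ SLX_U W) :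
    g * a * g⁻¹ ∈ SLX_U W := by
  refine ⟨fun w hw => ?_, fun v => ?_⟩
  · rw [SLX_mul_apply, SLX_mul_apply, ha.1 _ (hg' w hw)]
    exact LinearEquiv.apply_symm_apply _ w
  · rw [SLX_mul_apply, SLX_mul_apply]
    have h1 := hg _ (ha.2 (((g⁻¹ : SLV F V) : V ≃ₗ[F] V) v))
    rw [map_sub] at h1
    have h2 : (g : V ≃ₗ[F] V) (((g⁻¹ : SLV F V) : V ≃ₗ[F] V) v) = v :=
      LinearEquiv.apply_symm_apply _ v
    rwa [h2] at h1

/-- the unipotent group normalises `Γ` -/
theorem SLX_norm (p : ℕ) [Fact p.Prime] [Finite (SLV F V)]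
    (Q : Subgroup (SLV F V)) (hQ : IsPGroup p Q) (U : Subgroup (SLV F V))
    (hU : ¬ p ∣ Nat.card U) (hQU : ∀ q ∈ Q, ∀ a ∈ U, q * a * q⁻¹ ∈ U) :
    ∀ a ∈ U, ∀ x ∈ Gam p Q, a * x * a⁻¹ ∈ Gam p Q := by
  obtain ⟨hN1, hN2, -, hN4⟩ := all_HNor p (SLV F V) Q hQ
  have h4 := hN4 U Q le_rfl hU hQU
  obtain ⟨hC, -, -⟩ := all_GCop p (SLV F V) U Q hU hQ hQU
  have hQn : Q ≤ Subgroup.normalizer (U : Set (SLV F V)) := by
    intro q hq
    rw [Subgroup.mem_normalizer_iff]
    intro a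
    refine ⟨hQU q hq a, fun h => ?_⟩
    have h1 := hQU q⁻¹ (Q.inv_mem hq) _ h
    have e : q⁻¹ * (q * a * q⁻¹) * q⁻¹⁻¹ = a := by group
    rwa [e] at h1
  have hsub : nclIn (U ⊔ Q) Q ≤ Gam p Q := by
    unfold nclIn
    rw [Subgroup.closure_le]
    rintro _ ⟨x, hx, q, hq, rfl⟩
    have hx' : x ∈ (↑(U ⊔ Q) : Set (SLV F V)) := hx
    rw [Subgroup.coe_mul_of_right_le_normalizer_left U Q hQn, Set.mem_mul] at hx'
    obtain ⟨a, ha, q', hq', rfl⟩ := hx'
    have h1 := h4 a⁻¹ (U.inv_mem ha) (q' * q * q'⁻¹)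
      (Q.mul_mem (Q.mul_mem hq' hq) (Q.inv_mem hq'))
    have h2 := (Gam p Q).mul_mem h1 (hN1 (Q.mul_mem (Q.mul_mem hq' hq) (Q.inv_mem hq')))
    have e : a⁻¹⁻¹ * (q' * q * q'⁻¹) * a⁻¹ * (q' * q * q'⁻¹)⁻¹ * (q' * q * q'⁻¹) =
        a * q' * q * (a * q')⁻¹ := by group
    rwa [e] at h2
  intro a ha x hx
  obtain ⟨d, hd, c, -, hc, rfl⟩ := hC a ha
  have h1 := hN2 c hc x hx
  have h2 := (Gam p Q).mul_mem ((Gam p Q).mul_mem (hsub hd) h1) ((Gam p Q).inv_mem (hsub hd))
  have e : d * (c * x * c⁻¹) * d⁻¹ = d * c * x * (d * c)⁻¹ := by group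
  rwa [e] at h2

/-- Maschke -/
theorem SLX_maschke (p : ℕ) [Fact p.Prime] [Finite (SLV F V)] (hp : (p : F) ≠ 0)
    (Q : Subgroup (SLV F V)) (hQ : IsPGroup p Q) (W : Submodule F V)
    (hW : ∀ g ∈ Q, ∀ w ∈ W, (g : V ≃ₗ[F] V) w ∈ W) :
    ∃ W' : Submodule F V, IsCompl W W' ∧ ∀ g ∈ Q, ∀ w ∈ W', (g : V ≃ₗ[F] V) w ∈ W' := by
  classical
  have : Fintype Q := Fintype.ofFinite Q
  have hcard : ((Fintype.card Q : ℕ) : F) ≠ 0 := by
    obtain ⟨k, hk⟩ := hQ.exists_card_eq
    rw [← Nat.card_eq_fintype_card, hk, Nat.cast_pow]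
    exact pow_ne_zero _ hp
  obtain ⟨π, hπ⟩ := LinearMap.exists_leftInverse_of_injective W.subtype
    (by rw [Submodule.ker_subtype])
  have hπ' : ∀ w ∈ W, (π w : V) = w := by
    intro w hw
    have := LinearMap.congr_fun hπ ⟨w, hw⟩
    exact congrArg Subtype.val this
  obtain ⟨P, hPdef⟩ : ∃ P : V →ₗ[F] V, P = ((Fintype.card Q : ℕ) : F)⁻¹ • ∑ q : Q,
    (((q⁻¹ : Q) : SLV F V) : V ≃ₗ[F] V).toLinearMap ∘ₗ (W.subtype ∘ₗ π) ∘ₗ
      ((q : SLV F V) : V ≃ₗ[F] V).toLinearMap := ⟨_, rfl⟩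
  have hPa : ∀ x, P x = ((Fintype.card Q : ℕ) : F)⁻¹ • ∑ q : Q,
      (((q⁻¹ : Q) : SLV F V) : V ≃ₗ[F] V) (π (((q : SLV F V) : V ≃ₗ[F] V) x) : V) := by
    intro x
    rw [hPdef, LinearMap.smul_apply, LinearMap.sum_apply]
    rfl
  have hPW : ∀ x, P x ∈ W := by
    intro x
    rw [hPa]
    exact W.smul_mem _ (W.sum_mem fun q _ => hW _ (q⁻¹).2 _ (π _).2)
  have hPid : ∀ w ∈ W, P w = w := by
    intro w hw
    rw [hPa]
    have h1 : ∀ q : Q, (((q⁻¹ : Q) : SLV F V) : V ≃ₗ[F] V)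
        (π (((q : SLV F V) : V ≃ₗ[F] V) w) : V) = w := by
      intro q
      rw [hπ' _ (hW _ q.2 w hw)]
      exact LinearEquiv.symm_apply_apply _ w
    rw [Finset.sum_congr rfl fun q _ => h1 q, Finset.sum_const, Finset.card_univ,
      ← Nat.cast_smul_eq_nsmul F, smul_smul, inv_mul_cancel₀ hcard, one_smul]
  have hPe : ∀ g ∈ Q, ∀ x, P ((g : V ≃ₗ[F] V) x) = (g : V ≃ₗ[F] V) (P x) := by
    intro g hg x
    rw [hPa, hPa, map_smul, map_sum]
    congr 1
    have h1 := Equiv.sum_comp (Equiv.mulRight (⟨g, hg⟩ : Q)) (fun q : Q =>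
      (g : V ≃ₗ[F] V) ((((q⁻¹ : Q) : SLV F V) : V ≃ₗ[F] V)
        (π (((q : SLV F V) : V ≃ₗ[F] V) x) : V)))
    rw [← h1]
    refine Finset.sum_congr rfl fun q _ => ?_
    have h2 : (g : V ≃ₗ[F] V) (((((q * ⟨g, hg⟩)⁻¹ : Q) : SLV F V) : V ≃ₗ[F] V)
        (π ((((q * ⟨g, hg⟩ : Q) : SLV F V) : V ≃ₗ[F] V) x) : V)) =
        ((g * ((q : SLV F V) * g)⁻¹ : SLV F V) : V ≃ₗ[F] V)
          (π (((q : SLV F V) : V ≃ₗ[F] V) ((g : V ≃ₗ[F] V) x)) : V) := rfl
    have h3 : g * ((q : SLV F V) * g)⁻¹ = (q : SLV F V)⁻¹ := by group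
    change _ = (g : V ≃ₗ[F] V) (((((q * ⟨g, hg⟩)⁻¹ : Q) : SLV F V) : V ≃ₗ[F] V)
        (π ((((q * ⟨g, hg⟩ : Q) : SLV F V) : V ≃ₗ[F] V) x) : V))
    rw [h2, h3]
    rfl
  let P' : V →ₗ[F] W := P.codRestrict W hPW
  refine ⟨LinearMap.ker P', LinearMap.isCompl_of_proj (fun w => Subtype.ext (hPid _ w.2)), ?_⟩
  intro g hg w hw
  rw [LinearMap.mem_ker] at hw ⊢
  have h1 : P w = 0 := congrArg Subtype.val hw
  apply Subtype.ext
  change P ((g : V ≃ₗ[F] V) w) = 0
  rw [hPe g hg, h1, map_zero]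

end


/-! ### the theorem -/

section

variable {F V : Type} [Field F] [AddCommGroup V] [Module F V] [Module.Finite F V]

theorem SLX_t_U (W : Submodule F V) (f : Dual F V) (v : V) (h : f v = 0)
    (hf : ∀ w ∈ W, f w = 0) (hv : v ∈ W) : SLX_t f v h ∈ SLX_U W := by
  refine ⟨fun w hw => ?_, fun x => ?_⟩
  · rw [SLX_t_apply, hf w hw, zero_smul, add_zero]
  · rw [SLX_t_apply, add_sub_cancel_left]
    exact W.smul_mem _ hv

/-- the commutators of a diagonal element with a root group are the root group -/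
theorem SLX_two (W : Submodule F V) (Γ : Subgroup (SLV F V)) (q : SLV F V)
    (hΓ : ∀ a ∈ SLX_U W, a⁻¹ * q * a * q⁻¹ ∈ Γ) (f : Dual F V) (v : V)
    (hf : ∀ w ∈ W, f w = 0) (hv : v ∈ W) (α β : F) (hα : (q : V ≃ₗ[F] V) v = α • v)
    (hβ : ∀ x, f ((q : V ≃ₗ[F] V) x) = β * f x) (hne : α ≠ β) (hβ0 : β ≠ 0) (c : F)
    (h : (c • f) v = 0) : SLX_t (c • f) v h ∈ Γ := by
  have hfv : f v = 0 := hf v hv
  have hsub : α - β ≠ 0 := sub_ne_zero.2 hne
  obtain ⟨d, hd⟩ : ∃ d : F, d = c * β / (α - β) := ⟨_, rfl⟩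
  have hdv : (d • f) v = 0 := by
    rw [LinearMap.smul_apply, hfv, smul_zero]
  have hdv' : ((d * β⁻¹) • f) (α • v) = 0 := by
    rw [LinearMap.smul_apply, map_smul, hfv, smul_zero, smul_zero]
  have h1 := hΓ (SLX_t (d • f) v hdv) (SLX_t_U W _ v hdv (by
    intro w hw
    rw [LinearMap.smul_apply, hf w hw, smul_zero]) hv)
  have h2 : q * SLX_t (d • f) v hdv * q⁻¹ = SLX_t ((d * β⁻¹) • f) (α • v) hdv' := by
    refine SLX_conj q _ v hdv _ _ hdv' ?_ hα
    intro x
    rw [LinearMap.smul_apply, LinearMap.smul_apply, hβ, smul_eq_mul, smul_eq_mul]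
    field_simp
  have h3 : (SLX_t (d • f) v hdv)⁻¹ * q * SLX_t (d • f) v hdv * q⁻¹ = SLX_t (c • f) v h := by
    have e : (SLX_t (d • f) v hdv)⁻¹ * q * SLX_t (d • f) v hdv * q⁻¹ =
        (SLX_t (d • f) v hdv)⁻¹ * (q * SLX_t (d • f) v hdv * q⁻¹) := by group
    rw [e, h2, inv_mul_eq_iff_eq_mul]
    apply SLX_ext
    intro x
    rw [SLX_mul_apply, SLX_t_apply, SLX_t_apply, SLX_t_apply]
    simp only [LinearMap.smul_apply, map_add, map_smul, hfv, smul_eq_mul, mul_zero, add_zero,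
      smul_smul, add_assoc]
    rw [← add_smul]
    congr 2
    rw [hd]
    field_simp
    ring
  rw [← h3]
  exact h1

end

theorem prf_SLX : SLX := by
  intro p _ F V _ _ _ _ _ Q W hp hQ hns hW0 hW1 hWQ
  classical
  have hfV : Finite V := Module.finite_of_finite F
  have hfS : Finite (SLV F V) := Finite.of_injective
    (fun g : SLV F V => fun v : V => (g : V ≃ₗ[F] V) v) (fun a b hab => SLX_ext a b (congrFun hab))
  obtain ⟨W', hc, hWQ'⟩ := SLX_maschke p hp Q hQ W hWQ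
  obtain ⟨hN1, hN2, -, hN4⟩ := all_HNor p (SLV F V) Q hQ
  -- the two unipotent groups
  have hU1 : ∀ q ∈ Q, ∀ a ∈ SLX_U W, q * a * q⁻¹ ∈ SLX_U W := fun q hq a ha =>
    SLX_U_conj W q a (hWQ q hq) (hWQ q⁻¹ (Q.inv_mem hq)) ha
  have hU2 : ∀ q ∈ Q, ∀ a ∈ SLX_U W', q * a * q⁻¹ ∈ SLX_U W' := fun q hq a ha =>
    SLX_U_conj W' q a (hWQ' q hq) (hWQ' q⁻¹ (Q.inv_mem hq)) ha
  have hC1 := hN4 (SLX_U W) Q le_rfl (SLX_U_card p hp W) hU1
  have hC2 := hN4 (SLX_U W') Q le_rfl (SLX_U_card p hp W') hU2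
  have hM1 := SLX_norm p Q hQ (SLX_U W) (SLX_U_card p hp W) hU1
  have hM2 := SLX_norm p Q hQ (SLX_U W') (SLX_U_card p hp W') hU2
  obtain ⟨Γ, hΓ⟩ : ∃ Γ : Subgroup (SLV F V), Γ = Gam p Q := ⟨_, rfl⟩
  rw [← hΓ] at hN1 hC1 hC2 hM1 hM2 ⊢
  -- the basis
  obtain ⟨b, hb⟩ : ∃ b : Basis (Fin (finrank F W) ⊕ Fin (finrank F W')) F V,
    b = ((finBasis F W).prod (finBasis F W')).map (Submodule.prodEquivOfIsCompl W W' hc) :=
    ⟨_, rfl⟩
  have hbl : ∀ i, b (Sum.inl i) ∈ W := by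
    intro i
    rw [hb, Basis.map_apply, Basis.prod_apply]
    simp
  have hbr : ∀ j, b (Sum.inr j) ∈ W' := by
    intro j
    rw [hb, Basis.map_apply, Basis.prod_apply]
    simp
  have hcr : ∀ w ∈ W, ∀ j, b.coord (Sum.inr j) w = 0 := by
    intro w hw j
    have h1 : (Submodule.prodEquivOfIsCompl W W' hc).symm w = (⟨w, hw⟩, 0) :=
      Submodule.prodEquivOfIsCompl_symm_apply_left W W' hc ⟨w, hw⟩
    rw [Basis.coord_apply, hb, Basis.map_repr, LinearEquiv.trans_apply, h1, Basis.prod_repr_inr]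
    simp
  have hcl : ∀ w ∈ W', ∀ i, b.coord (Sum.inl i) w = 0 := by
    intro w hw i
    have h1 : (Submodule.prodEquivOfIsCompl W W' hc).symm w = (0, ⟨w, hw⟩) :=
      Submodule.prodEquivOfIsCompl_symm_apply_right W W' hc ⟨w, hw⟩
    rw [Basis.coord_apply, hb, Basis.map_repr, LinearEquiv.trans_apply, h1, Basis.prod_repr_inl]
    simp
  have hco : ∀ k l, k ≠ l → ∀ x : F, (x • b.coord l) (b k) = 0 := by
    intro k l hkl x
    rw [LinearMap.smul_apply, Basis.coord_apply, Basis.repr_self, Finsupp.single_apply,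
      if_neg hkl, smul_zero]
  have hne1 : 0 < finrank F W := by
    rw [finrank_pos_iff, Submodule.nontrivial_iff_ne_bot]
    exact hW0
  have hne2 : 0 < finrank F W' := by
    rw [finrank_pos_iff, Submodule.nontrivial_iff_ne_bot]
    intro h
    apply hW1
    have h1 := hc.sup_eq_top
    rwa [h, sup_bot_eq] at h1
  have : Nonempty (Fin (finrank F W)) := ⟨⟨0, hne1⟩⟩
  have : Nonempty (Fin (finrank F W')) := ⟨⟨0, hne2⟩⟩
  have hT1 : ∀ i j (x : F), SLX_t (x • b.coord (Sum.inr j)) (b (Sum.inl i))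
      (hco _ _ Sum.inl_ne_inr x) ∈ SLX_U W := fun i j x => SLX_t_U W _ _ _ (by
    intro w hw
    rw [LinearMap.smul_apply, hcr w hw, smul_zero]) (hbl i)
  have hT2 : ∀ i j (x : F), SLX_t (x • b.coord (Sum.inl i)) (b (Sum.inr j))
      (hco _ _ Sum.inr_ne_inl x) ∈ SLX_U W' := fun i j x => SLX_t_U W' _ _ _ (by
    intro w hw
    rw [LinearMap.smul_apply, hcl w hw, smul_zero]) (hbr j)
  -- `Γ` is normal
  have hnorm : ∀ (U : Subgroup (SLV F V)), (∀ a ∈ U, ∀ x ∈ Γ, a * x * a⁻¹ ∈ Γ) →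
      U ≤ Subgroup.normalizer (Γ : Set (SLV F V)) := by
    intro U hU a ha
    rw [Subgroup.mem_normalizer_iff]
    intro x
    refine ⟨hU a ha x, fun hx => ?_⟩
    have h1 := hU a⁻¹ (U.inv_mem ha) _ hx
    have e : a⁻¹ * (a * x * a⁻¹) * a⁻¹⁻¹ = x := by group
    rwa [e] at h1
  have hΓn : Γ.Normal := by
    rw [← Subgroup.normalizer_eq_top_iff]
    refine SLX_gen b _ (SLX_block _ ?_ ?_)
    · intro i j x
      rw [Subgroup.mem_comap, SLX_Φ_t b _ _ _ x (hco _ _ Sum.inl_ne_inr x)]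
      exact hnorm _ hM1 (hT1 i j x)
    · intro i j x
      rw [Subgroup.mem_comap, SLX_Φ_t b _ _ _ x (hco _ _ Sum.inr_ne_inl x)]
      exact hnorm _ hM2 (hT2 i j x)
  obtain ⟨g, hg, v, hgv⟩ := hns
  -- `g` is not scalar on the basis
  have hscal : ∀ c : F, ¬ ∀ k, (g : V ≃ₗ[F] V) (b k) = c • b k := by
    intro c h
    have h1 : ((g : V ≃ₗ[F] V) : V →ₗ[F] V) = c • LinearMap.id := by
      refine b.ext fun k => ?_
      exact h k
    exact hgv c (LinearMap.congr_fun h1 v)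
  by_cases hdim : 3 ≤ finrank F V
  · -- a nontrivial element of `U ∩ Γ`
    have hu : ∃ u ∈ Γ, u ∈ SLX_U W ∧ u ≠ 1 := by
      by_contra hcon
      push Not at hcon
      have hcm : ∀ a ∈ SLX_U W, g * a = a * g := by
        intro a ha
        have h1 := hC1 a ha g hg
        have h2 : a⁻¹ * g * a * g⁻¹ ∈ SLX_U W := by
          have := (SLX_U W).mul_mem ((SLX_U W).inv_mem ha) (hU1 g hg a ha)
          rwa [← mul_assoc, ← mul_assoc] at this
        have h3 := hcon _ h1 h2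
        rw [mul_inv_eq_one, mul_assoc, inv_mul_eq_iff_eq_mul] at h3
        exact h3
      have hrel : ∀ i j x, b.coord (Sum.inr j) x • (g : V ≃ₗ[F] V) (b (Sum.inl i)) =
          b.coord (Sum.inr j) ((g : V ≃ₗ[F] V) x) • b (Sum.inl i) := by
        intro i j x
        have h1 := hcm _ (hT1 i j 1)
        have h2 := congrArg (fun s : SLV F V => (s : V ≃ₗ[F] V) x) h1
        beta_reduce at h2
        rw [SLX_mul_apply, SLX_mul_apply, SLX_t_apply, SLX_t_apply, map_add, map_smul, one_smul] at h2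
        exact add_left_cancel h2
      obtain ⟨i0⟩ : Nonempty (Fin (finrank F W)) := inferInstance
      obtain ⟨j0⟩ : Nonempty (Fin (finrank F W')) := inferInstance
      obtain ⟨lam, hlam⟩ : ∃ lam : Fin (finrank F W') → F, lam = fun j =>
        b.coord (Sum.inr j) ((g : V ≃ₗ[F] V) (b (Sum.inr j))) := ⟨_, rfl⟩
      have hL : ∀ i j, (g : V ≃ₗ[F] V) (b (Sum.inl i)) = lam j • b (Sum.inl i) := by
        intro i j
        have h1 := hrel i j (b (Sum.inr j))
        rw [Basis.coord_apply, Basis.repr_self, Finsupp.single_eq_same, one_smul] at h1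
        rw [h1, hlam]
      have hconst : ∀ j, lam j = lam j0 := by
        intro j
        have h1 := (hL i0 j).symm.trans (hL i0 j0)
        exact smul_left_injective F (b.ne_zero _) h1
      have hoff : ∀ j k, k ≠ j → b.coord (Sum.inr j) ((g : V ≃ₗ[F] V) (b (Sum.inr k))) = 0 := by
        intro j k hkj
        have h1 := hrel i0 j (b (Sum.inr k))
        rw [Basis.coord_apply, Basis.repr_self, Finsupp.single_apply, if_neg (fun h => hkj
          (Sum.inr_injective h)), zero_smul] at h1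
        exact (smul_eq_zero.1 h1.symm).resolve_right (b.ne_zero _)
      refine hscal (lam j0) ?_
      rintro (i | j)
      · exact hL i j0
      · refine b.ext_elem fun k => ?_
        rw [map_smul, Basis.repr_self, Finsupp.smul_apply, smul_eq_mul]
        rcases k with i | k
        · have h1 := hcl _ (hWQ' g hg _ (hbr j)) i
          rw [Basis.coord_apply] at h1
          rw [h1, Finsupp.single_apply, if_neg (by simp), mul_zero]
        · by_cases hkj : j = k
          · subst hkj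
            rw [Finsupp.single_eq_same, mul_one, ← hconst j, hlam]
            rfl
          · have h1 := hoff k j hkj
            rw [Basis.coord_apply] at h1
            rw [h1, Finsupp.single_apply, if_neg (fun h => hkj (Sum.inr_injective h)), mul_zero]
    obtain ⟨u, huΓ, huU, hu1⟩ := hu
    obtain ⟨a, ha⟩ : ∃ a : V, (u : V ≃ₗ[F] V) a ≠ a := by
      by_contra hcon
      push Not at hcon
      exact hu1 (SLX_ext _ _ hcon)
    obtain ⟨N, hN⟩ : ∃ N : V →ₗ[F] V, N = ((u : V ≃ₗ[F] V) : V →ₗ[F] V) - LinearMap.id :=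
      ⟨_, rfl⟩
    have hNa : ∀ x, N x = (u : V ≃ₗ[F] V) x - x := by
      intro x
      rw [hN]
      rfl
    have hrk : LinearMap.range N ≤ LinearMap.ker N := by
      rintro _ ⟨x, rfl⟩
      rw [LinearMap.mem_ker, hNa, hNa, huU.1 _ (huU.2 x), sub_self]
    have hlt : LinearMap.range N ⊔ Submodule.span F {a} < ⊤ := by
      rw [lt_top_iff_ne_top]
      intro htop
      have h1 := LinearMap.finrank_range_add_finrank_ker N
      have h2 := Submodule.finrank_mono hrk
      have h3 : finrank F V ≤ finrank F (LinearMap.range N) +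
          finrank F (Submodule.span F {a}) := by
        rw [← finrank_top F V, ← htop]
        exact Submodule.finrank_add_le_finrank_add_finrank _ _
      have ha0 : a ≠ 0 := by
        rintro rfl
        exact ha (map_zero _)
      have h4 : finrank F (Submodule.span F {a}) = 1 := finrank_span_singleton ha0
      omega
    obtain ⟨f, hf0, hfk⟩ := Submodule.exists_le_ker_of_lt_top _ hlt
    have hfa : f a = 0 := hfk (Submodule.mem_sup_right (Submodule.mem_span_singleton_self a))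
    have hfu : ∀ x, f ((u : V ≃ₗ[F] V) x) = f x := by
      intro x
      have h1 : f (N x) = 0 := hfk (Submodule.mem_sup_left ⟨x, rfl⟩)
      rw [hNa, map_sub, sub_eq_zero] at h1
      exact h1
    have hfv1 : f ((u : V ≃ₗ[F] V) a - a) = 0 := by
      rw [map_sub, hfu, sub_self]
    have ht : SLX_t f ((u : V ≃ₗ[F] V) a - a) hfv1 ∈ Γ := by
      rw [← SLX_comm u f a hfa hfu hfv1]
      have h1 := hΓn.conj_mem _ (Γ.inv_mem huΓ) (SLX_t f a hfa)
      have h2 := Γ.mul_mem huΓ h1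
      rwa [← mul_assoc, ← mul_assoc] at h2
    obtain ⟨n, b', i, j, hij, hvi, hfj⟩ := exists_basis_of_pairing_eq_zero hfv1 hf0
      (sub_ne_zero.2 ha)
    have : Fintype n := FiniteDimensional.fintypeBasisIndex b'
    refine SLX_gen b' Γ (SLX_normal _ inferInstance i j hij ?_ ?_)
    · have h0 : ((1 : F) • b'.coord j) (b' i) = 0 := by
        rw [one_smul, ← hfj, ← hvi, hfv1]
      rw [Subgroup.mem_comap, SLX_Φ_t b' i j hij 1 h0]
      have h1 : SLX_t ((1 : F) • b'.coord j) (b' i) h0 =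
          SLX_t f ((u : V ≃ₗ[F] V) a - a) hfv1 := by
        apply SLX_ext
        intro x
        rw [SLX_t_apply, SLX_t_apply, one_smul, ← hfj, ← hvi]
      rw [h1]
      exact ht
    · rw [← finrank_eq_card_basis b']
      exact hdim
  · -- dimension 2
    have hsum := Submodule.finrank_add_eq_of_isCompl hc
    have hd1 : finrank F W = 1 := by omega
    have hd2 : finrank F W' = 1 := by omega
    have hs1 : Subsingleton (Fin (finrank F W)) := by
      rw [hd1]
      infer_instance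
    have hs2 : Subsingleton (Fin (finrank F W')) := by
      rw [hd2]
      infer_instance
    obtain ⟨i0⟩ : Nonempty (Fin (finrank F W)) := inferInstance
    obtain ⟨j0⟩ : Nonempty (Fin (finrank F W')) := inferInstance
    obtain ⟨α, hα⟩ : ∃ α : F, (g : V ≃ₗ[F] V) (b (Sum.inl i0)) = α • b (Sum.inl i0) := by
      refine ⟨b.repr ((g : V ≃ₗ[F] V) (b (Sum.inl i0))) (Sum.inl i0), ?_⟩
      refine b.ext_elem fun k => ?_
      rw [map_smul, Basis.repr_self, Finsupp.smul_apply, smul_eq_mul]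
      rcases k with i | k
      · rw [Subsingleton.elim i i0, Finsupp.single_eq_same, mul_one]
      · have h1 := hcr _ (hWQ g hg _ (hbl i0)) k
        rw [Basis.coord_apply] at h1
        rw [h1, Finsupp.single_apply, if_neg (by simp), mul_zero]
    obtain ⟨β, hβ⟩ : ∃ β : F, (g : V ≃ₗ[F] V) (b (Sum.inr j0)) = β • b (Sum.inr j0) := by
      refine ⟨b.repr ((g : V ≃ₗ[F] V) (b (Sum.inr j0))) (Sum.inr j0), ?_⟩
      refine b.ext_elem fun k => ?_
      rw [map_smul, Basis.repr_self, Finsupp.smul_apply, smul_eq_mul]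
      rcases k with i | k
      · have h1 := hcl _ (hWQ' g hg _ (hbr j0)) i
        rw [Basis.coord_apply] at h1
        rw [h1, Finsupp.single_apply, if_neg (by simp), mul_zero]
      · rw [Subsingleton.elim k j0, Finsupp.single_eq_same, mul_one]
    have hne : α ≠ β := by
      rintro rfl
      refine hscal α ?_
      rintro (i | j)
      · rw [Subsingleton.elim i i0, hα]
      · rw [Subsingleton.elim j j0, hβ]
    have hα0 : α ≠ 0 := by
      rintro rfl
      rw [zero_smul, LinearEquiv.map_eq_zero_iff] at hα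
      exact b.ne_zero _ hα
    have hβ0 : β ≠ 0 := by
      rintro rfl
      rw [zero_smul, LinearEquiv.map_eq_zero_iff] at hβ
      exact b.ne_zero _ hβ
    have hfβ : ∀ x, b.coord (Sum.inr j0) ((g : V ≃ₗ[F] V) x) = β * b.coord (Sum.inr j0) x := by
      have h1 : (b.coord (Sum.inr j0)) ∘ₗ ((g : V ≃ₗ[F] V) : V →ₗ[F] V) =
          β • b.coord (Sum.inr j0) := by
        refine b.ext fun k => ?_
        change b.coord (Sum.inr j0) ((g : V ≃ₗ[F] V) (b k)) = β * b.coord (Sum.inr j0) (b k)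
        rcases k with i | k
        · rw [Subsingleton.elim i i0, hα, map_smul, smul_eq_mul, hcr _ (hbl i0), mul_zero, mul_zero]
        · rw [Subsingleton.elim k j0, hβ, map_smul, smul_eq_mul]
      exact fun x => LinearMap.congr_fun h1 x
    have hfα : ∀ x, b.coord (Sum.inl i0) ((g : V ≃ₗ[F] V) x) = α * b.coord (Sum.inl i0) x := by
      have h1 : (b.coord (Sum.inl i0)) ∘ₗ ((g : V ≃ₗ[F] V) : V →ₗ[F] V) =
          α • b.coord (Sum.inl i0) := by
        refine b.ext fun k => ?_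
        change b.coord (Sum.inl i0) ((g : V ≃ₗ[F] V) (b k)) = α * b.coord (Sum.inl i0) (b k)
        rcases k with i | k
        · rw [Subsingleton.elim i i0, hα, map_smul, smul_eq_mul]
        · rw [Subsingleton.elim k j0, hβ, map_smul, smul_eq_mul, hcl _ (hbr j0), mul_zero, mul_zero]
      exact fun x => LinearMap.congr_fun h1 x
    refine SLX_gen b _ (SLX_block _ ?_ ?_)
    · intro i j x
      rw [Subsingleton.elim i i0, Subsingleton.elim j j0, Subgroup.mem_comap,
        SLX_Φ_t b _ _ _ x (hco _ _ Sum.inl_ne_inr x)]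
      exact SLX_two W Γ g (fun a ha => hC1 a ha g hg) _ _ (fun w hw => hcr w hw j0) (hbl i0) α β hα
        hfβ hne hβ0 x _
    · intro i j x
      rw [Subsingleton.elim i i0, Subsingleton.elim j j0, Subgroup.mem_comap,
        SLX_Φ_t b _ _ _ x (hco _ _ Sum.inr_ne_inl x)]
      exact SLX_two W' Γ g (fun a ha => hC2 a ha g hg) _ _ (fun w hw => hcl w hw i0) (hbr j0) β α hβ
        hfα hne.symm hα0 x _

end MP7b0bad.SL
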