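import Pool.Agent.Work.MP_7b0bad_ag.SL.Stmts

set_option autoImplicit false

/-!
# Block SL, item SLY: reducible subgroups of `p`-groups of order prime to the characteristic
-/

namespace MP7b0bad.SL

open Module Polynomial

section

variable {F V : Type} [Field F] [AddCommGroup V] [Module F V]

/-- pointwise scalar maps are scalar -/
theorem SLY_scalar (T : V →ₗ[F] V) (h : ∀ v, ∃ c : F, T v = c • v) :
    ∃ c : F, T = c • (1 : End F V) := by
  apply LinearMap.exists_eq_smul_id_of_forall_notLinearIndependent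
  intro v hv
  obtain ⟨c, hc⟩ := h v
  rw [LinearIndependent.pair_iff] at hv
  have h1 := hv c (-1) (by rw [hc]; simp)
  exact one_ne_zero (neg_eq_zero.mp h1.2)

/-- no invariant subspaces -/
def SLY_irr (T : V →ₗ[F] V) : Prop :=
  ∀ W : Submodule F V, (∀ w ∈ W, T w ∈ W) → W = ⊥ ∨ W = ⊤

/-- evaluation of polynomials of `T` at `v` -/
noncomputable def SLY_ev (T : End F V) (v : V) : F[X] →ₗ[F] V :=
  (LinearMap.applyₗ v).comp (aeval T : F[X] →ₐ[F] End F V).toLinearMap

theorem SLY_ev_apply (T : End F V) (v : V) (f : F[X]) : SLY_ev T v f = aeval T f v := rfl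

theorem SLY_le [Module.Finite F V] [Nontrivial V] (T : End F V) (hT : SLY_irr T) (f : F[X])
    (hf : f.Monic) (h0 : aeval T f = 0) : finrank F V ≤ f.natDegree := by
  obtain ⟨v, hv⟩ := exists_ne (0 : V)
  have hf1 : f ≠ 1 := by
    rintro rfl
    rw [map_one] at h0
    exact one_ne_zero h0
  have htop : LinearMap.range (SLY_ev T v) = ⊤ := by
    rcases hT (LinearMap.range (SLY_ev T v)) (by
      rintro _ ⟨g, rfl⟩
      refine ⟨X * g, ?_⟩
      rw [SLY_ev_apply, SLY_ev_apply, map_mul, aeval_X]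
      rfl) with h | h
    · exfalso
      apply hv
      have h1 : v ∈ LinearMap.range (SLY_ev T v) := ⟨1, by rw [SLY_ev_apply, map_one]; rfl⟩
      rw [h] at h1
      exact (Submodule.mem_bot F).mp h1
    · exact h
  have hspan : Submodule.span F (Set.range fun j : Fin f.natDegree => (T ^ (j : ℕ)) v) = ⊤ := by
    rw [eq_top_iff, ← htop]
    rintro _ ⟨g, rfl⟩
    have h2 : aeval T g = aeval T (g %ₘ f) := by
      conv_lhs => rw [← modByMonic_add_div g f]
      rw [map_add, map_mul, h0, zero_mul, add_zero]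
    rw [SLY_ev_apply, h2, aeval_eq_sum_range' (natDegree_modByMonic_lt g hf hf1)]
    rw [LinearMap.sum_apply]
    refine Submodule.sum_mem _ fun j hj => ?_
    rw [LinearMap.smul_apply]
    exact Submodule.smul_mem _ _ (Submodule.subset_span ⟨⟨j, Finset.mem_range.mp hj⟩, rfl⟩)
  have h3 := finrank_le_of_span_eq_top hspan
  rwa [Fintype.card_fin] at h3

theorem SLY_minpoly [Module.Finite F V] [Nontrivial V] (T : End F V) (hT : SLY_irr T) :
    Irreducible (minpoly F T) := by
  have hint : IsIntegral F T := LinearMap.isIntegral T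
  have hmon := minpoly.monic hint
  have key : ∀ a : F[X], (∃ v, v ≠ 0 ∧ aeval T a v = 0) → aeval T a = 0 := by
    rintro a ⟨v, hv, ha⟩
    rcases hT (LinearMap.ker (aeval T a)) (by
      intro w hw
      rw [LinearMap.mem_ker] at hw ⊢
      have h1 : aeval T a (T w) = T (aeval T a w) := by
        have h2 : aeval T (a * X) = aeval T (X * a) := by rw [mul_comm]
        rw [map_mul, map_mul, aeval_X] at h2
        exact LinearMap.congr_fun h2 w
      rw [h1, hw, map_zero]) with h | h
    · exfalso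
      apply hv
      have h1 : v ∈ LinearMap.ker (aeval T a) := ha
      rw [h] at h1
      exact (Submodule.mem_bot F).mp h1
    · exact LinearMap.ker_eq_top.mp h
  have hunit : ∀ a b : F[X], minpoly F T = a * b → aeval T a = 0 → IsUnit b := by
    intro a b hab ha
    obtain ⟨c, hc⟩ := minpoly.dvd F T ha
    have h1 : minpoly F T * (c * b) = minpoly F T * 1 := by
      rw [← mul_assoc, ← hc, ← hab, mul_one]
    have h2 := mul_left_cancel₀ hmon.ne_zero h1
    rw [mul_comm] at h2
    exact IsUnit.of_mul_eq_one _ h2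
  refine ⟨minpoly.not_isUnit F T, fun a b hab => ?_⟩
  have h0 : aeval T a * aeval T b = 0 := by
    rw [← map_mul, ← hab, minpoly.aeval]
  by_cases hb : aeval T b = 0
  · left
    exact hunit b a (by rw [hab, mul_comm]) hb
  · right
    obtain ⟨v, hv⟩ : ∃ v, aeval T b v ≠ 0 := by
      by_contra hcon
      push Not at hcon
      exact hb (LinearMap.ext hcon)
    exact hunit a b hab (key a ⟨_, hv, LinearMap.congr_fun h0 v⟩)

/-- an irreducible endomorphism is not fixed by a small power of the Frobenius map -/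
theorem SLY_case1 [Finite F] [Module.Finite F V] [Nontrivial V] (S : End F V) (hS : SLY_irr S)
    (i : ℕ) (hi : 0 < i) (hin : i < finrank F V) (h : S ^ (Nat.card F ^ i) = S) : False := by
  have : Fintype F := Fintype.ofFinite F
  have hirr := SLY_minpoly S hS
  have : Fact (Irreducible (minpoly F S)) := ⟨hirr⟩
  have hmon : (minpoly F S).Monic := minpoly.monic (LinearMap.isIntegral S)
  have hdeg : finrank F V ≤ (minpoly F S).natDegree := SLY_le S hS _ hmon (minpoly.aeval F S)
  have hfin : finrank F (AdjoinRoot (minpoly F S)) = (minpoly F S).natDegree := by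
    rw [(AdjoinRoot.powerBasis hmon.ne_zero).finrank, AdjoinRoot.powerBasis_dim]
  have : Module.Finite F (AdjoinRoot (minpoly F S)) :=
    (AdjoinRoot.powerBasis hmon.ne_zero).finite
  have : Finite (AdjoinRoot (minpoly F S)) := Module.finite_of_finite F
  have hroot : (AdjoinRoot.root (minpoly F S)) ^ (Fintype.card F ^ i) =
      AdjoinRoot.root (minpoly F S) := by
    have h1 : minpoly F S ∣ X ^ (Nat.card F ^ i) - X := by
      apply minpoly.dvd
      rw [map_sub, map_pow, aeval_X, h, sub_self]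
    have h2 := AdjoinRoot.mk_eq_zero.mpr h1
    rw [map_sub, map_pow, AdjoinRoot.mk_X, sub_eq_zero, Nat.card_eq_fintype_card] at h2
    exact h2
  have hone : (FiniteField.frobeniusAlgHom F (AdjoinRoot (minpoly F S))) ^ i = 1 := by
    apply AdjoinRoot.algHom_ext
    rw [AlgHom.coe_pow, FiniteField.coe_frobeniusAlgHom, pow_iterate]
    exact hroot
  have hord := orderOf_dvd_of_pow_eq_one hone
  rw [FiniteField.orderOf_frobeniusAlgHom, hfin] at hord
  have := Nat.le_of_dvd hi hord
  omega

/-- the determinant of an irreducible endomorphism with `T^p = ζ`, `ζ` not a `p`-th power -/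
theorem SLY_case2 [Module.Finite F V] [Nontrivial V] (T : End F V) (hT : SLY_irr T) (p : ℕ)
    (hp : p.Prime) (hp2 : p ≠ 2) (ζ : F) (hz : T ^ p = ζ • (1 : End F V)) (hnp : ∀ b : F, b ^ p ≠ ζ) :
    LinearMap.det T = ζ := by
  have hirr := X_pow_sub_C_irreducible_of_prime hp hnp
  have hmon : (X ^ p - C ζ : F[X]).Monic := monic_X_pow_sub_C ζ hp.ne_zero
  have h0 : aeval T (X ^ p - C ζ : F[X]) = 0 := by
    rw [map_sub, map_pow, aeval_X, aeval_C, hz, Algebra.algebraMap_eq_smul_one, sub_self]
  have hmin : (X ^ p - C ζ : F[X]) = minpoly F T :=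
    minpoly.eq_of_irreducible_of_monic hirr h0 hmon
  have hdeg : (X ^ p - C ζ : F[X]).natDegree = p := natDegree_X_pow_sub_C
  have hle := SLY_le T hT _ hmon h0
  have hcd : T.charpoly.natDegree = finrank F V := LinearMap.charpoly_natDegree T
  have hch : T.charpoly = X ^ p - C ζ := by
    refine eq_of_monic_of_dvd_of_natDegree_le hmon T.charpoly_monic ?_ ?_
    · rw [hmin]; exact LinearMap.minpoly_dvd_charpoly T
    · rw [hcd]; exact hle
  have hn : finrank F V = p := by rw [← hcd, hch, hdeg]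
  rw [LinearMap.det_eq_sign_charpoly_coeff, hn, hch]
  have hodd : Odd p := hp.odd_of_ne_two hp2
  rw [hodd.neg_one_pow, coeff_sub, coeff_X_pow, coeff_C_zero, if_neg hp.ne_zero.symm]
  ring

end

/-- the item -/
theorem prf_SLY : SLY := by
  intro p _ F V _ _ _ _ _ P i hp2 hpF hi hin hdvd hP ⟨g, hgP, hg⟩
  have hpp : p.Prime := Fact.out
  have : Nontrivial V := by
    by_contra hc
    rw [not_nontrivial_iff_subsingleton] at hc
    have := finrank_zero_of_subsingleton (R := F) (M := V)
    omega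
  obtain ⟨K, hK⟩ := hP ⟨g, hgP⟩
  have hK' : g ^ (p ^ K) = 1 := congrArg Subtype.val hK
  have hex : ∃ k, ¬ ∃ v : V, ∀ c : F, ((g ^ (p ^ k) : SLV F V) : V ≃ₗ[F] V) v ≠ c • v := by
    refine ⟨K, ?_⟩
    rw [hK']
    rintro ⟨v, hv⟩
    exact hv 1 (by rw [one_smul]; rfl)
  classical
  obtain ⟨k, hk, hmin⟩ : ∃ k, (¬ ∃ v : V, ∀ c : F, ((g ^ (p ^ k) : SLV F V) : V ≃ₗ[F] V) v ≠ c • v) ∧
      ∀ j < k, ∃ v : V, ∀ c : F, ((g ^ (p ^ j) : SLV F V) : V ≃ₗ[F] V) v ≠ c • v :=
    ⟨Nat.find hex, Nat.find_spec hex, fun j hj => by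
      have := Nat.find_min hex hj
      rwa [not_not] at this⟩
  obtain ⟨k, rfl⟩ : ∃ k', k = k' + 1 := by
    rcases k with _ | k
    · exfalso
      apply hk
      rw [pow_zero, pow_one]
      exact hg
    · exact ⟨k, rfl⟩
  have hx := hmin k (Nat.lt_succ_self k)
  have hxP : g ^ (p ^ k) ∈ P := P.pow_mem hgP _
  have hxK : (g ^ (p ^ k)) ^ (p ^ K) = 1 := by rw [← pow_mul, mul_comm, pow_mul, hK', one_pow]
  rw [pow_succ, pow_mul] at hk
  generalize g ^ (p ^ k) = x at hk hx hxP hxK
  -- the endomorphism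
  set T : End F V := ((x : V ≃ₗ[F] V) : V →ₗ[F] V) with hTdef
  have hTpow : ∀ m : ℕ, (T ^ m : End F V) = (((x ^ m : SLV F V) : V ≃ₗ[F] V) : V →ₗ[F] V) := by
    intro m
    induction m with
    | zero => rfl
    | succ m ih => rw [pow_succ, pow_succ, ih]; rfl
  obtain ⟨ζ, hζ⟩ : ∃ ζ : F, T ^ p = ζ • (1 : End F V) := by
    apply SLY_scalar
    intro v
    by_contra hcon
    push Not at hcon
    apply hk
    refine ⟨v, fun c hc => hcon c ?_⟩
    rw [hTpow]
    exact hc
  have hζ0 : ζ ≠ 0 := by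
    rintro rfl
    obtain ⟨v, hv⟩ := exists_ne (0 : V)
    rw [zero_smul, hTpow] at hζ
    have h1 := LinearMap.congr_fun hζ v
    have h2 : ((x ^ p : SLV F V) : V ≃ₗ[F] V) v = 0 := h1
    exact hv ((LinearEquiv.map_eq_zero_iff _).mp h2)
  by_contra hcon
  have hirr : SLY_irr T := by
    intro W hW
    by_contra hc
    push Not at hc
    apply hcon
    refine ⟨Subgroup.zpowers x, W, ?_, ⟨x, Subgroup.mem_zpowers x, hx⟩, hc.1, hc.2, ?_⟩
    · rw [Subgroup.zpowers_le]; exact hxP
    · intro y hy w hw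
      have hfin : IsOfFinOrder x :=
        isOfFinOrder_iff_pow_eq_one.mpr ⟨p ^ K, pow_pos hpp.pos K, hxK⟩
      rw [← hfin.mem_powers_iff_mem_zpowers] at hy
      obtain ⟨m, rfl⟩ := hy
      have h1 : ∀ m : ℕ, (T ^ m) w ∈ W := by
        intro m
        induction m with
        | zero => exact hw
        | succ m ih => rw [pow_succ']; exact hW _ ih
      have h2 := h1 m
      rw [hTpow] at h2
      exact h2
  by_cases hb : ∃ b : F, b ^ p = ζ
  · obtain ⟨b, hb⟩ := hb
    have hb0 : b ≠ 0 := by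
      rintro rfl
      rw [zero_pow hpp.ne_zero] at hb
      exact hζ0 hb.symm
    have hSp : (b⁻¹ • T : End F V) ^ p = 1 := by
      rw [_root_.smul_pow, hζ, smul_smul, inv_pow, hb, inv_mul_cancel₀ hζ0, one_smul]
    have hSirr : SLY_irr (b⁻¹ • T : End F V) := by
      intro W hW
      apply hirr W
      intro w hw
      have h1 := W.smul_mem b (hW w hw)
      rwa [LinearMap.smul_apply, smul_smul, mul_inv_cancel₀ hb0, one_smul] at h1
    refine SLY_case1 (b⁻¹ • T : End F V) hSirr i hi hin ?_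
    obtain ⟨t, ht⟩ := hdvd
    have hq : 0 < Nat.card F ^ i := pow_pos Nat.card_pos i
    have h1 : Nat.card F ^ i = p * t + 1 := by omega
    rw [h1, pow_succ, pow_mul, hSp, one_pow, one_mul]
  · push Not at hb
    have h1 := SLY_case2 T hirr p hpp hp2 ζ hζ hb
    have h2 : LinearMap.det T = 1 := by
      have h3 : LinearEquiv.det (x : V ≃ₗ[F] V) = 1 := x.2
      have h4 := congrArg Units.val h3
      rw [LinearEquiv.coe_det] at h4
      exact h4
    rw [h2] at h1
    exact hb 1 (by rw [one_pow]; exact h1)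

end MP7b0bad.SL
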