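import Pool.Agent.Work.MP_7b0bad_ag.SL.PSGen
import Pool.Agent.Work.MP_7b0bad_ag.SL.PSIn
import Pool.Agent.Work.MP_7b0bad_ag.SL.PSStar
import Pool.Agent.Work.MP_7b0bad_ag.SL.PSTwo
import Pool.Agent.Work.MP_7b0bad_ag.SL.PStr
import Pool.Agent.Work.MP_7b0bad_ag.SL.SLAsm
import Pool.Agent.Work.MP_7b0bad_ag.SL.SLBase
import Pool.Agent.Work.MP_7b0bad_ag.SL.SLEx
import Pool.Agent.Work.MP_7b0bad_ag.SL.SLFin
import Pool.Agent.Work.MP_7b0bad_ag.SL.SLGen
import Pool.Agent.Work.MP_7b0bad_ag.SL.SLHyp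
import Pool.Agent.Work.MP_7b0bad_ag.SL.SLLin
import Pool.Agent.Work.MP_7b0bad_ag.SL.SLQuo
import Pool.Agent.Work.MP_7b0bad_ag.SL.SLSd
import Pool.Agent.Work.MP_7b0bad_ag.SL.SLX
import Pool.Agent.Work.MP_7b0bad_ag.SL.SLY
import Pool.Agent.Work.MP_7b0bad_ag.SL.Stmts
import Pool.Agent.Work.MP_7b0bad_ag.MW.All
import Pool.Agent.Work.MP_7b0bad_ag.Ad.All

set_option autoImplicit false

/-!
# Block SL: assembly without hypotheses
-/

namespace MP7b0bad.SL

theorem all_SLBase : SLBase := prf_SLBase MW.all_WNor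
theorem all_SLHyp : SLHyp := prf_SLHyp
theorem all_SLLin : SLLin := prf_SLLin
theorem all_SLGen : SLGen := prf_SLGen
theorem all_SLEx : SLEx := prf_SLEx
theorem all_SLAsm : SLAsm :=
  prf_SLAsm MW.all_WNor all_SLBase all_SLHyp all_SLLin all_SLGen all_SLEx
theorem all_SLX : SLX := prf_SLX
theorem all_SLY : SLY := prf_SLY
theorem all_SLSd : SLSd := prf_SLSd Ad.all_AdMain MW.all_WRel
theorem all_SLQuo : SLQuo := prf_SLQuo
theorem all_SLFin : SLFin :=
  prf_SLFin all_SLAsm all_SLX all_SLY all_SLSd all_SLQuo MW.all_WRel MW.all_WNor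
theorem all_PStr : PStr := prf_PStr
theorem all_PSGen : PSGen := prf_PSGen all_PStr
theorem all_PSIn : PSIn := prf_PSIn all_SLBase
theorem all_PSTwo : PSTwo := prf_PSTwo all_PStr
theorem all_PSStar : PSStar := prf_PSStar all_PSIn all_PSTwo all_PSGen MW.all_WNor

end MP7b0bad.SL
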