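import Pool.Agent.Work.MP_7b0bad_ag.SL.Stmts
import Pool.Agent.Work.MP_7b0bad_ag.AllH

set_option autoImplicit false

/-!
# MP_7b0bad_ag, block SL, item PSGen
-/

namespace MP7b0bad.SL

/-- a `p`-group extended by a `p`-solvable group -/
theorem PSGen_ext {p : ℕ} [Fact p.Prime] {G : Type} [Group G] [Finite G] (N D : Subgroup G)
    (hN : IsPGroup p N) (hD : PSol p D) (h : ∀ q ∈ D, ∀ a ∈ N, q * a * q⁻¹ ∈ N) :
    PSol p (N ⊔ D : Subgroup G) := by
  have hle : N ⊔ D ≤ Subgroup.normalizer (N : Set G) :=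
    sup_le Subgroup.le_normalizer (GR3_norm D N h)
  have hn : (N.subgroupOf (N ⊔ D)).Normal :=
    (Subgroup.normal_subgroupOf_iff_le_normalizer le_sup_left).2 hle
  refine prf_GPSE p (N ⊔ D : Subgroup G) (N.subgroupOf (N ⊔ D)) ?_ ?_
  · refine HNor_pgrp ?_
    exact hN.of_equiv (Subgroup.subgroupOfEquivOfLe (le_sup_left : N ≤ N ⊔ D)).symm
  · refine HNor_surj hD ((QuotientGroup.mk' (N.subgroupOf (N ⊔ D))).comp
      (Subgroup.inclusion (le_sup_right : D ≤ N ⊔ D))) ?_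
    intro x
    induction x using QuotientGroup.induction_on with
    | H g =>
      obtain ⟨a, ha, q, hq, he⟩ := GR3_mem N D h (g : G) g.2
      refine ⟨⟨q, hq⟩, ?_⟩
      have hg : g = ⟨a, Subgroup.mem_sup_left ha⟩ * ⟨q, Subgroup.mem_sup_right hq⟩ :=
        Subtype.ext he
      have ha' : ((⟨a, Subgroup.mem_sup_left ha⟩ : (N ⊔ D : Subgroup G)) :
          (N ⊔ D : Subgroup G) ⧸ N.subgroupOf (N ⊔ D)) = 1 := by
        rw [QuotientGroup.eq_one_iff, Subgroup.mem_subgroupOf]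
        exact ha
      rw [hg, QuotientGroup.mk_mul, ha', one_mul]
      rfl

/-- an element normalises a subgroup of a finite group -/
theorem PSGen_norm {G : Type} [Group G] [Finite G] (t : G) (B : Subgroup G)
    (h : ∀ b ∈ B, t * b * t⁻¹ ∈ B) : t ∈ Subgroup.normalizer (B : Set G) :=
  GR3_norm (Subgroup.zpowers t) B (GR3_zp t B h) (Subgroup.mem_zpowers t)

theorem PSGen_pg {p : ℕ} [Fact p.Prime] {F : Type} [Field F] [CharP F p] {X : Type} [Group X]
    {L U₁ U₂ : Subgroup X} {ε : Multiplicative F →* X} {t : Fˣ → X} (h : P2 p F L U₁ U₂ ε t) :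
    IsPGroup p U₁ := by
  rintro ⟨x, hx⟩
  rw [← h.U] at hx
  obtain ⟨y, rfl⟩ := hx
  refine ⟨1, ?_⟩
  apply Subtype.ext
  show ε y ^ p ^ 1 = 1
  rw [pow_one, ← map_pow]
  have h1 : y ^ p = 1 := by
    have h2 : (p : ℕ) • (Multiplicative.toAdd y) = 0 := by
      rw [nsmul_eq_mul, CharP.cast_eq_zero, zero_mul]
    exact h2
  rw [h1, map_one]

/-- an element that normalises `U₁` and commutes with the torus modulo the centraliser of `U₁`
centralises `U₁` -/
theorem PSGen_lin {p : ℕ} [Fact p.Prime] {F : Type} [Field F] [CharP F p] (hp2 : p ≠ 2)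
    {X : Type} [Group X] {L U₁ U₂ : Subgroup X} {ε : Multiplicative F →* X} {t : Fˣ → X}
    (h : P2 p F L U₁ U₂ ε t) (u : X) (hup : u ^ p = 1) (hu : ∀ x ∈ U₁, u * x * u⁻¹ ∈ U₁)
    (hB : ∀ b : Fˣ, ∀ x ∈ U₁, u * (t b * x * (t b)⁻¹) * u⁻¹ = t b * (u * x * u⁻¹) * (t b)⁻¹) :
    ∀ x ∈ U₁, u * x = x * u := by
  have hε : ∀ y : F, ε (Multiplicative.ofAdd y) ∈ U₁ := fun y => by
    rw [← h.U]
    exact ⟨_, rfl⟩
  have hex : ∀ y : F, ∃ z : F, u * ε (Multiplicative.ofAdd y) * u⁻¹ =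
      ε (Multiplicative.ofAdd z) := by
    intro y
    have h1 := hu _ (hε y)
    rw [← h.U] at h1
    obtain ⟨z, hz⟩ := h1
    exact ⟨Multiplicative.toAdd z, hz.symm⟩
  choose α hα using hex
  have hinj : ∀ y z : F, ε (Multiplicative.ofAdd y) = ε (Multiplicative.ofAdd z) → y = z :=
    fun y z hyz => Multiplicative.ofAdd.injective (h.inj hyz)
  have hadd : ∀ y z : F, α (y + z) = α y + α z := by
    intro y z
    apply hinj
    rw [← hα, ofAdd_add, map_mul, ofAdd_add, map_mul, ← hα, ← hα]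
    group
  have h0 : α 0 = 0 := by
    have h1 := hadd 0 0
    rw [add_zero] at h1
    exact left_eq_add.1 h1
  have hneg : ∀ y : F, α (-y) = -α y := by
    intro y
    have h1 := hadd y (-y)
    rw [add_neg_cancel, h0] at h1
    exact (neg_eq_of_add_eq_zero_right h1.symm).symm
  have hsq : ∀ b y : F, α (b ^ 2 * y) = b ^ 2 * α y := by
    intro b y
    rcases eq_or_ne b 0 with hb | hb
    · rw [hb, zero_pow two_ne_zero, zero_mul, zero_mul, h0]
    · apply hinj
      have h1 := hB (Units.mk0 b hb) _ (hε y)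
      rw [h.tU, hα, hα, h.tU] at h1
      simpa using h1
  have h2 : (2 : F) ≠ 0 := by
    intro h3
    have h4 : ((2 : ℕ) : F) = 0 := by exact_mod_cast h3
    rw [CharP.cast_eq_zero_iff F p] at h4
    exact hp2 ((Nat.prime_dvd_prime_iff_eq (Fact.out : p.Prime) Nat.prime_two).1 h4)
  have hlin : ∀ c y : F, α (c * y) = c * α y := by
    intro c y
    have e1 : c * y = ((c + 1) / 2) ^ 2 * y + -(((c - 1) / 2) ^ 2 * y) := by
      field_simp
      ring
    rw [e1, hadd, hneg, hsq, hsq]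
    field_simp
    ring
  have hlin1 : ∀ y : F, α y = α 1 * y := by
    intro y
    have h3 := hlin y 1
    rw [mul_one] at h3
    rw [h3, mul_comm]
  have hiter : ∀ (n : ℕ) (y : F), u ^ n * ε (Multiplicative.ofAdd y) * (u ^ n)⁻¹ =
      ε (Multiplicative.ofAdd (α 1 ^ n * y)) := by
    intro n
    induction n with
    | zero => intro y; simp
    | succ n ih =>
      intro y
      have e1 : u ^ (n + 1) * ε (Multiplicative.ofAdd y) * (u ^ (n + 1))⁻¹ =
          u * (u ^ n * ε (Multiplicative.ofAdd y) * (u ^ n)⁻¹) * u⁻¹ := by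
        rw [pow_succ']
        group
      rw [e1, ih, hα, hlin1]
      congr 2
      ring
  have ha : α 1 ^ p = 1 := by
    have h3 := hiter p 1
    rw [hup, one_mul, inv_one, mul_one] at h3
    have h4 := hinj _ _ h3
    rw [mul_one] at h4
    exact h4.symm
  have ha1 : α 1 = 1 := by
    have h3 : (α 1 - 1) ^ p = 0 := by
      rw [sub_pow_char, ha, one_pow, sub_self]
    exact sub_eq_zero.1 (eq_zero_of_pow_eq_zero h3)
  intro x hx
  rw [← h.U] at hx
  obtain ⟨y, rfl⟩ := hx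
  have h3 := hα (Multiplicative.toAdd y)
  rw [hlin1, ha1, one_mul] at h3
  have h4 : u * ε y * u⁻¹ = ε y := h3
  calc u * ε y = (u * ε y * u⁻¹) * u := by group
    _ = ε y * u := by rw [h4]

/-- one side -/
theorem PSGen_side {p : ℕ} [Fact p.Prime] {F : Type} [Field F] [Finite F] [CharP F p]
    (hp2 : p ≠ 2) {X : Type} [Group X] [Finite X] {L U₁ U₂ : Subgroup X} (hL : L.Normal)
    {ε : Multiplicative F →* X} {t : Fˣ → X} (h : P2 p F L U₁ U₂ ε t) (u : X)
    (hup : orderOf u = p) (hu1 : ∀ x ∈ U₁, u * x * u⁻¹ ∈ U₁) (hu2 : ∀ x ∈ U₂, u * x * u⁻¹ ∈ U₂) :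
    U₁ ≤ Gam p (Subgroup.zpowers u) ∨ ∀ x ∈ U₁, u * x = x * u := by
  have hup1 : u ^ p = 1 := by rw [← hup]; exact pow_orderOf_eq_one u
  set Q : Subgroup X := Subgroup.zpowers u with hQdef
  have huQ : u ∈ Q := Subgroup.mem_zpowers u
  have hQ : IsPGroup p Q := by
    apply IsPGroup.of_card (n := 1)
    rw [pow_one, hQdef, Nat.card_zpowers, hup]
  have huN1 : u ∈ Subgroup.normalizer (U₁ : Set X) := PSGen_norm u U₁ hu1
  have huN2 : u ∈ Subgroup.normalizer (U₂ : Set X) := PSGen_norm u U₂ hu2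
  set T : Subgroup X := L ⊓ (Subgroup.normalizer (U₁ : Set X) ⊓ Subgroup.normalizer (U₂ : Set X))
    with hT
  have hTt : ∀ g ∈ T, ∃ b, g = t b := by
    intro g hg
    obtain ⟨hg1, hg2, hg3⟩ := hg
    exact h.tor g hg1 (fun v hv => (Subgroup.mem_normalizer_iff.1 hg2 v).1 hv)
      (fun v hv => (Subgroup.mem_normalizer_iff.1 hg3 v).1 hv)
  have htT : ∀ b, t b ∈ T := by
    intro b
    refine ⟨h.tL b, PSGen_norm _ _ ?_, PSGen_norm _ _ (h.tU2 b)⟩
    intro x hx
    rw [← h.U] at hx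
    obtain ⟨y, rfl⟩ := hx
    have h1 := h.tU b (Multiplicative.toAdd y)
    have h2 : t b * ε y * (t b)⁻¹ = ε (Multiplicative.ofAdd ((b : F) ^ 2 *
      Multiplicative.toAdd y)) := h1
    rw [h2, ← h.U]
    exact ⟨_, rfl⟩
  have hTp : ¬ p ∣ Nat.card T := by
    intro hd
    obtain ⟨x, hx⟩ := exists_prime_orderOf_dvd_card' p hd
    obtain ⟨b, hb⟩ := hTt x x.2
    apply h.tord b
    rw [← hb, Subgroup.orderOf_coe, hx]
  have huT : ∀ a ∈ T, u * a * u⁻¹ ∈ T := by
    intro a ha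
    obtain ⟨ha1, ha2, ha3⟩ := ha
    refine ⟨hL.conj_mem a ha1 u, ?_, ?_⟩
    · exact Subgroup.mul_mem _ (Subgroup.mul_mem _ huN1 ha2) (Subgroup.inv_mem _ huN1)
    · exact Subgroup.mul_mem _ (Subgroup.mul_mem _ huN2 ha3) (Subgroup.inv_mem _ huN2)
  have hQT : ∀ q ∈ Q, ∀ a ∈ T, q * a * q⁻¹ ∈ T := GR3_zp u T huT
  obtain ⟨-, hcl, -⟩ := all_GCop p X T Q hTp hQ hQT
  set D : Subgroup X := nclIn (T ⊔ Q) Q with hDdef
  have hDH : D ≤ T ⊔ Q := GSC_le _ _ le_sup_right
  have hQD : Q ≤ D := GSC_ge _ _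
  have hDp : PSol p D := by
    have h1 := (prf_GPS p (T ⊔ Q : Subgroup X) (HNor_sup T Q hTp hQ hQT)).1
      (D.subgroupOf (T ⊔ Q))
    exact HNor_surj h1 (Subgroup.subgroupOfEquivOfLe hDH).toMonoidHom
      (Subgroup.subgroupOfEquivOfLe hDH).surjective
  have hcomm : ∀ g ∈ T, g⁻¹ * u * g * u⁻¹ ∈ D := by
    intro g hg
    have h1 : g⁻¹ * u * g⁻¹⁻¹ ∈ D :=
      GCop_mem_nclIn (Subgroup.inv_mem _ (Subgroup.mem_sup_left hg)) huQ
    rw [inv_inv] at h1
    exact D.mul_mem h1 (D.inv_mem (hQD huQ))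
  have hcommT : ∀ g ∈ T, g⁻¹ * u * g * u⁻¹ ∈ T := by
    intro g hg
    have h1 := T.mul_mem (T.inv_mem hg) (huT g hg)
    have e1 : g⁻¹ * (u * g * u⁻¹) = g⁻¹ * u * g * u⁻¹ := by group
    rwa [e1] at h1
  have hDN : D ≤ Subgroup.normalizer (U₁ : Set X) := by
    refine hDH.trans (sup_le ?_ ?_)
    · exact fun g hg => hg.2.1
    · rw [hQdef, Subgroup.zpowers_le]
      exact huN1
  by_cases hc : ∃ g ∈ T, ∃ x ∈ U₁, (g⁻¹ * u * g * u⁻¹) * x ≠ x * (g⁻¹ * u * g * u⁻¹)
  · left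
    obtain ⟨g, hg, x, hx, hne⟩ := hc
    set s := g⁻¹ * u * g * u⁻¹ with hs
    obtain ⟨b, hb⟩ := hTt s (hcommT g hg)
    have hb1 : (b : F) ^ 2 - 1 ≠ 0 := by
      intro h1
      have h2 : (b : F) ^ 2 = 1 := sub_eq_zero.1 h1
      apply hne
      rw [← h.U] at hx
      obtain ⟨y, rfl⟩ := hx
      have h3 := h.tU b (Multiplicative.toAdd y)
      rw [h2, one_mul, ← hb] at h3
      have h4 : s * ε y * s⁻¹ = ε y := h3
      calc s * ε y = (s * ε y * s⁻¹) * s := by group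
        _ = ε y * s := by rw [h4]
    set Y : Subgroup X := U₁ ⊔ D with hY
    have hmono : nclIn D Q ≤ nclIn Y Q := by
      unfold nclIn
      apply Subgroup.closure_mono
      rintro z ⟨x, hx, q, hq, rfl⟩
      exact ⟨x, Subgroup.mem_sup_right hx, q, hq, rfl⟩
    have hDY : D ≤ nclIn Y Q := by
      rw [hcl] at hmono
      exact hmono
    have hsD : s ∈ nclIn Y Q := hDY (hcomm g hg)
    have hU1Y : U₁ ≤ nclIn Y Q := by
      intro x hx
      rw [← h.U] at hx
      obtain ⟨y, rfl⟩ := hx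
      set z : F := ((b : F) ^ 2 - 1)⁻¹ * Multiplicative.toAdd y with hz
      have hw : ε (Multiplicative.ofAdd z) ∈ Y := by
        apply Subgroup.mem_sup_left
        rw [← h.U]
        exact ⟨_, rfl⟩
      have h1 : ε (Multiplicative.ofAdd z) * s⁻¹ * (ε (Multiplicative.ofAdd z))⁻¹ ∈ nclIn Y Q :=
        GSC_conj Y Q _ hw _ (Subgroup.inv_mem _ hsD)
      have h2 := Subgroup.mul_mem _ hsD h1
      have e1 : s * (ε (Multiplicative.ofAdd z) * s⁻¹ * (ε (Multiplicative.ofAdd z))⁻¹) =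
          ε y := by
        have h3 := h.tU b z
        rw [← hb] at h3
        have e2 : s * (ε (Multiplicative.ofAdd z) * s⁻¹ * (ε (Multiplicative.ofAdd z))⁻¹) =
            (s * ε (Multiplicative.ofAdd z) * s⁻¹) * (ε (Multiplicative.ofAdd z))⁻¹ := by group
        rw [e2, h3, ← map_inv, ← map_mul]
        congr 1
        have h4 : (b : F) ^ 2 * z + -z = Multiplicative.toAdd y := by
          have h5 : (b : F) ^ 2 * z + -z = ((b : F) ^ 2 - 1) * z := by ring
          rw [h5, hz, mul_inv_cancel_left₀ hb1]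
        exact h4
      rw [e1] at h2
      exact h2
    have hYY : nclIn Y Q = Y :=
      le_antisymm (GSC_le Y Q (hQD.trans le_sup_right)) (sup_le hU1Y hDY)
    have hYp : PSol p Y := PSGen_ext U₁ D (PSGen_pg h) hDp
      (fun q hq a ha => (Subgroup.mem_normalizer_iff.1 (hDN hq) a).1 ha)
    have hle : Y ≤ Gam p Q := le_sSup ⟨Q, le_rfl, hQD.trans le_sup_right, hYY, hYp⟩
    exact le_sup_left.trans hle
  · right
    push Not at hc
    refine PSGen_lin hp2 h u hup1 hu1 ?_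
    intro b x hx
    have h1 := hc (t b) (htT b) (u * x * u⁻¹) (hu1 x hx)
    calc u * (t b * x * (t b)⁻¹) * u⁻¹
        = t b * (((t b)⁻¹ * u * t b * u⁻¹) * (u * x * u⁻¹)) * (u * (t b)⁻¹ * u⁻¹) := by group
      _ = t b * ((u * x * u⁻¹) * ((t b)⁻¹ * u * t b * u⁻¹)) * (u * (t b)⁻¹ * u⁻¹) := by rw [h1]
      _ = t b * (u * x * u⁻¹) * (t b)⁻¹ := by group

/-- the mixed case -/
theorem PSGen_mix {p : ℕ} [Fact p.Prime] {X : Type} [Group X] [Finite X] {L U₁ U₂ : Subgroup X}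
    (hS : IsSimpleGroup L) (u : X) (hup : orderOf u = p) (hgen : U₁ ⊔ U₂ = L) (hne : U₁ ≠ ⊥)
    (h1 : U₁ ≤ Gam p (Subgroup.zpowers u)) (h2 : ∀ x ∈ U₂, u * x = x * u) :
    L ≤ Gam p (Subgroup.zpowers u) := by
  have hQ : IsPGroup p (Subgroup.zpowers u) := by
    apply IsPGroup.of_card (n := 1)
    rw [pow_one, Nat.card_zpowers, hup]
  obtain ⟨-, hnor, -, -⟩ := all_HNor p X (Subgroup.zpowers u) hQ
  have hU2 : U₂ ≤ Subgroup.normalizer (Gam p (Subgroup.zpowers u) : Set X) := by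
    refine GR3_norm U₂ _ ?_
    intro w hw x hx
    refine hnor w ?_ x hx
    intro q hq
    obtain ⟨k, rfl⟩ := Subgroup.mem_zpowers_iff.1 hq
    have hcw : Commute w u := (h2 w hw).symm
    exact (hcw.zpow_right k).eq
  have hLN : L ≤ Subgroup.normalizer (Gam p (Subgroup.zpowers u) : Set X) := by
    rw [← hgen]
    exact sup_le (h1.trans Subgroup.le_normalizer) hU2
  have hn : ((Gam p (Subgroup.zpowers u)).subgroupOf L).Normal :=
    Subgroup.normal_subgroupOf_of_le_normalizer hLN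
  rcases hS.eq_bot_or_eq_top_of_normal _ hn with h3 | h3
  · exfalso
    apply hne
    rw [Subgroup.subgroupOf_eq_bot] at h3
    have h4 : U₁ ≤ L := by rw [← hgen]; exact le_sup_left
    exact le_bot_iff.1 (h3 h1 h4)
  · exact Subgroup.subgroupOf_eq_top.1 h3

/-- [PSGen] -/
theorem prf_PSGen (hStr : PStr) : PSGen := by
  intro p _ F _ _ _ X _ _ L u hp2 hL hiso hS hcen hup hLu hex
  obtain ⟨U₁, U₂, hne, hU1, hU2, hc1, hc2, hu1, hu2⟩ := hex
  obtain ⟨ε, t, h12⟩ := hStr p F X L hiso U₁ U₂ hU1 hU2 hc1 hc2 hne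
  obtain ⟨ε', t', h21⟩ := hStr p F X L hiso U₂ U₁ hU2 hU1 hc2 hc1 hne.symm
  have hF : 1 < Nat.card F := Finite.one_lt_card
  have hb1 : U₁ ≠ ⊥ := by
    rintro rfl
    rw [Subgroup.card_bot] at hc1
    omega
  have hb2 : U₂ ≠ ⊥ := by
    rintro rfl
    rw [Subgroup.card_bot] at hc2
    omega
  rcases PSGen_side hp2 hL h12 u hup hu1 hu2 with h1 | h1
  · rcases PSGen_side hp2 hL h21 u hup hu2 hu1 with h2 | h2
    · rw [← h12.gen]
      exact sup_le h1 h2
    · exact PSGen_mix hS u hup h12.gen hb1 h1 h2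
  · rcases PSGen_side hp2 hL h21 u hup hu2 hu1 with h2 | h2
    · exact PSGen_mix hS u hup h21.gen hb2 h2 h1
    · exfalso
      have h3 : L ≤ Subgroup.centralizer {u} := by
        rw [← h12.gen]
        refine sup_le ?_ ?_
        · intro x hx
          rw [Subgroup.mem_centralizer_singleton_iff]
          exact (h1 x hx).symm
        · intro x hx
          rw [Subgroup.mem_centralizer_singleton_iff]
          exact (h2 x hx).symm
      have h4 : u = 1 := by
        apply hcen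
        intro l hl
        have h5 := h3 hl
        rw [Subgroup.mem_centralizer_singleton_iff] at h5
        exact h5.symm
      rw [h4, orderOf_one] at hup
      exact (Fact.out : p.Prime).one_lt.ne hup

end MP7b0bad.SL
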