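import Pool.Agent.Work.MP_7b0bad_ag.SL.Stmts

set_option autoImplicit false

/-!
# Block SL, item SLHyp: hyperplanes
-/

namespace MP7b0bad.SL

open Module

section

variable {F V : Type} [Field F] [AddCommGroup V] [Module F V]

theorem SLHyp_sub_mem {W : Submodule F V} (g : HW W) (v : V) :
    ((g : SLV F V) : V ≃ₗ[F] V) v - v ∈ W := g.2 v

theorem SLHyp_map_mem {W : Submodule F V} (g : HW W) {w : V} (hw : w ∈ W) :
    ((g : SLV F V) : V ≃ₗ[F] V) w ∈ W := by
  have h := W.add_mem (SLHyp_sub_mem g w) hw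
  rwa [sub_add_cancel] at h

/-- restriction to the hyperplane -/
noncomputable def SLHyp_resE (W : Submodule F V) : HW W →* (W ≃ₗ[F] W) where
  toFun g :=
    { toFun := fun w => ⟨((g : SLV F V) : V ≃ₗ[F] V) w, SLHyp_map_mem g w.2⟩
      map_add' := fun a b => Subtype.ext (map_add _ _ _)
      map_smul' := fun c a => Subtype.ext (map_smul _ _ _)
      invFun := fun w => ⟨((g⁻¹ : HW W) : V ≃ₗ[F] V) w, SLHyp_map_mem g⁻¹ w.2⟩
      left_inv := fun w => Subtype.ext (((g : SLV F V) : V ≃ₗ[F] V).symm_apply_apply _)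
      right_inv := fun w => Subtype.ext (((g : SLV F V) : V ≃ₗ[F] V).apply_symm_apply _) }
  map_one' := by
    ext w
    rfl
  map_mul' := fun a b => by
    ext w
    rfl

theorem SLHyp_resE_coe (W : Submodule F V) (g : HW W) (w : W) :
    ((SLHyp_resE W g w : W) : V) = ((g : SLV F V) : V ≃ₗ[F] V) w := rfl

theorem SLHyp_det (W : Submodule F V) [Module.Finite F V] (g : V ≃ₗ[F] V) (h : W ≃ₗ[F] W)
    (hg : ∀ v, g v - v ∈ W) (hh : ∀ w : W, (h w : V) = g w) :
    LinearEquiv.det g = LinearEquiv.det h := by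
  have he : W ≤ W.comap (g : V →ₗ[F] V) := fun w hw => by
    show g w ∈ W
    rw [← hh ⟨w, hw⟩]
    exact (h ⟨w, hw⟩).2
  have h1 := LinearMap.det_eq_det_mul_det W (g : V →ₗ[F] V) he
  have h2 : W.mapQ W (g : V →ₗ[F] V) he = LinearMap.id := by
    ext v
    show W.mkQ (g v) = W.mkQ v
    rw [← sub_eq_zero, ← map_sub, Submodule.mkQ_apply, Submodule.Quotient.mk_eq_zero]
    exact hg v
  have h3 : (g : V →ₗ[F] V).restrict he = (h : W →ₗ[F] W) := by
    ext w
    exact (hh w).symm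
  rw [h2, LinearMap.det_id, mul_one, h3] at h1
  ext
  rw [LinearEquiv.coe_det, LinearEquiv.coe_det]
  exact h1

/-- restriction to the hyperplane, special linear groups -/
noncomputable def SLHyp_res (W : Submodule F V) [Module.Finite F V] : HW W →* SLV F W :=
  (SLHyp_resE W).codRestrict (SLV F W) fun g => by
    have h1 : LinearEquiv.det ((g : SLV F V) : V ≃ₗ[F] V) = 1 := (g : SLV F V).2
    have h2 := SLHyp_det W ((g : SLV F V) : V ≃ₗ[F] V) (SLHyp_resE W g) (SLHyp_sub_mem g)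
      (fun w => rfl)
    rw [h1] at h2
    exact h2.symm

theorem SLHyp_res_coe (W : Submodule F V) [Module.Finite F V] (g : HW W) (w : W) :
    (((SLHyp_res W g : SLV F W) : W ≃ₗ[F] W) w : V) = ((g : SLV F V) : V ≃ₗ[F] V) w := rfl

theorem SLHyp_res_surj (W : Submodule F V) [Module.Finite F V] :
    Function.Surjective (SLHyp_res W) := by
  intro h
  obtain ⟨C, hC⟩ := W.exists_isCompl
  let e := Submodule.prodEquivOfIsCompl W C hC
  let g : V ≃ₗ[F] V := e.symm.trans ((LinearEquiv.prodCongr (h : W ≃ₗ[F] W)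
    (LinearEquiv.refl F C)).trans e)
  have hge : ∀ a : W × C, g (e a) = e ((h : W ≃ₗ[F] W) a.1, a.2) := by
    intro a
    show e ((LinearEquiv.prodCongr (h : W ≃ₗ[F] W) (LinearEquiv.refl F C)) (e.symm (e a))) = _
    rw [LinearEquiv.symm_apply_apply]
    rfl
  have hea : ∀ a : W × C, e a = (a.1 : V) + (a.2 : V) := fun a => rfl
  have hg : ∀ v, g v - v ∈ W := by
    intro v
    obtain ⟨a, rfl⟩ := e.surjective v
    rw [hge, hea, hea]
    have : ((((h : W ≃ₗ[F] W) a.1, a.2) : W × C).1 : V) +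
        ((((h : W ≃ₗ[F] W) a.1, a.2) : W × C).2 : V) - ((a.1 : V) + (a.2 : V)) =
        (((h : W ≃ₗ[F] W) a.1 - a.1 : W) : V) := by
      push_cast
      abel
    rw [this]
    exact Submodule.coe_mem _
  have hgw : ∀ w : W, (((h : W ≃ₗ[F] W) w : W) : V) = g w := by
    intro w
    have h1 := hge (w, 0)
    rw [hea, hea] at h1
    simpa using h1.symm
  have hd := SLHyp_det W g (h : W ≃ₗ[F] W) hg hgw
  have hd1 : LinearEquiv.det (h : W ≃ₗ[F] W) = 1 := h.2
  refine ⟨⟨⟨g, by rw [hd1] at hd; exact hd⟩, hg⟩, ?_⟩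
  apply Subtype.ext
  ext w
  exact (hgw w).symm

/-- the functional of a hyperplane -/
theorem SLHyp_fun (W : Submodule F V) [Module.Finite F V] (hW : finrank F W + 1 = finrank F V) :
    ∃ (f : V →ₗ[F] F) (e : V), f e = 1 ∧ ∀ v, f v = 0 ↔ v ∈ W := by
  have h1 : finrank F (V ⧸ W) = 1 := by
    have := W.finrank_quotient_add_finrank
    omega
  let φ : (V ⧸ W) ≃ₗ[F] F := LinearEquiv.ofFinrankEq (V ⧸ W) F (by rw [h1, finrank_self])
  let f : V →ₗ[F] F := (φ : (V ⧸ W) →ₗ[F] F).comp W.mkQ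
  have hf : ∀ v, f v = φ (W.mkQ v) := fun v => rfl
  obtain ⟨e, he⟩ := W.mkQ_surjective (φ.symm 1)
  refine ⟨f, e, ?_, ?_⟩
  · rw [hf, he, LinearEquiv.apply_symm_apply]
  · intro v
    rw [hf, map_eq_zero_iff φ φ.injective, Submodule.mkQ_apply, Submodule.Quotient.mk_eq_zero]

/-- transvections in the kernel -/
noncomputable def SLHyp_k (W : Submodule F V) [Module.Finite F V] (f : V →ₗ[F] F)
    (hf : ∀ v, f v = 0 ↔ v ∈ W) (a : W) : HW W :=
  ⟨⟨LinearEquiv.transvection (f := f) (v := (a : V)) ((hf a).2 a.2),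
    LinearEquiv.transvection.det_eq_one _⟩, fun v => by
      show LinearEquiv.transvection (f := f) (v := (a : V)) ((hf a).2 a.2) v - v ∈ W
      rw [LinearEquiv.transvection.apply, add_sub_cancel_left]
      exact W.smul_mem _ a.2⟩

theorem SLHyp_k_apply (W : Submodule F V) [Module.Finite F V] (f : V →ₗ[F] F)
    (hf : ∀ v, f v = 0 ↔ v ∈ W) (a : W) (v : V) :
    ((SLHyp_k W f hf a : SLV F V) : V ≃ₗ[F] V) v = v + f v • (a : V) :=
  LinearEquiv.transvection.apply ((hf a).2 a.2) v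

theorem SLHyp_ext {W : Submodule F V} {g h : HW W}
    (H : ∀ v, ((g : SLV F V) : V ≃ₗ[F] V) v = ((h : SLV F V) : V ≃ₗ[F] V) v) : g = h := by
  apply Subtype.ext
  apply Subtype.ext
  ext v
  exact H v

theorem SLHyp_f (W : Submodule F V) [Module.Finite F V] (f : V →ₗ[F] F)
    (hf : ∀ v, f v = 0 ↔ v ∈ W) (g : HW W) (v : V) :
    f (((g : SLV F V) : V ≃ₗ[F] V) v) = f v := by
  have h := (hf _).2 (SLHyp_sub_mem g v)
  rw [map_sub, sub_eq_zero] at h
  exact h

/-- conjugation -/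
theorem SLHyp_conj (W : Submodule F V) [Module.Finite F V] (f : V →ₗ[F] F)
    (hf : ∀ v, f v = 0 ↔ v ∈ W) (g : HW W) (a : W) :
    g * SLHyp_k W f hf a = SLHyp_k W f hf (((SLHyp_res W g : SLV F W) : W ≃ₗ[F] W) a) * g := by
  apply SLHyp_ext
  intro v
  show ((g : SLV F V) : V ≃ₗ[F] V) (((SLHyp_k W f hf a : SLV F V) : V ≃ₗ[F] V) v) =
    ((SLHyp_k W f hf (((SLHyp_res W g : SLV F W) : W ≃ₗ[F] W) a) : SLV F V) : V ≃ₗ[F] V)
      (((g : SLV F V) : V ≃ₗ[F] V) v)
  rw [SLHyp_k_apply, SLHyp_k_apply, SLHyp_f W f hf g v, SLHyp_res_coe, map_add, map_smul]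

theorem SLHyp_k_add (W : Submodule F V) [Module.Finite F V] (f : V →ₗ[F] F)
    (hf : ∀ v, f v = 0 ↔ v ∈ W) (a b : W) :
    SLHyp_k W f hf (a + b) = SLHyp_k W f hf a * SLHyp_k W f hf b := by
  apply SLHyp_ext
  intro v
  show _ = ((SLHyp_k W f hf a : SLV F V) : V ≃ₗ[F] V)
    (((SLHyp_k W f hf b : SLV F V) : V ≃ₗ[F] V) v)
  rw [SLHyp_k_apply, SLHyp_k_apply, SLHyp_f W f hf (SLHyp_k W f hf b) v, SLHyp_k_apply]
  push_cast
  rw [smul_add]
  abel

/-- the kernel -/
theorem SLHyp_ker (W : Submodule F V) [Module.Finite F V] (f : V →ₗ[F] F)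
    (hf : ∀ v, f v = 0 ↔ v ∈ W) (e : V) (he : f e = 1) (g : HW W)
    (hg : g ∈ (SLHyp_res W).ker) : ∃ a : W, g = SLHyp_k W f hf a := by
  have hfix : ∀ w ∈ W, ((g : SLV F V) : V ≃ₗ[F] V) w = w := by
    intro w hw
    have h1 : SLHyp_res W g = 1 := hg
    have h2 := SLHyp_res_coe W g ⟨w, hw⟩
    rw [h1] at h2
    exact h2.symm
  refine ⟨⟨((g : SLV F V) : V ≃ₗ[F] V) e - e, SLHyp_sub_mem g e⟩, ?_⟩
  apply SLHyp_ext
  intro v
  rw [SLHyp_k_apply]
  have h3 : v - f v • e ∈ W := by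
    rw [← hf, map_sub, map_smul, he, smul_eq_mul, mul_one, sub_self]
  have h4 := hfix _ h3
  rw [map_sub, map_smul] at h4
  show ((g : SLV F V) : V ≃ₗ[F] V) v = v + f v • (((g : SLV F V) : V ≃ₗ[F] V) e - e)
  rw [smul_sub]
  rw [sub_eq_iff_eq_add] at h4
  rw [h4]
  abel

/-- in dimension at least two every vector is a difference -/
theorem SLHyp_diff (W : Type) [AddCommGroup W] [Module F W] [Module.Finite F W]
    (h2 : 2 ≤ finrank F W) (w : W) :
    ∃ (h : SLV F W) (a : W), (h : W ≃ₗ[F] W) a - a = w := by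
  by_cases hw : w = 0
  · exact ⟨1, 0, by rw [hw]; simp⟩
  · have hne : (F ∙ w) ≠ ⊤ := by
      intro ht
      have h3 := finrank_span_singleton (K := F) hw
      rw [ht, finrank_top] at h3
      omega
    obtain ⟨a, ha⟩ : ∃ a : W, a ∉ (F ∙ w) := by
      by_contra hcon
      push Not at hcon
      exact hne (eq_top_iff.2 fun v _ => hcon v)
    obtain ⟨f, hfa, hfw⟩ := Submodule.exists_le_ker_of_notMem ha
    have hfw0 : f w = 0 := hfw (Submodule.mem_span_singleton_self w)
    have hfw1 : ((f a)⁻¹ • f) w = 0 := by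
      rw [LinearMap.smul_apply, hfw0, smul_zero]
    refine ⟨⟨LinearEquiv.transvection (f := (f a)⁻¹ • f) (v := w) hfw1,
      LinearEquiv.transvection.det_eq_one _⟩, a, ?_⟩
    show LinearEquiv.transvection (f := (f a)⁻¹ • f) (v := w) hfw1 a - a = w
    rw [LinearEquiv.transvection.apply, add_sub_cancel_left, LinearMap.smul_apply, smul_eq_mul,
      inv_mul_cancel₀ hfa, one_smul]

end

theorem prf_SLHyp : SLHyp := by
  intro p _ R hR F V _ _ _ _ _ _ W hW h2 hG x hx hxW hmov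
  obtain ⟨f, e, he, hf⟩ := SLHyp_fun W hW
  have : Finite V := Module.finite_of_finite F
  have : Finite (SLV F V) := Finite.of_injective
    (fun g : SLV F V => ((g : V ≃ₗ[F] V) : V → V)) fun a b hab => by
      apply Subtype.ext
      ext v
      exact congrFun hab v
  have hsurj := SLHyp_res_surj W
  set ρ := SLHyp_res W with hρ
  let x' : HW W := ⟨x, hxW⟩
  have hx' : orderOf x' = p := by
    rw [← hx]
    exact Subgroup.orderOf_mk x hxW
  have hρ1 : ρ x' ≠ 1 := by
    intro h1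
    obtain ⟨w, hw, hne⟩ := hmov
    apply hne
    have h3 := SLHyp_res_coe W x' ⟨w, hw⟩
    rw [← hρ, h1] at h3
    exact h3.symm
  have hρx : orderOf (ρ x') = p := by
    apply orderOf_eq_prime _ hρ1
    rw [← map_pow, ← hx', pow_orderOf_eq_one, map_one]
  obtain ⟨hG1, hG2⟩ := hG (ρ x') hρx
  -- the normal closure
  have hM : Subgroup.normalClosure {x'} = (⊤ : Subgroup (HW W)) := by
    set M := Subgroup.normalClosure ({x'} : Set (HW W)) with hMdef
    have hMn : M.Normal := Subgroup.normalClosure_normal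
    have hMρ : M.map ρ = ⊤ := by
      rw [hMdef, Subgroup.map_normalClosure _ _ hsurj, Set.image_singleton, hG2]
    have hK : ∀ w : W, SLHyp_k W f hf w ∈ M := by
      intro w
      obtain ⟨h, a, hha⟩ := SLHyp_diff (F := F) W h2 w
      have hh : h ∈ M.map ρ := by rw [hMρ]; trivial
      obtain ⟨g, hg, rfl⟩ := hh
      have h5 := SLHyp_conj W f hf g a
      have h6 : ((SLHyp_res W g : SLV F W) : W ≃ₗ[F] W) a = w + a := by
        rw [← hha, sub_add_cancel]
      rw [h6, SLHyp_k_add] at h5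
      have h7 : SLHyp_k W f hf w = g * (SLHyp_k W f hf a * g⁻¹ * (SLHyp_k W f hf a)⁻¹) := by
        rw [← mul_assoc, ← mul_assoc, h5]
        group
      rw [h7]
      exact M.mul_mem hg (hMn.conj_mem _ (M.inv_mem hg) _)
    rw [eq_top_iff]
    intro g _
    have hg : ρ g ∈ M.map ρ := by rw [hMρ]; trivial
    obtain ⟨m, hm, hmg⟩ := hg
    have hk : m⁻¹ * g ∈ (SLHyp_res W).ker := by
      rw [MonoidHom.mem_ker, ← hρ, map_mul, map_inv, hmg, inv_mul_cancel]
    obtain ⟨a, ha⟩ := SLHyp_ker W f hf e he _ hk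
    have h8 : g = m * (m⁻¹ * g) := by group
    rw [h8, ha]
    exact M.mul_mem hm (hK a)
  have hzp : (Subgroup.zpowers x).subgroupOf (HW W) = Subgroup.zpowers x' := by
    ext y
    rw [Subgroup.mem_subgroupOf, Subgroup.mem_zpowers_iff, Subgroup.mem_zpowers_iff]
    constructor
    · rintro ⟨k, hk⟩
      exact ⟨k, Subtype.ext (by rw [← hk]; rfl)⟩
    · rintro ⟨k, hk⟩
      exact ⟨k, by rw [← hk]; rfl⟩
  have hle : Subgroup.zpowers x ≤ HW W := by
    rw [Subgroup.zpowers_le]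
    exact hxW
  constructor
  · refine ⟨Subgroup.zpowers x, le_refl _, hle, ?_⟩
    rw [hzp]
    refine hR.solv (HW W) (Subgroup.zpowers x') ρ.ker ?_ ?_ ?_ ?_
    · apply IsPGroup.of_card (n := 1)
      rw [Nat.card_zpowers, hx', pow_one]
    · rw [eq_top_iff, ← hM]
      apply Subgroup.normalClosure_mono
      rw [Set.singleton_subset_iff]
      exact Subgroup.mem_zpowers x'
    · have hcomm : ∀ a b : ρ.ker, a * b = b * a := by
        rintro ⟨a, ha⟩ ⟨b, hb⟩
        obtain ⟨u, rfl⟩ := SLHyp_ker W f hf e he a ha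
        obtain ⟨v, rfl⟩ := SLHyp_ker W f hf e he b hb
        apply Subtype.ext
        show SLHyp_k W f hf u * SLHyp_k W f hf v = SLHyp_k W f hf v * SLHyp_k W f hf u
        rw [← SLHyp_k_add, ← SLHyp_k_add, add_comm]
      exact Group.isSolvable_of_comm hcomm
    · let φ : SLV F W ≃* (HW W ⧸ ρ.ker) := (QuotientGroup.quotientKerEquivOfSurjective ρ hsurj).symm
      have h9 := hR.rel.iso _ _ φ _ hG1
      have h10 : φ (ρ x') = QuotientGroup.mk' ρ.ker x' := by
        show (QuotientGroup.quotientKerEquivOfSurjective ρ hsurj).symm (ρ x') = _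
        rw [MulEquiv.symm_apply_eq]
        rfl
      have h11 : (Subgroup.zpowers (ρ x')).map φ.toMonoidHom =
          (Subgroup.zpowers x').map (QuotientGroup.mk' ρ.ker) := by
        rw [MonoidHom.map_zpowers, MonoidHom.map_zpowers]
        congr 1
      rw [h11] at h9
      exact h9
  · intro g hg
    have h12 : (⟨g, hg⟩ : HW W) ∈ Subgroup.normalClosure ({x'} : Set (HW W)) := by
      rw [hM]
      trivial
    have h13 : Subgroup.normalClosure ({x'} : Set (HW W)) ≤
        (Subgroup.normalClosure ({x} : Set (SLV F V))).comap (HW W).subtype := by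
      have : (Subgroup.normalClosure ({x} : Set (SLV F V))).Normal :=
        Subgroup.normalClosure_normal
      apply Subgroup.normalClosure_le_normal
      rw [Set.singleton_subset_iff]
      exact Subgroup.subset_normalClosure (Set.mem_singleton x)
    exact h13 h12

end MP7b0bad.SL
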